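import Pool.Agent.BassH.TriFG
import Pool.Agent.Helper83.Bass.Main

/-!
# BassH: smooth cubics
-/

set_option autoImplicit false
set_option linter.style.haveILetI false
set_option linter.unusedSectionVars false

namespace BassH

open Function MvPolynomial
open Pool.Agent.Helper11 (G0)
open Pool.Agent.Helper67.Bass (LI bilForm)
open Pool.Agent.Helper83.Bass (cub WW WR exists_iso smooth_WW)

section

variable {k : Type} [CommRing k] {a b c : ℕ}

/-- the coefficients of `yⱼ` -/
noncomputable def cgj (t : Fin a → Fin b → Fin c → k) (j : Fin b) :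
    MvPolynomial (Fin a ⊕ Fin c) k :=
  ∑ i, ∑ l, C (t i j l) * X (Sum.inl i) * X (Sum.inr l)

/-- renaming of the variables -/
def cvE (a b c : ℕ) : ((Fin a ⊕ Fin c) ⊕ Fin b ⊕ Unit) ≃ Option (Fin a ⊕ Fin b ⊕ Fin c) where
  toFun := Sum.elim (Sum.elim (fun i => some (Sum.inl i)) (fun l => some (Sum.inr (Sum.inr l))))
    (Sum.elim (fun j => some (Sum.inr (Sum.inl j))) (fun _ => none))
  invFun x := match x with
    | none => Sum.inr (Sum.inr ())
    | some (Sum.inl i) => Sum.inl (Sum.inl i)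
    | some (Sum.inr (Sum.inl j)) => Sum.inr (Sum.inl j)
    | some (Sum.inr (Sum.inr l)) => Sum.inl (Sum.inr l)
  left_inv := by rintro ((i | l) | j | ⟨⟩) <;> rfl
  right_inv := by rintro (_ | i | j | l) <;> rfl

theorem rename_cub (t : Fin a → Fin b → Fin c → k) :
    rename (cvE a b c) (cub (cgj t)) = - cubF t := by
  have e1 : rename (cvE a b c) (∑ j, X (Sum.inr (Sum.inl j)) * rename Sum.inl (cgj t j)) =
      (rename some (triF t) : MvPolynomial (Option (Fin a ⊕ Fin b ⊕ Fin c)) k) := by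
    unfold cgj triF
    simp only [map_sum, map_mul, rename_C, rename_X, Finset.mul_sum]
    rw [Finset.sum_comm]
    refine Finset.sum_congr rfl fun i _ => ?_
    refine Finset.sum_congr rfl fun j _ => ?_
    refine Finset.sum_congr rfl fun l _ => ?_
    have h1 : cvE a b c (Sum.inr (Sum.inl j)) = some (Sum.inr (Sum.inl j)) := rfl
    have h2 : cvE a b c (Sum.inl (Sum.inl i)) = some (Sum.inl i) := rfl
    have h3 : cvE a b c (Sum.inl (Sum.inr l)) = some (Sum.inr (Sum.inr l)) := rfl
    rw [h1, h2, h3]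
    ring
  unfold cub cubF
  rw [map_sub, map_sub, map_pow, rename_X, e1]
  have h4 : cvE a b c (Sum.inr (Sum.inr ())) = none := rfl
  rw [h4]
  ring

/-- the two forms of the cubic -/
noncomputable def cubEquiv (t : Fin a → Fin b → Fin c → k) : WW (cgj t) ≃ₐ[k]
    (MvPolynomial (Option (Fin a ⊕ Fin b ⊕ Fin c)) k ⧸ Ideal.span {cubF t}) :=
  Ideal.quotientEquivAlg (Ideal.span {cub (cgj t)}) (Ideal.span {cubF t})
    (renameEquiv k (cvE a b c)) (by
      rw [Ideal.map_span, Set.image_singleton]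
      have : ((renameEquiv k (cvE a b c) : _ →+* _) (cub (cgj t))) = - cubF t := rename_cub t
      rw [this, Ideal.span_singleton_neg])

end

theorem thm_CubSm : St_CubSm := by
  intro k _ a b c t
  haveI := smooth_WW (k := k) (cgj t)
  exact Algebra.Smooth.of_equiv (cubEquiv t)

section

variable {k : Type} [CommRing k] {a b c : ℕ}

/-- flat and nested coordinates for the linear system -/
noncomputable def linEquiv (k : Type) [CommRing k] (a c : ℕ) :
    MvPolynomial (Fin a ⊕ Fin c) k ≃+* MvPolynomial (Fin c) (MvPolynomial (Fin a) k) :=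
  (renameEquiv k (Equiv.sumComm (Fin a) (Fin c))).toRingEquiv.trans
    (sumRingEquiv k (Fin c) (Fin a))

theorem linEquiv_C (r : k) : linEquiv k a c (C r) = C (C r) := by
  unfold linEquiv
  rw [RingEquiv.trans_apply]
  show sumRingEquiv k (Fin c) (Fin a) (rename _ (C r)) = _
  rw [rename_C, sumRingEquiv_C]

theorem linEquiv_x (i : Fin a) : linEquiv k a c (X (Sum.inl i)) = C (X i) := by
  unfold linEquiv
  rw [RingEquiv.trans_apply]
  show sumRingEquiv k (Fin c) (Fin a) (rename _ (X (Sum.inl i))) = _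
  rw [rename_X]
  exact sumRingEquiv_X_inr k (Fin c) (Fin a) i

theorem linEquiv_z (l : Fin c) : linEquiv k a c (X (Sum.inr l)) = X l := by
  unfold linEquiv
  rw [RingEquiv.trans_apply]
  show sumRingEquiv k (Fin c) (Fin a) (rename _ (X (Sum.inr l))) = _
  rw [rename_X]
  exact sumRingEquiv_X_inl k (Fin c) (Fin a) l

theorem linEquiv_cgj (t : Fin a → Fin b → Fin c → k) (j : Fin b) :
    linEquiv k a c (cgj t j) = ∑ l, C (triφ t j l) * X l := by
  unfold cgj triφ
  have e1 : ∀ (i : Fin a) (l : Fin c), linEquiv k a c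
      (C (t i j l) * X (Sum.inl i) * X (Sum.inr l)) = C (C (t i j l) * X i) * X l := by
    intro i l
    rw [map_mul, map_mul, linEquiv_C, linEquiv_x, linEquiv_z]
    simp only [map_mul]
  simp only [map_sum, e1, Finset.sum_mul]
  rw [Finset.sum_comm]

end

theorem thm_CubFG : St_CubFG := by
  intro k _ _ n h0 hk b c t
  have h1 := (thm_Lin k (n + 1) (thm_Hom k n hk) b c (triφ t) (triφ_hom t)).1
  let τ := Fin (n + 1) ⊕ Fin c
  let J : Ideal (MvPolynomial τ k) := Ideal.span (Set.range (cgj t))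
  have hB : FG0 (MvPolynomial τ k ⧸ J) := by
    refine closed_equiv _ _ (Ideal.quotientEquiv J
      (LI (⊥ : Ideal (MvPolynomial (Fin (n + 1)) k)) (triφ t)) (linEquiv k (n + 1) c) ?_).symm h1
    rw [Ideal.map_span]
    unfold LI
    rw [Ideal.map_bot, bot_sup_eq]
    congr 1
    ext x
    constructor
    · rintro ⟨j, rfl⟩
      exact ⟨cgj t j, ⟨j, rfl⟩, linEquiv_cgj t j⟩
    · rintro ⟨_, ⟨j, rfl⟩, rfl⟩
      exact ⟨j, (linEquiv_cgj t j).symm⟩
  obtain ⟨e, -⟩ := exists_iso (Ideal.Quotient.mk J) Ideal.Quotient.mk_surjective (cgj t)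
    (by rw [Ideal.mk_ker])
  haveI i1 : Module.Finite ℤ (G0 k) := Module.Finite.iff_addGroup_fg.mpr h0
  haveI i2 : Module.Finite ℤ (G0 (MvPolynomial τ k ⧸ J)) := Module.Finite.iff_addGroup_fg.mpr hB
  haveI hfg : AddGroup.FG (G0 k × G0 (MvPolynomial τ k ⧸ J)) :=
    Module.Finite.iff_addGroup_fg.mp inferInstance
  have hW : FG0 (WR (cgj t)) :=
    AddGroup.fg_of_surjective (f := e.symm.toAddMonoidHom) e.symm.surjective
  exact closed_equiv (WW (cgj t)) _ (cubEquiv t).toRingEquiv hW

end BassH
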