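import Pool.Agent.BassH.CubFG
import Pool.Agent.Helper11.Tri

/-!
# BassH: every closed subscheme of affine space is reached
-/

set_option autoImplicit false
set_option linter.style.haveILetI false
set_option linter.unusedSectionVars false

namespace BassH

open Function MvPolynomial
open Pool.Agent.Helper11
open Pool.Agent.Helper83.Bass (cub WW WR exists_iso smooth_WW exactF_restr SES)

/-! ### Presentations by bilinear forms -/

section present

variable {k : Type} [CommRing k] {n c : ℕ} {B : Type} [CommRing B]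
  (π : MvPolynomial (Fin n) k →+* B) (m : Fin c → (Fin n →₀ ℕ))

/-- `x₀ ↦ 1`, `xᵢ ↦ zᵢ`, `v_l ↦ z ^ (m l)` -/
noncomputable def evE : MvPolynomial (Fin (n + 1) ⊕ Fin c) k →+* B :=
  eval₂Hom (π.comp C) (Sum.elim (Fin.cases 1 (fun i => π (X i))) (fun l => π (monomial (m l) 1)))

theorem evE_C (a : k) : evE π m (C a) = π (C a) := by
  unfold evE; rw [eval₂Hom_C]; rfl

theorem evE_zero : evE π m (X (Sum.inl 0)) = 1 := by
  unfold evE; rw [eval₂Hom_X']; rfl

theorem evE_succ (i : Fin n) : evE π m (X (Sum.inl i.succ)) = π (X i) := by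
  unfold evE; rw [eval₂Hom_X']; rfl

theorem evE_v (l : Fin c) : evE π m (X (Sum.inr l)) = π (monomial (m l) 1) := by
  unfold evE; rw [eval₂Hom_X']; rfl

/-- the products `xᵢ v_l` -/
noncomputable def xv (k : Type) [CommRing k] (n c : ℕ) (p : Fin (n + 1) × Fin c) :
    MvPolynomial (Fin (n + 1) ⊕ Fin c) k := X (Sum.inl p.1) * X (Sum.inr p.2)

/-- bilinear forms vanishing in `B` -/
def bilE : Set (MvPolynomial (Fin (n + 1) ⊕ Fin c) k) :=
  {p | p ∈ Submodule.span k (Set.range (xv k n c)) ∧ evE π m p = 0}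

theorem ker_evE (H : Set (MvPolynomial (Fin n) k)) (hH : RingHom.ker π = Ideal.span H)
    (l₀ : Fin c) (hl₀ : m l₀ = 0)
    (hdown : ∀ j i, m j i ≠ 0 → ∃ j', m j' = m j - Finsupp.single i 1)
    (hsupp : ∀ h ∈ H, ∀ α ∈ h.support, ∃ j, m j = α) :
    RingHom.ker (evE π m) = Ideal.span (bilE π m) ⊔ Ideal.span {X (Sum.inl 0) - 1} ⊔
      Ideal.span {X (Sum.inr l₀) - 1} := by
  classical
  set I : Ideal (MvPolynomial (Fin (n + 1) ⊕ Fin c) k) := Ideal.span (bilE π m) ⊔
    Ideal.span {X (Sum.inl 0) - 1} ⊔ Ideal.span {X (Sum.inr l₀) - 1} with hI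
  have hπ1 : π (monomial (m l₀) 1) = 1 := by
    rw [hl₀]
    exact map_one π
  apply le_antisymm
  · let q := Ideal.Quotient.mk I
    have hbil : ∀ p ∈ bilE π m, q p = 0 := fun p hp =>
      Ideal.Quotient.eq_zero_iff_mem.mpr
        (Ideal.mem_sup_left (Ideal.mem_sup_left (Ideal.subset_span hp)))
    have hX0 : q (X (Sum.inl 0)) = 1 := by
      rw [← sub_eq_zero, ← map_one q, ← map_sub]
      exact Ideal.Quotient.eq_zero_iff_mem.mpr
        (Ideal.mem_sup_left (Ideal.mem_sup_right (Ideal.mem_span_singleton_self _)))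
    have hV0 : q (X (Sum.inr l₀)) = 1 := by
      rw [← sub_eq_zero, ← map_one q, ← map_sub]
      exact Ideal.Quotient.eq_zero_iff_mem.mpr
        (Ideal.mem_sup_right (Ideal.mem_span_singleton_self _))
    have hxv : ∀ j l, xv k n c (j, l) ∈ Submodule.span k (Set.range (xv k n c)) :=
      fun j l => Submodule.subset_span ⟨_, rfl⟩
    have hq : ∀ j l, q (xv k n c (j, l)) = q (X (Sum.inl j)) * q (X (Sum.inr l)) :=
      fun j l => map_mul q _ _
    have he : ∀ j l, evE π m (xv k n c (j, l)) =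
        evE π m (X (Sum.inl j)) * evE π m (X (Sum.inr l)) := fun j l => map_mul _ _ _
    let θ : MvPolynomial (Fin n) k →+* (MvPolynomial (Fin (n + 1) ⊕ Fin c) k ⧸ I) :=
      eval₂Hom (q.comp C) (fun i => q (X (Sum.inl i.succ)))
    have hθX : ∀ i, θ (X i) = q (X (Sum.inl i.succ)) := fun i =>
      MvPolynomial.eval₂Hom_X' _ _ i
    have hθC : ∀ a, θ (C a) = q (C a) := fun a => MvPolynomial.eval₂Hom_C _ _ a
    have hθ : ∀ (d : ℕ) (j : Fin c), (m j).degree = d →
        θ (monomial (m j) 1) = q (X (Sum.inr j)) := by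
      intro d
      induction d with
      | zero =>
          intro j hj
          have hj' : m j = 0 := (Finsupp.degree_eq_zero_iff _).mp hj
          have h1 : q (xv k n c (0, j) - xv k n c (0, l₀)) = 0 := by
            apply hbil
            refine ⟨Submodule.sub_mem _ (hxv _ _) (hxv _ _), ?_⟩
            rw [map_sub, he, he, evE_zero, evE_v, evE_v, hj', hl₀, sub_self]
          rw [map_sub, hq, hq, hX0, hV0, sub_eq_zero, one_mul, one_mul] at h1
          rw [h1, hj']
          exact map_one θ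
      | succ d ih =>
          intro j hj
          have hne : m j ≠ 0 := by
            intro h0
            rw [h0, map_zero] at hj
            omega
          obtain ⟨i, hi⟩ := Finsupp.ne_iff.mp hne
          obtain ⟨j', hj'⟩ := hdown j i hi
          have hsum : m j = Finsupp.single i 1 + m j' := by
            rw [hj', add_comm, tsub_add_cancel_of_le]
            rw [Finsupp.single_le_iff]
            have : m j i ≠ 0 := hi
            omega
          have hdeg : (m j').degree = d := by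
            have := congrArg Finsupp.degree hsum
            rw [map_add, hj, Finsupp.degree_single] at this
            omega
          have hmon : (monomial (m j) 1 : MvPolynomial (Fin n) k) = X i * monomial (m j') 1 := by
            rw [X, monomial_mul, one_mul, ← hsum]
          have h1 : q (xv k n c (0, j) - xv k n c (i.succ, j')) = 0 := by
            apply hbil
            refine ⟨Submodule.sub_mem _ (hxv _ _) (hxv _ _), ?_⟩
            rw [map_sub, he, he, evE_zero, evE_succ, evE_v, evE_v, one_mul, hmon, map_mul,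
              sub_self]
          rw [map_sub, hq, hq, hX0, sub_eq_zero, one_mul] at h1
          rw [h1, hmon, map_mul, ih j' hdeg, hθX]
    have hθ' : ∀ j, θ (monomial (m j) 1) = q (X (Sum.inr j)) := fun j => hθ _ j rfl
    -- the relations
    have hθH : ∀ h ∈ H, θ h = 0 := by
      intro h hh
      haveI : Nonempty (Fin c) := ⟨l₀⟩
      choose! f hf using hsupp h hh
      let p : MvPolynomial (Fin (n + 1) ⊕ Fin c) k :=
        ∑ α ∈ h.support, C (coeff α h) * xv k n c (0, f α)
      have e1 : ∀ {T : Type} [CommRing T] (ψ : MvPolynomial (Fin n) k →+* T),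
          ψ h = ∑ α ∈ h.support, ψ (C (coeff α h)) * ψ (monomial α 1) := by
        intro T _ ψ
        conv_lhs => rw [h.as_sum, map_sum]
        refine Finset.sum_congr rfl (fun α _ => ?_)
        rw [← map_mul, C_mul_monomial, mul_one]
      have hp : p ∈ bilE π m := by
        refine ⟨Submodule.sum_mem _ (fun α _ => ?_), ?_⟩
        · rw [MvPolynomial.C_mul']
          exact Submodule.smul_mem _ _ (hxv _ _)
        · have h0 : π h = 0 := by
            have : h ∈ RingHom.ker π := by rw [hH]; exact Ideal.subset_span hh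
            exact this
          rw [e1 π] at h0
          rw [map_sum, ← h0]
          refine Finset.sum_congr rfl (fun α hα => ?_)
          rw [map_mul, he, evE_zero, evE_v, one_mul, evE_C, hf α hα]
      have h2 := hbil p hp
      rw [e1 θ, ← h2, map_sum]
      refine Finset.sum_congr rfl (fun α hα => ?_)
      rw [map_mul q, hq, hX0, one_mul, hθC, ← hθ', hf α hα]
    have hker : ∀ p, π p = 0 → θ p = 0 := by
      intro p hp
      have : p ∈ Ideal.span H := by rw [← hH]; exact hp
      have h2 : Ideal.span H ≤ RingHom.ker θ := Ideal.span_le.mpr (fun h hh => hθH h hh)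
      exact h2 this
    let σ : MvPolynomial (Fin (n + 1) ⊕ Fin c) k →+* MvPolynomial (Fin n) k :=
      eval₂Hom C (Sum.elim (Fin.cases 1 X) (fun j => monomial (m j) 1))
    have hσC : ∀ a, σ (C a) = C a := fun a => MvPolynomial.eval₂Hom_C _ _ a
    have hσ0 : σ (X (Sum.inl 0)) = 1 := MvPolynomial.eval₂Hom_X' _ _ _
    have hσs : ∀ i : Fin n, σ (X (Sum.inl i.succ)) = X i := fun i =>
      MvPolynomial.eval₂Hom_X' _ _ _
    have hσv : ∀ l, σ (X (Sum.inr l)) = monomial (m l) 1 := fun l =>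
      MvPolynomial.eval₂Hom_X' _ _ _
    have hσ : q = θ.comp σ := by
      apply MvPolynomial.ringHom_ext
      · intro a
        show q (C a) = θ (σ (C a))
        rw [hσC, hθC]
      · rintro (j | j)
        · show q (X (Sum.inl j)) = θ (σ (X (Sum.inl j)))
          refine Fin.cases ?_ (fun i => ?_) j
          · rw [hσ0, hX0, map_one]
          · rw [hσs, hθX]
        · show q (X (Sum.inr j)) = θ (σ (X (Sum.inr j)))
          rw [hσv, hθ']
    have hσ' : evE π m = π.comp σ := by
      apply MvPolynomial.ringHom_ext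
      · intro a
        show evE π m (C a) = π (σ (C a))
        rw [hσC, evE_C]
      · rintro (j | j)
        · show evE π m (X (Sum.inl j)) = π (σ (X (Sum.inl j)))
          refine Fin.cases ?_ (fun i => ?_) j
          · rw [hσ0, evE_zero, map_one]
          · rw [hσs, evE_succ]
        · show evE π m (X (Sum.inr j)) = π (σ (X (Sum.inr j)))
          rw [hσv, evE_v]
    intro p hp
    rw [← Ideal.Quotient.eq_zero_iff_mem]
    change q p = 0
    rw [hσ]
    apply hker
    rw [RingHom.mem_ker, hσ'] at hp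
    exact hp
  · rw [hI]
    refine sup_le (sup_le ?_ ?_) ?_
    · rw [Ideal.span_le]
      exact fun p hp => hp.2
    · rw [Ideal.span_le, Set.singleton_subset_iff]
      show evE π m (X (Sum.inl 0) - 1) = 0
      rw [map_sub, evE_zero, map_one, sub_self]
    · rw [Ideal.span_le, Set.singleton_subset_iff]
      show evE π m (X (Sum.inr l₀) - 1) = 0
      rw [map_sub, evE_v, hπ1, map_one, sub_self]

theorem evE_surj (hπ : Surjective π) : Surjective (evE π m) := by
  intro x
  obtain ⟨p, rfl⟩ := hπ x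
  let σ : MvPolynomial (Fin n) k →+* MvPolynomial (Fin (n + 1) ⊕ Fin c) k :=
    eval₂Hom C (fun i => X (Sum.inl i.succ))
  have hσC : ∀ a, σ (C a) = C a := fun a => MvPolynomial.eval₂Hom_C _ _ a
  have hσX : ∀ i, σ (X i) = X (Sum.inl i.succ) := fun i => MvPolynomial.eval₂Hom_X' _ _ _
  refine ⟨σ p, ?_⟩
  have : (evE π m).comp σ = π := by
    apply MvPolynomial.ringHom_ext
    · intro a
      show evE π m (σ (C a)) = π (C a)
      rw [hσC, evE_C]
    · intro i
      show evE π m (σ (X i)) = π (X i)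
      rw [hσX, evE_succ]
  exact RingHom.congr_fun this p

theorem homog_xv (w : Fin (n + 1) ⊕ Fin c → ℕ)
    (hw : ∀ j l, w (Sum.inl j) + w (Sum.inr l) = 1) (p : MvPolynomial (Fin (n + 1) ⊕ Fin c) k)
    (hp : p ∈ Submodule.span k (Set.range (xv k n c))) :
    homog w p = Polynomial.C p * Polynomial.X ^ 1 := by
  induction hp using Submodule.span_induction with
  | mem x h =>
      obtain ⟨⟨j, l⟩, rfl⟩ := h
      have h1 : (Polynomial.X : Polynomial (MvPolynomial (Fin (n + 1) ⊕ Fin c) k)) ^ 1 =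
          Polynomial.X ^ w (Sum.inl j) * Polynomial.X ^ w (Sum.inr l) := by
        rw [← pow_add, hw]
      rw [h1]
      simp only [xv, map_mul, homog_X]
      ring
  | zero => simp
  | add x y _ _ hx hy => rw [map_add, hx, hy, map_add, add_mul]
  | smul r x _ hx =>
      rw [← MvPolynomial.C_mul', map_mul, hx, homog_C, map_mul, mul_assoc]

end present

/-! ### Surjections from additive functions -/

theorem surj_trans {G H K : Type*} [AddCommGroup G] [AddCommGroup H] [AddCommGroup K]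
    (h1 : SurjectsOnto G H) (h2 : SurjectsOnto H K) : SurjectsOnto G K := by
  obtain ⟨f, hf⟩ := h1
  obtain ⟨g, hg⟩ := h2
  exact ⟨g.comp f, hg.comp hf⟩

theorem surj_equiv {R S : Type} [CommRing R] [CommRing S] (e : R ≃+* S) :
    SurjectsOnto (G0 R) (G0 S) := by
  refine ⟨resHom (e.symm : S →+* R) e.symm.surjective, surj_of_mk _ fun M => mem_resHom _ _ M ?_⟩
  intro s hs m
  have : s = 0 := by
    rw [RingHom.mem_ker] at hs
    exact (map_eq_zero_iff _ e.symm.injective).1 hs
  rw [this, zero_smul]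

theorem surj_of_isAdd {R : Type} [CommRing R] [IsNoetherianRing R] (K : Ideal R) {B : Type}
    [CommRing B] {χ : FGMod R → G0 B} (hχ : IsAdd (KilledBy K) χ)
    (h : ∀ N : FGMod B, ∃ M : FGMod R, KilledBy K M ∧ χ M = G0.mk N) :
    SurjectsOnto (G0 (R ⧸ K)) (G0 B) := by
  let π := Ideal.Quotient.mk K
  have hπ : Surjective π := Ideal.Quotient.mk_surjective
  have hk : ∀ M : FGMod (R ⧸ K), KilledBy K (restr π hπ M) := by
    intro M s hs x
    apply (restrEquiv π hπ M).injective
    rw [restrEquiv_smul, map_zero, Ideal.Quotient.eq_zero_iff_mem.mpr hs, zero_smul]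
  let f : G0 (R ⧸ K) →+ G0 B := Pool.Agent.Helper83.Bass.G0h.hom (fun M => χ (restr π hπ M))
    (fun M' M M'' e => by
      obtain ⟨e'⟩ := exactF_restr π hπ M' M M'' e
      exact hχ.add _ _ _ e'.f e'.g e'.inj e'.surj e'.exact (hk M))
  have hf : ∀ M, f (G0.mk M) = χ (restr π hπ M) := fun M =>
    Pool.Agent.Helper83.Bass.G0h.hom_mk _ _ M
  refine ⟨f, surj_of_mk f fun N => ?_⟩
  obtain ⟨M, hM, hMN⟩ := h N
  obtain ⟨e⟩ := Pool.Agent.Helper83.Bass.restr_desc_iso π hπ M (by
    rw [show RingHom.ker π = K from Ideal.mk_ker]; exact hM)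
  refine ⟨G0.mk (desc π hπ M), ?_⟩
  rw [hf, ← hMN]
  exact (hχ.iso e hM).symm

/-! ### The pipeline -/

section pipe

variable {k : Type} [CommRing k] [IsNoetherianRing k] {B : Type} [CommRing B] {τ σ : Type}
  [Finite τ] [Fintype σ]

theorem pipe_lin (ev : MvPolynomial τ k →+* B) (hev : Surjective ev)
    (g : σ → MvPolynomial τ k) (i₁ i₂ : τ) (w₁ w₂ : τ → ℕ) (h₁ : w₁ i₁ = 1) (h₂ : w₂ i₂ = 1)
    (h₂₁ : w₂ i₁ = 0)
    (hg₁ : ∀ j, homog w₁ (g j) = Polynomial.C (g j) * Polynomial.X ^ 1)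
    (hg₂ : ∀ j, homog w₂ (g j) = Polynomial.C (g j) * Polynomial.X ^ 1)
    (hker : RingHom.ker ev = Ideal.span (Set.range g) ⊔ Ideal.span {X i₁ - 1} ⊔
      Ideal.span {X i₂ - 1}) :
    ∃ χ : FGMod (MvPolynomial τ k) → G0 B, IsAdd (KilledBy (Ideal.span (Set.range g))) χ ∧
      ∀ N : FGMod B, ∃ M, KilledBy (Ideal.span (Set.range g)) M ∧ χ M = G0.mk N := by
  have a₁ : IsAdd (KilledBy ((⊥ : Ideal B).comap ev)) (fun M => G0.mk (desc ev hev M)) :=
    isAdd_desc ev hev G0.isAdd_mk
  have hk : (⊥ : Ideal B).comap ev = Ideal.span (Set.range g ∪ {X i₁ - 1}) ⊔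
      Ideal.span {X i₂ - 1} := by
    rw [Ideal.span_union, ← hker]
    rfl
  rw [hk] at a₁
  obtain ⟨χ₂, a₂, l₂⟩ := dehom_step w₂ i₂ h₂ (Set.range g ∪ {X i₁ - 1}) (by
    rintro p (⟨j, rfl⟩ | rfl)
    · exact ⟨1, hg₂ j⟩
    · refine ⟨0, ?_⟩
      rw [map_sub, map_one, homog_X, h₂₁, pow_zero, mul_one, mul_one, map_sub, map_one]) a₁
  rw [Ideal.span_union] at a₂ l₂
  obtain ⟨χ₃, a₃, l₃⟩ := dehom_step w₁ i₁ h₁ (Set.range g) (by
    rintro p ⟨j, rfl⟩
    exact ⟨1, hg₁ j⟩) a₂
  refine ⟨χ₃, a₃, fun N => ?_⟩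
  have hN₁ : KilledBy (Ideal.span (Set.range g ∪ {X i₁ - 1}) ⊔ Ideal.span {X i₂ - 1})
      (restr ev hev N) := by
    rw [← hk]
    exact killedBy_restr ev hev (G0.killedBy_bot N)
  rw [Ideal.span_union] at hN₁
  obtain ⟨M₂, k₂, e₂⟩ := l₂ (restr ev hev N) hN₁
  obtain ⟨M₃, k₃, e₃⟩ := l₃ M₂ k₂
  refine ⟨M₃, k₃, ?_⟩
  rw [e₃, e₂]
  exact desc_restr ev hev G0.isAdd_mk N (G0.killedBy_bot N)

theorem pipe_hyp (g : σ → MvPolynomial τ k)
    {χ : FGMod (MvPolynomial τ k) → G0 B} (hχ : IsAdd (KilledBy (Ideal.span (Set.range g))) χ)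
    (h : ∀ N : FGMod B, ∃ M, KilledBy (Ideal.span (Set.range g)) M ∧ χ M = G0.mk N) :
    ∃ χ' : FGMod (MvPolynomial σ (MvPolynomial τ k)) → G0 B,
      IsAdd (KilledBy (Ideal.span {bigF g})) χ' ∧
      ∀ N : FGMod B, ∃ M, KilledBy (Ideal.span {bigF g}) M ∧ χ' M = G0.mk N := by
  obtain ⟨χ₄, a₄, l₄⟩ := kos_step g hχ
  refine ⟨χ₄, a₄, fun N => ?_⟩
  obtain ⟨M₃, k₃, e₃⟩ := h N
  obtain ⟨M₄, k₄, e₄⟩ := l₄ M₃ k₃
  exact ⟨M₄, k₄, e₄.trans e₃⟩

theorem pipe_K1 (g : σ → MvPolynomial τ k) [IsDomain k] (hF : bigF g ≠ 0)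
    {χ : FGMod (MvPolynomial σ (MvPolynomial τ k)) → G0 B}
    (hχ : IsAdd (KilledBy (Ideal.span {bigF g})) χ)
    (h : ∀ N : FGMod B, ∃ M, KilledBy (Ideal.span {bigF g}) M ∧ χ M = G0.mk N)
    (hS : AllFFR (MvPolynomial σ (MvPolynomial τ k)))
    (L : Type) [CommRing L] [Algebra (MvPolynomial σ (MvPolynomial τ k)) L]
    [IsLocalization.Away (bigF g) L] : SurjectsOnto (K1 L) (G0 B) := by
  have a₅ := isAdd_dev hχ
  refine ⟨bdryHom L (bigF g) hF (dev (bigF g) χ) a₅, surj_of_mk _ fun N => ?_⟩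
  obtain ⟨M₄, k₄, e₄⟩ := h N
  have key : dev (bigF g) χ M₄ = G0.mk N := by
    rw [dev_of_killedBy hχ M₄ k₄, e₄]
  rw [← key]
  refine mem_range_of_allFFR (bigF g) hF a₅ hS M₄ ⟨1, fun m => ?_⟩
  rw [pow_one]
  exact k₄ _ (Ideal.mem_span_singleton_self _) m

end pipe

/-! ### Finite free resolutions over polynomial rings -/

theorem allFFR_fin (k : Type) [CommRing k] [IsDomain k] [IsPrincipalIdealRing k] (n : ℕ) :
    AllFFR (MvPolynomial (Fin n) k) := by
  induction n with
  | zero =>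
      exact AllFFR.of_equiv (MvPolynomial.isEmptyRingEquiv k (Fin 0)).symm (AllFFR.pid k)
  | succ n ih =>
      exact AllFFR.of_equiv (MvPolynomial.finSuccEquiv k n).toRingEquiv.symm
        (AllFFR.polynomial ih)

theorem allFFR_mv (k : Type) [CommRing k] [IsDomain k] [IsPrincipalIdealRing k] (σ : Type)
    [Finite σ] : AllFFR (MvPolynomial σ k) := by
  obtain ⟨n, ⟨e⟩⟩ := Finite.exists_equiv_fin σ
  exact AllFFR.of_equiv (MvPolynomial.renameEquiv k e).toRingEquiv.symm (allFFR_fin k n)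

/-! ### Coordinates -/

section coord

variable {k : Type} [CommRing k] {a b c : ℕ}

/-- permutation of the variables -/
def permE (a b c : ℕ) : (Fin a ⊕ Fin b ⊕ Fin c) ≃ (Fin b ⊕ (Fin a ⊕ Fin c)) where
  toFun x := match x with
    | Sum.inl i => Sum.inr (Sum.inl i)
    | Sum.inr (Sum.inl j) => Sum.inl j
    | Sum.inr (Sum.inr l) => Sum.inr (Sum.inr l)
  invFun x := match x with
    | Sum.inl j => Sum.inr (Sum.inl j)
    | Sum.inr (Sum.inl i) => Sum.inl i
    | Sum.inr (Sum.inr l) => Sum.inr (Sum.inr l)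
  left_inv := by rintro (i | j | l) <;> rfl
  right_inv := by rintro (j | i | l) <;> rfl

/-- flat coordinates and coordinates over the linear system -/
noncomputable def kosEquiv (k : Type) [CommRing k] (a b c : ℕ) :
    MvPolynomial (Fin a ⊕ Fin b ⊕ Fin c) k ≃+*
      MvPolynomial (Fin b) (MvPolynomial (Fin a ⊕ Fin c) k) :=
  (renameEquiv k (permE a b c)).toRingEquiv.trans (sumRingEquiv k (Fin b) (Fin a ⊕ Fin c))

theorem kosEquiv_apply (p : MvPolynomial (Fin a ⊕ Fin b ⊕ Fin c) k) :
    kosEquiv k a b c p = sumRingEquiv k (Fin b) (Fin a ⊕ Fin c) (rename (permE a b c) p) := rfl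

theorem kosEquiv_triF (t : Fin a → Fin b → Fin c → k) :
    kosEquiv k a b c (triF t) = bigF (cgj t) := by
  have e1 : ∀ (i : Fin a) (j : Fin b) (l : Fin c), kosEquiv k a b c
      (C (t i j l) * X (Sum.inl i) * X (Sum.inr (Sum.inl j)) * X (Sum.inr (Sum.inr l))) =
      X j * C (C (t i j l) * X (Sum.inl i) * X (Sum.inr l)) := by
    intro i j l
    rw [map_mul, map_mul, map_mul, kosEquiv_apply, kosEquiv_apply, kosEquiv_apply,
      kosEquiv_apply, rename_C, rename_X, rename_X, rename_X, sumRingEquiv_C]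
    have h1 : sumRingEquiv k (Fin b) (Fin a ⊕ Fin c) (X (permE a b c (Sum.inl i))) =
        C (X (Sum.inl i)) := sumRingEquiv_X_inr k (Fin b) (Fin a ⊕ Fin c) (Sum.inl i)
    have h2 : sumRingEquiv k (Fin b) (Fin a ⊕ Fin c) (X (permE a b c (Sum.inr (Sum.inl j)))) =
        X j := sumRingEquiv_X_inl k (Fin b) (Fin a ⊕ Fin c) j
    have h3 : sumRingEquiv k (Fin b) (Fin a ⊕ Fin c) (X (permE a b c (Sum.inr (Sum.inr l)))) =
        C (X (Sum.inr l)) := sumRingEquiv_X_inr k (Fin b) (Fin a ⊕ Fin c) (Sum.inr l)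
    rw [h1, h2, h3, map_mul, map_mul]
    ring
  unfold triF bigF cgj
  simp only [map_sum, e1, Finset.mul_sum]
  rw [Finset.sum_comm]

end coord

theorem thm_Enc : St_Enc := by
  intro k _ _ _ n I
  classical
  let π : MvPolynomial (Fin n) k →+* MvPolynomial (Fin n) k ⧸ I := Ideal.Quotient.mk I
  have hπ : Surjective π := Ideal.Quotient.mk_surjective
  obtain ⟨H, hH⟩ := IsNoetherian.noetherian (RingHom.ker π)
  let D : ℕ := ∑ h ∈ H, h.totalDegree
  let A : Finset (Fin n →₀ ℕ) := (Finsupp.finite_of_degree_le (σ := Fin n) D).toFinset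
  have hA : ∀ α : Fin n →₀ ℕ, α ∈ A ↔ α.degree ≤ D := by
    intro α
    simp [A]
  let c : ℕ := Fintype.card (Option A)
  let e : Fin c ≃ Option A := (Fintype.equivFin (Option A)).symm
  let m : Fin c → (Fin n →₀ ℕ) := fun j => (e j).elim 0 (fun x => x.val)
  have hm : ∀ j, (m j).degree ≤ D := by
    intro j
    show Finsupp.degree ((e j).elim 0 (fun x => x.val)) ≤ D
    rcases e j with _ | x
    · show Finsupp.degree (0 : Fin n →₀ ℕ) ≤ D
      rw [map_zero]; exact Nat.zero_le _
    · exact (hA _).mp x.2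
  have hm' : ∀ α : Fin n →₀ ℕ, α.degree ≤ D → ∃ j, m j = α := by
    intro α hα
    refine ⟨e.symm (some ⟨α, (hA _).mpr hα⟩), ?_⟩
    show (e (e.symm (some ⟨α, (hA _).mpr hα⟩))).elim 0 (fun x => x.val) = α
    rw [Equiv.apply_symm_apply]
    rfl
  let l₀ : Fin c := e.symm none
  have hl₀ : m l₀ = 0 := by
    show (e (e.symm none)).elim 0 (fun x => x.val) = 0
    rw [Equiv.apply_symm_apply]
    rfl
  have hA0 : (0 : Fin n →₀ ℕ) ∈ A := (hA _).mpr (by rw [map_zero]; exact Nat.zero_le _)
  let l₁ : Fin c := e.symm (some ⟨0, hA0⟩)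
  have hl₁ : m l₁ = 0 := by
    show (e (e.symm (some ⟨0, hA0⟩))).elim 0 (fun x => x.val) = 0
    rw [Equiv.apply_symm_apply]
    rfl
  have hl01 : l₁ ≠ l₀ := by
    intro h
    have := e.symm.injective h
    exact Option.some_ne_none _ this
  have hdown : ∀ j i, m j i ≠ 0 → ∃ j', m j' = m j - Finsupp.single i 1 := by
    intro j i _
    refine hm' _ (le_trans ?_ (hm j))
    exact Finsupp.degree_mono tsub_le_self
  have hsupp : ∀ h ∈ (H : Set (MvPolynomial (Fin n) k)), ∀ α ∈ h.support, ∃ j, m j = α := by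
    intro h hh α hα
    refine hm' _ ?_
    have h1 : α.degree ≤ h.totalDegree := le_totalDegree hα
    have h2 : h.totalDegree ≤ ∑ h ∈ H, h.totalDegree :=
      Finset.single_le_sum (f := fun h => h.totalDegree) (fun _ _ => Nat.zero_le _)
        (Finset.mem_coe.mp hh)
    exact h1.trans h2
  have hker := ker_evE π m (H : Set (MvPolynomial (Fin n) k)) hH.symm l₀ hl₀ hdown hsupp
  have hev := evE_surj π m hπ
  -- finitely many bilinear forms
  obtain ⟨s, hs, hs'⟩ := (Submodule.fg_span_iff_fg_span_finset_subset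
    (R := MvPolynomial (Fin (n + 1) ⊕ Fin c) k) (bilE π m)).mp
    (IsNoetherian.noetherian (Ideal.span (bilE π m)))
  let g : Fin s.card → MvPolynomial (Fin (n + 1) ⊕ Fin c) k := fun i => (s.equivFin.symm i).val
  have hg : Set.range g = (s : Set (MvPolynomial (Fin (n + 1) ⊕ Fin c) k)) := by
    ext p
    constructor
    · rintro ⟨i, rfl⟩
      exact (s.equivFin.symm i).2
    · intro hp
      exact ⟨s.equivFin ⟨p, hp⟩, by simp [g]⟩
  have hgs : ∀ i, g i ∈ bilE π m := fun i => hs (s.equivFin.symm i).2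
  have hspan : Ideal.span (bilE π m) = Ideal.span (Set.range g) := by
    rw [hg]; exact hs'
  rw [hspan] at hker
  have hc : ∀ i, ∃ cc : Fin (n + 1) × Fin c → k, ∑ p, cc p • xv k n c p = g i := fun i =>
    (Submodule.mem_span_range_iff_exists_fun k).mp (hgs i).1
  choose cc hcc using hc
  let t : Fin (n + 1) → Fin s.card → Fin c → k := fun i j l => cc j (i, l)
  have htg : cgj t = g := by
    funext j
    rw [← hcc j, Fintype.sum_prod_type]
    unfold cgj
    refine Finset.sum_congr rfl fun i _ => ?_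
    refine Finset.sum_congr rfl fun l _ => ?_
    show C (cc j (i, l)) * X (Sum.inl i) * X (Sum.inr l) =
      cc j (i, l) • (X (Sum.inl i) * X (Sum.inr l))
    rw [← MvPolynomial.C_mul', mul_assoc]
  -- some form is nonzero
  have hne : ∃ i, g i ≠ 0 := by
    by_contra hcon
    push Not at hcon
    have hbot : Ideal.span (bilE π m) = ⊥ := by
      rw [hspan, Ideal.span_eq_bot]
      rintro _ ⟨i, rfl⟩
      exact hcon i
    have hmem : xv k n c (0, l₁) - xv k n c (0, l₀) ∈ bilE π m := by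
      refine ⟨Submodule.sub_mem _ (Submodule.subset_span ⟨_, rfl⟩)
        (Submodule.subset_span ⟨_, rfl⟩), ?_⟩
      unfold xv
      rw [map_sub, map_mul, map_mul, evE_v, evE_v, hl₀, hl₁, sub_self]
    have h0 := Ideal.span_eq_bot.mp hbot _ hmem
    have := congrArg (eval₂Hom (RingHom.id k)
      (Sum.elim (fun _ => 1) (Pi.single l₀ 1) : Fin (n + 1) ⊕ Fin c → k)) h0
    simp [xv, hl01] at this
  obtain ⟨i, hi⟩ := hne
  have hF : bigF g ≠ 0 := bigF_ne_zero g i hi
  have htF : triF t ≠ 0 := by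
    intro h0
    have h1 := kosEquiv_triF t
    rw [h0, map_zero, htg] at h1
    exact hF h1.symm
  -- the additive functions
  obtain ⟨χ₃, a₃, l₃⟩ := pipe_lin (evE π m) hev g (Sum.inl 0) (Sum.inr l₀)
    (Sum.elim (fun _ => 1) (fun _ => 0)) (Sum.elim (fun _ => 0) (fun _ => 1)) rfl rfl rfl
    (fun i => homog_xv _ (fun _ _ => rfl) _ (hgs i).1)
    (fun i => homog_xv _ (fun _ _ => rfl) _ (hgs i).1) hker
  obtain ⟨χ₄, a₄, l₄⟩ := pipe_hyp g a₃ l₃
  refine ⟨s.card, c, t, htF, ?_, ?_, ?_⟩
  · -- `K₁`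
    let E := kosEquiv k (n + 1) s.card c
    have hE : E (triF t) = bigF g := by rw [← htg]; exact kosEquiv_triF t
    letI : Algebra (MvPolynomial (Fin s.card) (MvPolynomial (Fin (n + 1) ⊕ Fin c) k))
      (Localization.Away (triF t)) :=
      ((algebraMap _ (Localization.Away (triF t))).comp E.symm.toRingHom).toAlgebra
    haveI : IsLocalization.Away (bigF g) (Localization.Away (triF t)) := by
      have h1 := IsLocalization.isLocalization_of_base_ringEquiv (Submonoid.powers (triF t))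
        (Localization.Away (triF t)) E
      have h2 : (Submonoid.powers (triF t)).map (E : _ →* _) = Submonoid.powers (bigF g) := by
        rw [← hE]
        exact Submonoid.map_powers _ _
      rw [IsLocalization.Away, ← h2]
      exact h1
    have hS : AllFFR (MvPolynomial (Fin s.card) (MvPolynomial (Fin (n + 1) ⊕ Fin c) k)) :=
      AllFFR.of_equiv (sumAlgEquiv k (Fin s.card) (Fin (n + 1) ⊕ Fin c)).toRingEquiv
        (allFFR_mv k _)
    exact pipe_K1 g hF a₄ l₄ hS (Localization.Away (triF t))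
  · -- the trilinear hypersurface
    refine surj_trans (surj_equiv ?_) (surj_of_isAdd (Ideal.span {bigF g}) a₄ l₄)
    refine Ideal.quotientEquiv (Ideal.span {triF t}) (Ideal.span {bigF g})
      (kosEquiv k (n + 1) s.card c) ?_
    rw [Ideal.map_span, Set.image_singleton]
    show _ = Ideal.span {kosEquiv k (n + 1) s.card c (triF t)}
    rw [kosEquiv_triF, htg]
  · -- the cubic
    obtain ⟨ei, -⟩ := exists_iso (Ideal.Quotient.mk (Ideal.span (Set.range (cgj t))))
      Ideal.Quotient.mk_surjective (cgj t) (by rw [Ideal.mk_ker])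
    have h1 : SurjectsOnto (G0 (MvPolynomial (Option (Fin (n + 1) ⊕ Fin s.card ⊕ Fin c)) k ⧸
        Ideal.span {cubF t})) (G0 (WR (cgj t))) :=
      surj_equiv (S := WW (cgj t)) (cubEquiv t).toRingEquiv.symm
    have h2 : SurjectsOnto (G0 (WR (cgj t)))
        (G0 (MvPolynomial (Fin (n + 1) ⊕ Fin c) k ⧸ Ideal.span (Set.range (cgj t)))) := by
      refine ⟨(AddMonoidHom.snd _ _).comp ei.toAddMonoidHom, ?_⟩
      exact Prod.snd_surjective.comp ei.surjective
    have h3 : SurjectsOnto (G0 (MvPolynomial (Fin (n + 1) ⊕ Fin c) k ⧸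
        Ideal.span (Set.range (cgj t)))) (G0 (MvPolynomial (Fin n) k ⧸ I)) := by
      rw [htg]
      exact surj_of_isAdd (Ideal.span (Set.range g)) a₃ l₃
    exact surj_trans (surj_trans h1 h2) h3

end BassH
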