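import Pool.Agent.BassH.Stmts

/-!
# BassH: Higman linearisation
-/

set_option autoImplicit false

namespace BassH

open Pool.Agent.Helper11 Matrix Function

theorem higman_kc_one (h1 : St_KcMul) (A : Type) [CommRing A] (ι : Type) [Fintype ι]
    [DecidableEq ι] : kc (1 : Matrix ι ι A) = 0 := by
  have h := h1 A ι 1 1 isUnit_one isUnit_one
  rw [Matrix.mul_one] at h
  exact left_eq_add.1 h

theorem higman_upper (h1 : St_KcMul) (h3 : St_KcBlock) (A : Type) [CommRing A] (ι κ : Type)
    [Fintype ι] [DecidableEq ι] [Fintype κ] [DecidableEq κ] (X : Matrix ι κ A) :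
    kc (fromBlocks 1 X 0 1 : Matrix (ι ⊕ κ) (ι ⊕ κ) A) = 0 := by
  rw [(h3 A ι κ 1 1 X 0 isUnit_one isUnit_one).1, higman_kc_one h1, higman_kc_one h1, add_zero]

theorem higman_lower (h1 : St_KcMul) (h3 : St_KcBlock) (A : Type) [CommRing A] (ι κ : Type)
    [Fintype ι] [DecidableEq ι] [Fintype κ] [DecidableEq κ] (Y : Matrix κ ι A) :
    kc (fromBlocks 1 0 Y 1 : Matrix (ι ⊕ κ) (ι ⊕ κ) A) = 0 := by
  rw [(h3 A ι κ 1 1 0 Y isUnit_one isUnit_one).2, higman_kc_one h1, higman_kc_one h1, add_zero]

theorem higman_unit_upper (A : Type) [CommRing A] (ι κ : Type)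
    [Fintype ι] [DecidableEq ι] [Fintype κ] [DecidableEq κ] (X : Matrix ι κ A) :
    IsUnit (fromBlocks 1 X 0 1 : Matrix (ι ⊕ κ) (ι ⊕ κ) A) := by
  rw [Matrix.isUnit_iff_isUnit_det, det_fromBlocks_zero₂₁]
  simp

theorem higman_unit_lower (A : Type) [CommRing A] (ι κ : Type)
    [Fintype ι] [DecidableEq ι] [Fintype κ] [DecidableEq κ] (Y : Matrix κ ι A) :
    IsUnit (fromBlocks 1 0 Y 1 : Matrix (ι ⊕ κ) (ι ⊕ κ) A) := by
  rw [Matrix.isUnit_iff_isUnit_det, det_fromBlocks_zero₁₂]
  simp

/-- The companion step. -/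
theorem higman_step (h1 : St_KcMul) (h3 : St_KcBlock) (A : Type) [CommRing A] (ι : Type)
    [Fintype ι] [DecidableEq ι] (a' X : Matrix ι ι A) (t : A) (hM : IsUnit (a' + t • X)) :
    IsUnit (fromBlocks a' X (-(t • (1 : Matrix ι ι A))) 1 : Matrix (ι ⊕ ι) (ι ⊕ ι) A) ∧
    kc (fromBlocks a' X (-(t • (1 : Matrix ι ι A))) 1 : Matrix (ι ⊕ ι) (ι ⊕ ι) A) =
      kc (a' + t • X) := by
  set B : Matrix (ι ⊕ ι) (ι ⊕ ι) A := fromBlocks a' X (-(t • (1 : Matrix ι ι A))) 1 with hB
  set U : Matrix (ι ⊕ ι) (ι ⊕ ι) A := fromBlocks 1 (-X) 0 1 with hU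
  set V : Matrix (ι ⊕ ι) (ι ⊕ ι) A := fromBlocks 1 0 (t • (1 : Matrix ι ι A)) 1 with hV
  have hprod : U * B * V = fromBlocks (a' + t • X) 0 0 1 := by
    rw [hU, hB, hV, fromBlocks_multiply, fromBlocks_multiply]
    congr 1
    · simp
    · simp
    · simp
    · simp
  have hUu : IsUnit U := higman_unit_upper A ι ι (-X)
  have hVu : IsUnit V := higman_unit_lower A ι ι (t • (1 : Matrix ι ι A))
  have hdiag : IsUnit (fromBlocks (a' + t • X) 0 0 1 : Matrix (ι ⊕ ι) (ι ⊕ ι) A) := by
    rw [Matrix.isUnit_iff_isUnit_det, det_fromBlocks_zero₂₁, det_one, mul_one,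
      ← Matrix.isUnit_iff_isUnit_det]
    exact hM
  have hBu : IsUnit B := by
    have h : IsUnit (U * B * V) := by rw [hprod]; exact hdiag
    rw [Matrix.isUnit_iff_isUnit_det, det_mul, det_mul] at h
    rw [Matrix.isUnit_iff_isUnit_det]
    exact isUnit_of_mul_isUnit_right (isUnit_of_mul_isUnit_left h)
  refine ⟨hBu, ?_⟩
  have e1 : kc (U * B * V) = kc B := by
    rw [h1 A _ (U * B) V (hUu.mul hBu) hVu, h1 A _ U B hUu hBu, higman_upper h1 h3,
      higman_lower h1 h3, zero_add, add_zero]
  rw [← e1, hprod, (h3 A ι ι (a' + t • X) 1 0 0 hM isUnit_one).1, higman_kc_one h1, add_zero]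

theorem higman_deg (h1 : St_KcMul) (h3 : St_KcBlock) (R : Type) [CommRing R] :
    ∀ (D : ℕ) (ι : Type) [Fintype ι] [DecidableEq ι] (M : Matrix ι ι (Polynomial R)),
      IsUnit M → (∀ i j, (M i j).natDegree ≤ D + 1) →
      ∃ (κ : Type) (_ : Fintype κ) (_ : DecidableEq κ) (M' : Matrix κ κ (Polynomial R)),
        IsUnit M' ∧ kc M' = kc M ∧ ∀ i j, (M' i j).natDegree ≤ 1 := by
  intro D
  induction D with
  | zero =>
    intro ι _ _ M hM hd
    exact ⟨ι, inferInstance, inferInstance, M, hM, rfl, fun i j => by simpa using hd i j⟩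
  | succ D ih =>
    intro ι _ _ M hM hd
    set a' : Matrix ι ι (Polynomial R) :=
      Matrix.of fun i j => (M i j).erase (D + 2) with ha'
    set X : Matrix ι ι (Polynomial R) :=
      Matrix.of fun i j => Polynomial.monomial (D + 1) ((M i j).coeff (D + 2)) with hX
    have hsum : a' + (Polynomial.X : Polynomial R) • X = M := by
      ext1 i j
      rw [Matrix.add_apply, Matrix.smul_apply, ha', hX, Matrix.of_apply, Matrix.of_apply,
        smul_eq_mul, Polynomial.X_mul_monomial, add_comm]
      exact Polynomial.monomial_add_erase (M i j) (D + 2)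
    have hM' : IsUnit (a' + (Polynomial.X : Polynomial R) • X) := by rw [hsum]; exact hM
    obtain ⟨hBu, hBk⟩ := higman_step h1 h3 (Polynomial R) ι a' X Polynomial.X hM'
    obtain ⟨κ, i1, i2, M', hu, hk, hdeg⟩ := ih (ι ⊕ ι)
      (fromBlocks a' X (-((Polynomial.X : Polynomial R) • (1 : Matrix ι ι (Polynomial R)))) 1) hBu
      (by
        rintro (i | i) (j | j)
        · rw [fromBlocks_apply₁₁, ha', Matrix.of_apply]
          rw [Polynomial.natDegree_le_iff_coeff_eq_zero]
          intro N hN
          rw [Polynomial.coeff_erase]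
          split_ifs with h
          · rfl
          · exact Polynomial.coeff_eq_zero_of_natDegree_lt
              (lt_of_le_of_lt (hd i j) (by omega))
        · rw [fromBlocks_apply₁₂, hX, Matrix.of_apply]
          exact Polynomial.natDegree_monomial_le _
        · rw [fromBlocks_apply₂₁, Matrix.neg_apply, Polynomial.natDegree_neg, Matrix.smul_apply,
            smul_eq_mul, Matrix.one_apply]
          split_ifs with h
          · rw [mul_one]
            exact le_trans Polynomial.natDegree_X_le (by omega)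
          · rw [mul_zero, Polynomial.natDegree_zero]
            omega
        · rw [fromBlocks_apply₂₂, Matrix.one_apply]
          split_ifs with h
          · rw [Polynomial.natDegree_one]; omega
          · rw [Polynomial.natDegree_zero]; omega)
    exact ⟨κ, i1, i2, M', hu, by rw [hk, hBk, hsum], hdeg⟩

/-- If `1 + X N` is invertible, then `N` is nilpotent. -/
theorem higman_nilp (R : Type) [CommRing R] (κ : Type) [Fintype κ] [DecidableEq κ]
    (N : Matrix κ κ R)
    (h : IsUnit (1 + (Polynomial.X : Polynomial R) • N.map Polynomial.C)) : IsNilpotent N := by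
  obtain ⟨P, hP⟩ := h.exists_right_inv
  set c : ℕ → Matrix κ κ R := fun i => P.map (fun p => p.coeff i) with hc
  have h0 : c 0 = 1 := by
    have e : ((1 + (Polynomial.X : Polynomial R) • N.map Polynomial.C) * P).map
        (fun p => p.coeff 0) = (1 : Matrix κ κ (Polynomial R)).map (fun p => p.coeff 0) := by
      rw [hP]
    rw [Matrix.add_mul, Matrix.one_mul, Matrix.smul_mul] at e
    ext i j
    have e2 := congrFun (congrFun e i) j
    simp only [Matrix.map_apply, Matrix.add_apply, Matrix.smul_apply, smul_eq_mul,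
      Polynomial.coeff_add, Polynomial.coeff_X_mul_zero, add_zero] at e2
    rw [hc]
    simp only [Matrix.map_apply]
    rw [e2, Matrix.one_apply, Matrix.one_apply]
    split_ifs <;> simp
  have hs : ∀ i, c (i + 1) = -(N * c i) := by
    intro m
    have e : ((1 + (Polynomial.X : Polynomial R) • N.map Polynomial.C) * P).map
        (fun p => p.coeff (m + 1)) =
        (1 : Matrix κ κ (Polynomial R)).map (fun p => p.coeff (m + 1)) := by
      rw [hP]
    rw [Matrix.add_mul, Matrix.one_mul, Matrix.smul_mul] at e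
    ext i j
    have e2 := congrFun (congrFun e i) j
    simp only [Matrix.map_apply, Matrix.add_apply, Matrix.smul_apply, smul_eq_mul,
      Polynomial.coeff_add, Polynomial.coeff_X_mul] at e2
    have e3 : ((1 : Matrix κ κ (Polynomial R)) i j).coeff (m + 1) = 0 := by
      rw [Matrix.one_apply]
      split_ifs
      · rw [Polynomial.coeff_one]; simp
      · simp
    rw [e3, Matrix.mul_apply, Polynomial.finsetSum_coeff] at e2
    simp only [Matrix.map_apply, Polynomial.coeff_C_mul] at e2
    rw [hc]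
    simp only [Matrix.map_apply, Matrix.neg_apply, Matrix.mul_apply]
    exact eq_neg_of_add_eq_zero_left e2
  have hpow : ∀ i, c i = (-N) ^ i := by
    intro i
    induction i with
    | zero => rw [h0, pow_zero]
    | succ m ih => rw [hs, ih, pow_succ', Matrix.neg_mul]
  obtain ⟨K, hK⟩ : ∃ K : ℕ, ∀ i j, (P i j).natDegree < K := by
    refine ⟨(Finset.univ.sup fun i => Finset.univ.sup fun j => (P i j).natDegree) + 1, ?_⟩
    intro i j
    refine Nat.lt_succ_of_le ?_
    refine le_trans ?_ (Finset.le_sup (f := fun i => Finset.univ.sup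
      fun j => (P i j).natDegree) (Finset.mem_univ i))
    exact Finset.le_sup (f := fun j => (P i j).natDegree) (Finset.mem_univ j)
  have hz : (-N) ^ K = 0 := by
    rw [← hpow]
    ext i j
    rw [hc]
    simp only [Matrix.map_apply, Matrix.zero_apply]
    exact Polynomial.coeff_eq_zero_of_natDegree_lt (hK i j)
  exact isNilpotent_neg_iff.1 ⟨K, hz⟩

theorem thm_Higman (h1 : St_KcMul) (h2 : St_KcIdx) (h3 : St_KcBlock) (h4 : St_KcGen) :
    St_Higman := by
  intro R _ x
  obtain ⟨n, M, hM, hx⟩ := (h4 (Polynomial R)).1 x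
  obtain ⟨D, hD⟩ : ∃ D : ℕ, ∀ i j, (M i j).natDegree ≤ D + 1 := by
    refine ⟨(Finset.univ.sup fun i => Finset.univ.sup fun j => (M i j).natDegree), ?_⟩
    intro i j
    refine Nat.le_succ_of_le ?_
    refine le_trans ?_ (Finset.le_sup (f := fun i => Finset.univ.sup
      fun j => (M i j).natDegree) (Finset.mem_univ i))
    exact Finset.le_sup (f := fun j => (M i j).natDegree) (Finset.mem_univ j)
  obtain ⟨κ, i1, i2, M', hu, hk, hdeg⟩ := higman_deg h1 h3 R D (Fin n) M hM hD
  set a0 : Matrix κ κ R := M'.map (Polynomial.constantCoeff) with ha0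
  set a1 : Matrix κ κ R := M'.map (fun p => p.coeff 1) with ha1
  have hM' : M' = a0.map Polynomial.C + (Polynomial.X : Polynomial R) • a1.map Polynomial.C := by
    ext1 i j
    rw [Matrix.add_apply, Matrix.smul_apply, Matrix.map_apply, Matrix.map_apply, ha0, ha1,
      Matrix.map_apply, Matrix.map_apply, smul_eq_mul, Polynomial.constantCoeff_apply]
    have h := Polynomial.eq_X_add_C_of_natDegree_le_one (hdeg i j)
    rw [add_comm, Polynomial.X_mul_C]
    exact h
  have hu0 : IsUnit a0 := by
    have h := hu.map (RingHom.mapMatrix (m := κ) (Polynomial.constantCoeff (R := R)))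
    exact h
  obtain ⟨b, hb1⟩ := hu0.exists_right_inv
  have hb2 : b * a0 = 1 := mul_eq_one_comm.1 hb1
  set N : Matrix κ κ R := b * a1 with hN
  have hCmul : ∀ p q : Matrix κ κ R, (p * q).map (Polynomial.C : R →+* Polynomial R) =
      p.map Polynomial.C * q.map Polynomial.C := fun p q => Matrix.map_mul
  have hfac : M' = a0.map Polynomial.C *
      (1 + (Polynomial.X : Polynomial R) • N.map Polynomial.C) := by
    rw [Matrix.mul_add, Matrix.mul_one, Matrix.mul_smul, ← hCmul, hN, ← Matrix.mul_assoc, hb1,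
      Matrix.one_mul]
    exact hM'
  have huC : IsUnit (a0.map (Polynomial.C : R →+* Polynomial R)) :=
    hu0.map (RingHom.mapMatrix (m := κ) (Polynomial.C (R := R)))
  have huN : IsUnit (1 + (Polynomial.X : Polynomial R) • N.map Polynomial.C) := by
    rw [hfac, Matrix.isUnit_iff_isUnit_det, det_mul] at hu
    rw [Matrix.isUnit_iff_isUnit_det]
    exact isUnit_of_mul_isUnit_right hu
  have hnil : IsNilpotent N := higman_nilp R κ N huN
  set e : Fin (Fintype.card κ) ≃ κ := (Fintype.equivFin κ).symm with he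
  refine ⟨kc a0, Fintype.card κ, N.submatrix e e, ?_, ?_⟩
  · obtain ⟨K, hK⟩ := hnil
    refine ⟨K, ?_⟩
    have h : ∀ j : ℕ, (N.submatrix e e) ^ j = (N ^ j).submatrix e e := by
      intro j
      induction j with
      | zero => rw [pow_zero, pow_zero, Matrix.submatrix_one_equiv]
      | succ m ih => rw [pow_succ, pow_succ, ih, Matrix.submatrix_mul_equiv]
    rw [h, hK]
    rfl
  · rw [hx, ← hk, hfac, h1 _ _ _ _ huC huN, (h4 R).2.2 (Polynomial R) Polynomial.C κ a0 hu0]
    congr 1
    have h := h2 (Polynomial R) κ (Fin (Fintype.card κ)) e _ huN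
    rw [← h]
    congr 1
    ext1 i j
    simp only [Matrix.submatrix_apply, Matrix.add_apply, Matrix.smul_apply, Matrix.map_apply,
      Matrix.one_apply, e.injective.eq_iff]

end BassH
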