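import Pool.Agent.BassH.Stmts

/-!
# BassH: `K₁` of a euclidean domain
-/

set_option autoImplicit false

namespace BassH

open Pool.Agent.Helper11 Matrix Function

/-- the elementary matrix adding `Y a` times the row `i` to the row `a` for all `a ≠ i` -/
def keuc_E {A : Type} [CommRing A] {ι : Type} [DecidableEq ι] (i : ι) (Y : ι → A) :
    Matrix ι ι A :=
  1 + Matrix.of fun a b => if b = i then (if a = i then 0 else Y a) else 0

theorem keuc_E_mul {A : Type} [CommRing A] {ι : Type} [Fintype ι] [DecidableEq ι] (i : ι)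
    (Y : ι → A) {κ : Type} (M : Matrix ι κ A) (a : ι) (b : κ) :
    (keuc_E i Y * M) a b = M a b + (if a = i then 0 else Y a) * M i b := by
  unfold keuc_E
  rw [Matrix.add_mul, Matrix.one_mul, Matrix.add_apply, Matrix.mul_apply]
  congr 1
  simp only [Matrix.of_apply, ite_mul, zero_mul]
  rw [Finset.sum_ite_eq' Finset.univ i]
  simp

theorem keuc_E_inv {A : Type} [CommRing A] {ι : Type} [Fintype ι] [DecidableEq ι] (i : ι)
    (Y : ι → A) : keuc_E i Y * keuc_E i (fun a => - Y a) = 1 := by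
  ext a b
  rw [keuc_E_mul]
  unfold keuc_E
  simp only [Matrix.add_apply, Matrix.of_apply, if_true]
  by_cases hb : b = i
  · subst hb
    by_cases ha : a = b
    · subst ha; simp
    · simp [ha]
  · simp only [if_neg hb, add_zero]
    rw [Matrix.one_apply_ne (Ne.symm hb), mul_zero, add_zero]

theorem keuc_E_isUnit {A : Type} [CommRing A] {ι : Type} [Fintype ι] [DecidableEq ι] (i : ι)
    (Y : ι → A) : IsUnit (keuc_E i Y) := by
  refine ⟨⟨keuc_E i Y, keuc_E i (fun a => - Y a), keuc_E_inv i Y, ?_⟩, rfl⟩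
  have h := keuc_E_inv i (fun a => - Y a)
  simpa using h

theorem keuc_one (h1 : St_KcMul) (A : Type) [CommRing A] (ι : Type) [Fintype ι]
    [DecidableEq ι] : kc (1 : Matrix ι ι A) = 0 := by
  have h := h1 A ι 1 1 isUnit_one isUnit_one
  rw [mul_one] at h
  exact left_eq_add.1 h

theorem keuc_E_kc (h1 : St_KcMul) (h2 : St_KcIdx) (h3 : St_KcBlock) {A : Type} [CommRing A]
    {ι : Type} [Fintype ι] [DecidableEq ι] (i : ι) (Y : ι → A) : kc (keuc_E i Y) = 0 := by
  classical
  let e : {a : ι // a ≠ i} ⊕ {a : ι // ¬ a ≠ i} ≃ ι := Equiv.sumCompl fun a => a ≠ i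
  rw [← h2 A ι _ e (keuc_E i Y) (keuc_E_isUnit i Y)]
  have hb : (keuc_E i Y).submatrix e e = fromBlocks 1
      (Matrix.of fun (a : {a : ι // a ≠ i}) (_ : {a : ι // ¬ a ≠ i}) => Y a.1) 0 1 := by
    ext a b
    rcases a with ⟨a, ha⟩ | ⟨a, ha⟩ <;> rcases b with ⟨b, hb⟩ | ⟨b, hb⟩
    · simp only [keuc_E, submatrix_apply, Matrix.add_apply, Matrix.of_apply, fromBlocks_apply₁₁]
      show (1 : Matrix ι ι A) a b + (if b = i then (if a = i then 0 else Y a) else 0) = _
      rw [if_neg hb, add_zero, Matrix.one_apply, Matrix.one_apply]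
      simp
    · simp only [keuc_E, submatrix_apply, Matrix.add_apply, Matrix.of_apply, fromBlocks_apply₁₂]
      show (1 : Matrix ι ι A) a b + (if b = i then (if a = i then 0 else Y a) else 0) = _
      have hb' : b = i := not_not.1 hb
      rw [if_pos hb', if_neg ha, Matrix.one_apply_ne (by rw [hb']; exact ha), zero_add]
    · simp only [keuc_E, submatrix_apply, Matrix.add_apply, Matrix.of_apply, fromBlocks_apply₂₁]
      show (1 : Matrix ι ι A) a b + (if b = i then (if a = i then 0 else Y a) else 0) = _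
      have ha' : a = i := not_not.1 ha
      rw [if_neg hb, Matrix.one_apply_ne (by rw [ha']; exact Ne.symm hb)]
      simp
    · simp only [keuc_E, submatrix_apply, Matrix.add_apply, Matrix.of_apply, fromBlocks_apply₂₂]
      show (1 : Matrix ι ι A) a b + (if b = i then (if a = i then 0 else Y a) else 0) = _
      have ha' : a = i := not_not.1 ha
      have hb' : b = i := not_not.1 hb
      subst ha'
      subst hb'
      simp
  rw [hb, (h3 A _ _ 1 1 _ 0 isUnit_one isUnit_one).1, keuc_one h1, keuc_one h1, add_zero]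

/-- reduction of the first column -/
theorem keuc_col (h1 : St_KcMul) (h2 : St_KcIdx) (h3 : St_KcBlock) (R : Type)
    [EuclideanDomain R] (n : ℕ) (M : Matrix (Fin (n + 1)) (Fin (n + 1)) R) (hM : IsUnit M) :
    ∃ M' : Matrix (Fin (n + 1)) (Fin (n + 1)) R, IsUnit M' ∧ kc M' = kc M ∧
      ∀ a, a ≠ 0 → M' a 0 = 0 := by
  classical
  let S : Set R := {r | r ≠ 0 ∧ ∃ M' : Matrix (Fin (n + 1)) (Fin (n + 1)) R, IsUnit M' ∧
    kc M' = kc M ∧ ∃ i, M' i 0 = r}
  have hstep : ∀ (M' : Matrix (Fin (n + 1)) (Fin (n + 1)) R) (i : Fin (n + 1))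
      (Y : Fin (n + 1) → R), IsUnit M' → kc M' = kc M →
      IsUnit (keuc_E i Y * M') ∧ kc (keuc_E i Y * M') = kc M := by
    intro M' i Y hu hk
    refine ⟨(keuc_E_isUnit i Y).mul hu, ?_⟩
    rw [h1 R _ _ _ (keuc_E_isUnit i Y) hu, keuc_E_kc h1 h2 h3, zero_add, hk]
  have hne : S.Nonempty := by
    by_contra hcon
    rw [Set.not_nonempty_iff_eq_empty] at hcon
    have h0 : ∀ i, M i 0 = 0 := by
      intro i
      by_contra h
      have : M i 0 ∈ S := ⟨h, M, hM, rfl, i, rfl⟩
      rw [hcon] at this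
      exact this
    have hdet : M.det = 0 := Matrix.det_eq_zero_of_column_eq_zero 0 h0
    have := (Matrix.isUnit_iff_isUnit_det M).1 hM
    rw [hdet] at this
    exact not_isUnit_zero this
  let wf := EuclideanDomain.r_wellFounded (R := R)
  obtain ⟨hr0, M', hu, hk, i, hi⟩ := wf.min_mem S hne
  set r := wf.min S hne with hr
  have hdiv : ∀ j, M' j 0 % r = 0 := by
    intro j
    by_contra hj
    by_cases hji : j = i
    · subst hji
      rw [hi] at hj
      exact hj (EuclideanDomain.mod_self r)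
    · obtain ⟨h4, h5⟩ := hstep M' i (fun _ => - (M' j 0 / r)) hu hk
      have h6 : (keuc_E i (fun _ => - (M' j 0 / r)) * M') j 0 = M' j 0 % r := by
        rw [keuc_E_mul, if_neg hji, hi]
        have := EuclideanDomain.div_add_mod (M' j 0) r
        linear_combination (-1 : R) * this
      have h7 : M' j 0 % r ∈ S := ⟨hj, _, h4, h5, j, h6⟩
      exact wf.not_lt_min S h7 (EuclideanDomain.mod_lt _ hr0)
  have hdiv' : ∀ j, M' j 0 = r * (M' j 0 / r) := by
    intro j
    have := EuclideanDomain.div_add_mod (M' j 0) r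
    rw [hdiv j, add_zero] at this
    exact this.symm
  -- clear the column
  obtain ⟨h4, h5⟩ := hstep M' i (fun j => - (M' j 0 / r)) hu hk
  set M1 := keuc_E i (fun j => - (M' j 0 / r)) * M' with hM1
  have h6 : ∀ j, j ≠ i → M1 j 0 = 0 := by
    intro j hj
    rw [hM1, keuc_E_mul, if_neg hj, hi]
    linear_combination hdiv' j
  have h7 : M1 i 0 = r := by
    rw [hM1, keuc_E_mul, if_pos rfl, zero_mul, add_zero, hi]
  by_cases hi0 : i = 0
  · exact ⟨M1, h4, h5, fun a ha => h6 a (by rw [hi0]; exact ha)⟩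
  · obtain ⟨h8, h9⟩ := hstep M1 i (fun j => if j = 0 then 1 else 0) h4 h5
    set M2 := keuc_E i (fun j : Fin (n + 1) => if j = 0 then (1 : R) else 0) * M1 with hM2
    obtain ⟨h10, h11⟩ := hstep M2 0 (fun j => if j = i then -1 else 0) h8 h9
    have e0 : M2 0 0 = r := by
      rw [hM2, keuc_E_mul, if_neg (Ne.symm hi0), if_pos rfl, h6 0 (Ne.symm hi0), h7]
      ring
    have ei : M2 i 0 = r := by
      rw [hM2, keuc_E_mul, if_pos rfl, h7]
      ring
    have ej : ∀ j, j ≠ 0 → j ≠ i → M2 j 0 = 0 := by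
      intro j hj0 hji
      rw [hM2, keuc_E_mul, if_neg hji, if_neg hj0, h6 j hji]
      ring
    refine ⟨_, h10, h11, fun a ha => ?_⟩
    rw [keuc_E_mul, if_neg ha, e0]
    by_cases hai : a = i
    · rw [if_pos hai, hai, ei]
      ring
    · rw [if_neg hai, ej a ha hai]
      ring

theorem keuc_ind (h1 : St_KcMul) (h2 : St_KcIdx) (h3 : St_KcBlock) (R : Type)
    [EuclideanDomain R] (n : ℕ) : ∀ M : Matrix (Fin n) (Fin n) R, IsUnit M →
    ∃ u : Rˣ, kc M = kc (Matrix.of fun _ _ : Fin 1 => (u : R)) := by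
  induction n with
  | zero =>
    intro M _
    refine ⟨1, ?_⟩
    have e1 : M = 1 := Subsingleton.elim _ _
    have e2 : (Matrix.of fun _ _ : Fin 1 => ((1 : Rˣ) : R)) = 1 := by
      ext a b
      have : a = b := Subsingleton.elim _ _
      subst this
      simp
    rw [e1, e2, keuc_one h1, keuc_one h1]
  | succ n ih =>
    intro M hM
    obtain ⟨M', hu, hk, hcol⟩ := keuc_col h1 h2 h3 R n M hM
    let e : Fin 1 ⊕ Fin n ≃ Fin (n + 1) := finSumFinEquiv.trans (finCongr (Nat.add_comm 1 n))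
    have hb : M'.submatrix e e = fromBlocks (Matrix.of fun _ _ : Fin 1 => M' 0 0)
        (M'.submatrix (e ∘ Sum.inl) (e ∘ Sum.inr)) 0
        (M'.submatrix (e ∘ Sum.inr) (e ∘ Sum.inr)) := by
      have e0 : ∀ a : Fin 1, e (Sum.inl a) = 0 := by
        intro a
        have : a = 0 := Subsingleton.elim _ _
        subst this
        rfl
      have en : ∀ a : Fin n, e (Sum.inr a) ≠ 0 := by
        intro a ha
        have := e.injective (ha.trans (e0 0).symm)
        exact Sum.inr_ne_inl this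
      ext a b
      rcases a with a | a <;> rcases b with b | b
      · rw [submatrix_apply, e0, e0]
        rfl
      · rfl
      · rw [submatrix_apply, e0, hcol _ (en a)]
        rfl
      · rfl
    have hub : IsUnit (fromBlocks (Matrix.of fun _ _ : Fin 1 => M' 0 0)
        (M'.submatrix (e ∘ Sum.inl) (e ∘ Sum.inr)) 0
        (M'.submatrix (e ∘ Sum.inr) (e ∘ Sum.inr))) := by
      rw [← hb]
      exact (Matrix.isUnit_submatrix_equiv e e).2 hu
    rw [Matrix.isUnit_fromBlocks_zero₂₁] at hub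
    obtain ⟨hu1, hu2⟩ := hub
    have hr : IsUnit (M' 0 0) := by
      have := (Matrix.isUnit_iff_isUnit_det _).1 hu1
      simpa using this
    obtain ⟨u, hu0⟩ := hr
    obtain ⟨u', hu'⟩ := ih _ hu2
    refine ⟨u * u', ?_⟩
    rw [← hk, ← h2 R _ _ e M' hu, hb, (h3 R _ _ _ _ _ 0 hu1 hu2).1, hu', ← hu0]
    have hm : ∀ w : Rˣ, IsUnit (Matrix.of fun _ _ : Fin 1 => (w : R)) := by
      intro w
      rw [Matrix.isUnit_iff_isUnit_det]
      simp
    rw [← h1 R _ _ _ (hm u) (hm u')]
    congr 1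
    ext a b
    simp [Matrix.mul_apply]

theorem thm_KEuc (h1 : St_KcMul) (h2 : St_KcIdx) (h3 : St_KcBlock) (h4 : St_KcGen) :
    St_KEuc := by
  intro R _ x
  obtain ⟨n, M, hM, rfl⟩ := (h4 R).1 x
  exact keuc_ind h1 h2 h3 R n M hM

end BassH
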