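import Pool.Agent.BassH.Stmts
import Pool.Agent.Helper11.FFRPoly

/-!
# BassH, KPoly: `K₁` of polynomial rings over `ℤ` and `𝔽_p`
-/

set_option autoImplicit false

namespace BassH

open Pool.Agent.Helper11 Matrix Function

theorem kpoly_pid (m : ℕ) (hm : m = 0 ∨ m.Prime) : AllFFR (ZMod m) := by
  rcases hm with rfl | hp
  · show AllFFR ℤ
    exact AllFFR.pid ℤ
  · have : Fact m.Prime := ⟨hp⟩
    exact AllFFR.pid (ZMod m)

theorem kpoly_noeth (m : ℕ) (hm : m = 0 ∨ m.Prime) : IsNoetherianRing (ZMod m) := by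
  rcases hm with rfl | hp
  · show IsNoetherianRing ℤ
    infer_instance
  · have : Fact m.Prime := ⟨hp⟩
    infer_instance

theorem kpoly_fin (m : ℕ) (hm : m = 0 ∨ m.Prime) (n : ℕ) :
    AllFFR (MvPolynomial (Fin n) (ZMod m)) := by
  have := kpoly_noeth m hm
  induction n with
  | zero =>
      exact AllFFR.of_equiv (MvPolynomial.isEmptyRingEquiv (ZMod m) (Fin 0)).symm
        (kpoly_pid m hm)
  | succ n ih =>
      exact AllFFR.of_equiv (MvPolynomial.finSuccEquiv (ZMod m) n).toRingEquiv.symm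
        (AllFFR.polynomial ih)

theorem thm_AllFFR : St_AllFFR := by
  intro m hm σ _
  obtain ⟨n, ⟨e⟩⟩ := Finite.exists_equiv_fin σ
  exact AllFFR.of_equiv (MvPolynomial.renameEquiv (ZMod m) e).toRingEquiv.symm
    (kpoly_fin m hm n)

theorem kpoly_isUnit_map {A B : Type} [CommRing A] [CommRing B] (f : A →+* B) {n : ℕ}
    (M : Matrix (Fin n) (Fin n) A) (hM : IsUnit M) : IsUnit (M.map f) := by
  have := hM.map (f.mapMatrix (m := Fin n))
  exact this

theorem kpoly_equiv (h4 : St_KcGen) {A B : Type} [CommRing A] [CommRing B] (e : A ≃+* B)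
    (h : AddGroup.FG (K1 A)) : AddGroup.FG (K1 B) := by
  refine AddGroup.fg_of_surjective (f := K1map e.toRingHom) (fun x => ?_)
  obtain ⟨n, M, hM, rfl⟩ := (h4 B).1 x
  refine ⟨kc (M.map e.symm.toRingHom), ?_⟩
  rw [(h4 A).2.2 B e.toRingHom (Fin n) _ (kpoly_isUnit_map _ M hM)]
  congr 1
  ext i j
  simp

theorem kpoly_poly (h1 : St_Higman) (h2 : St_Nil) (R : Type) [CommRing R] [IsNoetherianRing R]
    (hR : AllFFR R) (h : AddGroup.FG (K1 R)) : AddGroup.FG (K1 (Polynomial R)) := by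
  refine AddGroup.fg_of_surjective (f := K1map (Polynomial.C : R →+* Polynomial R)) (fun x => ?_)
  obtain ⟨y, n, N, hN, hx⟩ := h1 R x
  rw [h2 R hR n N hN, add_zero] at hx
  exact ⟨y, hx.symm⟩

theorem kpoly_euc (h3 : St_KEuc) (R : Type) [EuclideanDomain R] [Finite Rˣ] :
    AddGroup.FG (K1 R) := by
  have hs : Surjective (fun u : Rˣ => kc (Matrix.of fun _ _ : Fin 1 => (u : R))) := by
    intro x
    obtain ⟨u, hu⟩ := h3 R x
    exact ⟨u, hu.symm⟩
  have hf : Finite (K1 R) := Finite.of_surjective _ hs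
  exact AddGroup.fg_of_finite

theorem kpoly_base (h3 : St_KEuc) (m : ℕ) (hm : m = 0 ∨ m.Prime) : AddGroup.FG (K1 (ZMod m)) := by
  rcases hm with rfl | hp
  · show AddGroup.FG (K1 ℤ)
    exact kpoly_euc h3 ℤ
  · have : Fact m.Prime := ⟨hp⟩
    exact kpoly_euc h3 (ZMod m)

theorem kpoly_K1fin (h1 : St_Higman) (h2 : St_Nil) (h3 : St_KEuc) (h4 : St_KcGen) (m : ℕ)
    (hm : m = 0 ∨ m.Prime) (n : ℕ) : AddGroup.FG (K1 (MvPolynomial (Fin n) (ZMod m))) := by
  have := kpoly_noeth m hm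
  induction n with
  | zero =>
      exact kpoly_equiv h4 (MvPolynomial.isEmptyRingEquiv (ZMod m) (Fin 0)).symm
        (kpoly_base h3 m hm)
  | succ n ih =>
      exact kpoly_equiv h4 (MvPolynomial.finSuccEquiv (ZMod m) n).toRingEquiv.symm
        (kpoly_poly h1 h2 _ (kpoly_fin m hm n) ih)

theorem thm_KPoly (h1 : St_Higman) (h2 : St_Nil) (h3 : St_KEuc) (h4 : St_KcGen) : St_KPoly := by
  intro m hm σ _
  obtain ⟨n, ⟨e⟩⟩ := Finite.exists_equiv_fin σ
  exact kpoly_equiv h4 (MvPolynomial.renameEquiv (ZMod m) e).toRingEquiv.symm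
    (kpoly_K1fin h1 h2 h3 h4 m hm n)

end BassH
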