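import Pool.Agent.BassH.Stmts

/-!
# BassH, KT: tools for `K₁`
-/

set_option autoImplicit false

namespace BassH

open Pool.Agent.Helper11 Matrix Function

/-- class of a matrix indexed by `Fin n` -/
noncomputable def kt_mk {A : Type} [CommRing A] (n : ℕ) (M : Matrix (Fin n) (Fin n) A) : K1 A :=
  haveI := Classical.propDecidable (IsUnit M)
  if h : IsUnit M then K1.mk n h.unit else 0

theorem kt_mk_unit {A : Type} [CommRing A] (n : ℕ) (u : GL (Fin n) A) :
    kt_mk n u.val = K1.mk n u := by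
  unfold kt_mk
  rw [dif_pos u.isUnit]
  congr 1
  exact Units.ext rfl

theorem kt_mk_mul {A : Type} [CommRing A] (n : ℕ) (M N : Matrix (Fin n) (Fin n) A)
    (hM : IsUnit M) (hN : IsUnit N) : kt_mk n (M * N) = kt_mk n M + kt_mk n N := by
  obtain ⟨u, rfl⟩ := hM
  obtain ⟨v, rfl⟩ := hN
  rw [kt_mk_unit, kt_mk_unit, ← K1mk_mul, ← kt_mk_unit]
  rfl

theorem kt_mk_one {A : Type} [CommRing A] (n : ℕ) :
    kt_mk n (1 : Matrix (Fin n) (Fin n) A) = 0 := by
  have h := kt_mk_mul n (1 : Matrix (Fin n) (Fin n) A) 1 isUnit_one isUnit_one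
  rw [mul_one] at h
  exact (add_eq_left.1 h.symm)

theorem kt_isUnit_sub {A : Type} [CommRing A] {ι κ : Type} [Fintype ι] [DecidableEq ι]
    [Fintype κ] [DecidableEq κ] (e : κ ≃ ι) (M : Matrix ι ι A) (hM : IsUnit M) :
    IsUnit (M.submatrix e e) := by
  obtain ⟨u, rfl⟩ := hM
  refine ⟨⟨u.val.submatrix e e, u.inv.submatrix e e, ?_, ?_⟩, rfl⟩
  · rw [submatrix_mul_equiv]
    have h : u.val * u.inv = 1 := u.val_inv
    rw [h, submatrix_one_equiv]
  · rw [submatrix_mul_equiv]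
    have h : u.inv * u.val = 1 := u.inv_val
    rw [h, submatrix_one_equiv]

theorem kt_kc {A : Type} [CommRing A] {ι : Type} [Fintype ι] [DecidableEq ι]
    (M : Matrix ι ι A) (hM : IsUnit M) :
    kc M = kt_mk (Fintype.card ι)
      (M.submatrix (Fintype.equivFin ι).symm (Fintype.equivFin ι).symm) := by
  unfold kc
  rw [dif_pos hM]
  rw [← kt_mk_unit]
  congr 1

theorem kt_mk_perm {A : Type} [CommRing A] (n : ℕ) (σ : Fin n ≃ Fin n)
    (M : Matrix (Fin n) (Fin n) A) (hM : IsUnit M) :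
    kt_mk n (M.submatrix σ σ) = kt_mk n M := by
  set P : Matrix (Fin n) (Fin n) A := (1 : Matrix (Fin n) (Fin n) A).submatrix σ id with hP
  set Q : Matrix (Fin n) (Fin n) A := (1 : Matrix (Fin n) (Fin n) A).submatrix id σ with hQ
  have hPQ : P * Q = 1 := by
    have := submatrix_mul_equiv (1 : Matrix (Fin n) (Fin n) A) 1 σ (Equiv.refl _) σ
    rw [one_mul, submatrix_one_equiv] at this
    exact this
  have hQP : Q * P = 1 := by
    have := submatrix_mul_equiv (1 : Matrix (Fin n) (Fin n) A) (1 : Matrix (Fin n) (Fin n) A) id σ id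
    rw [one_mul, submatrix_id_id] at this
    exact this
  have h1 : M.submatrix σ σ = P * M * Q := by
    have h2 : P * M = M.submatrix σ id := by
      have := submatrix_mul_equiv (1 : Matrix (Fin n) (Fin n) A) M σ (Equiv.refl _) id
      rw [one_mul] at this
      exact this
    rw [h2]
    have h3 := submatrix_mul_equiv M (1 : Matrix (Fin n) (Fin n) A) σ (Equiv.refl _) σ
    rw [mul_one] at h3
    exact h3.symm
  have hPu : IsUnit P := ⟨⟨P, Q, hPQ, hQP⟩, rfl⟩
  have hQu : IsUnit Q := ⟨⟨Q, P, hQP, hPQ⟩, rfl⟩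
  have h4 : kt_mk n P + kt_mk n Q = 0 := by
    rw [← kt_mk_mul n P Q hPu hQu, hPQ, kt_mk_one]
  rw [h1, kt_mk_mul n _ _ (hPu.mul hM) hQu, kt_mk_mul n _ _ hPu hM]
  calc kt_mk n P + kt_mk n M + kt_mk n Q = (kt_mk n P + kt_mk n Q) + kt_mk n M := by abel
    _ = kt_mk n M := by rw [h4, zero_add]

theorem kt_mk_idx {A : Type} [CommRing A] {ι κ : Type} [Fintype ι] [DecidableEq ι]
    [Fintype κ] [DecidableEq κ] (n m : ℕ) (h : n = m) (f : Fin n ≃ κ) (g : Fin m ≃ ι)
    (e : κ ≃ ι) (M : Matrix ι ι A) (hM : IsUnit M) :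
    kt_mk n ((M.submatrix e e).submatrix f f) = kt_mk m (M.submatrix g g) := by
  subst h
  have h1 : (M.submatrix e e).submatrix f f =
      (M.submatrix g g).submatrix ((f.trans e).trans g.symm) ((f.trans e).trans g.symm) := by
    ext i j
    simp [submatrix_apply]
  rw [h1]
  exact kt_mk_perm n _ _ (kt_isUnit_sub g M hM)

theorem thm_KcIdx : St_KcIdx := by
  intro A _ ι κ _ _ _ _ e M hM
  rw [kt_kc M hM, kt_kc _ (kt_isUnit_sub e M hM)]
  exact kt_mk_idx _ _ (Fintype.card_congr e) _ _ e M hM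

theorem thm_KcMul : St_KcMul := by
  intro A _ ι _ _ M N hM hN
  rw [kt_kc M hM, kt_kc N hN, kt_kc _ (hM.mul hN), ← kt_mk_mul _ _ _ (kt_isUnit_sub _ M hM)
    (kt_isUnit_sub _ N hN), submatrix_mul_equiv]

theorem kt_kc_fin {A : Type} [CommRing A] (n : ℕ) (M : Matrix (Fin n) (Fin n) A) (hM : IsUnit M) :
    kc M = kt_mk n M := by
  rw [kt_kc M hM]
  have h := kt_mk_idx (A := A) (Fintype.card (Fin n)) n (Fintype.card_fin n)
    (Fintype.equivFin (Fin n)).symm (Equiv.refl (Fin n)) (Equiv.refl (Fin n)) M hM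
  simpa using h

theorem kt_one {A : Type} [CommRing A] (ι : Type) [Fintype ι] [DecidableEq ι] :
    kc (1 : Matrix ι ι A) = 0 := by
  have h := thm_KcMul A ι 1 1 isUnit_one isUnit_one
  rw [mul_one] at h
  exact (add_eq_left.1 h.symm)

theorem kt_isUnit_block {A : Type} [CommRing A] {ι κ : Type} [Fintype ι] [DecidableEq ι]
    [Fintype κ] [DecidableEq κ] (M : Matrix ι ι A) (N : Matrix κ κ A) (hM : IsUnit M)
    (hN : IsUnit N) : IsUnit (fromBlocks M 0 0 N) := by
  obtain ⟨u, rfl⟩ := hM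
  obtain ⟨v, rfl⟩ := hN
  refine ⟨⟨fromBlocks u.val 0 0 v.val, fromBlocks u.inv 0 0 v.inv, ?_, ?_⟩, rfl⟩
  · rw [fromBlocks_multiply]
    have h1 : u.val * u.inv = 1 := u.val_inv
    have h2 : v.val * v.inv = 1 := v.val_inv
    rw [h1, h2]
    simp
  · rw [fromBlocks_multiply]
    have h1 : u.inv * u.val = 1 := u.inv_val
    have h2 : v.inv * v.val = 1 := v.inv_val
    rw [h1, h2]
    simp

theorem kt_isUnit_upper {A : Type} [CommRing A] {ι κ : Type} [Fintype ι] [DecidableEq ι]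
    [Fintype κ] [DecidableEq κ] (X : Matrix ι κ A) :
    IsUnit (fromBlocks (1 : Matrix ι ι A) X 0 (1 : Matrix κ κ A)) := by
  refine ⟨⟨fromBlocks 1 X 0 1, fromBlocks 1 (-X) 0 1, ?_, ?_⟩, rfl⟩
  · rw [fromBlocks_multiply]; simp
  · rw [fromBlocks_multiply]; simp

theorem kt_isUnit_lower {A : Type} [CommRing A] {ι κ : Type} [Fintype ι] [DecidableEq ι]
    [Fintype κ] [DecidableEq κ] (Y : Matrix κ ι A) :
    IsUnit (fromBlocks (1 : Matrix ι ι A) 0 Y (1 : Matrix κ κ A)) := by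
  refine ⟨⟨fromBlocks 1 0 Y 1, fromBlocks 1 0 (-Y) 1, ?_, ?_⟩, rfl⟩
  · rw [fromBlocks_multiply]; simp
  · rw [fromBlocks_multiply]; simp

/-- stabilisation by one -/
theorem kt_stab1 {A : Type} [CommRing A] {ι : Type} [Fintype ι] [DecidableEq ι]
    (M : Matrix ι ι A) (hM : IsUnit M) :
    kc (fromBlocks M 0 0 (1 : Matrix (Fin 1) (Fin 1) A)) = kc M := by
  set g := Fintype.equivFin ι with hg
  set M' : Matrix (Fin (Fintype.card ι)) (Fin (Fintype.card ι)) A := M.submatrix g.symm g.symm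
    with hM'
  have hM'u : IsUnit M' := kt_isUnit_sub _ M hM
  have h1 : kc M = kc M' := (thm_KcIdx A ι _ g.symm M hM).symm
  have h2 : kc (fromBlocks M 0 0 (1 : Matrix (Fin 1) (Fin 1) A)) =
      kc (fromBlocks M' 0 0 (1 : Matrix (Fin 1) (Fin 1) A)) := by
    have h3 : fromBlocks M' 0 0 (1 : Matrix (Fin 1) (Fin 1) A) =
        (fromBlocks M 0 0 (1 : Matrix (Fin 1) (Fin 1) A)).submatrix
          (Equiv.sumCongr g.symm (Equiv.refl (Fin 1))) (Equiv.sumCongr g.symm (Equiv.refl (Fin 1))) := by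
      ext i j
      rcases i with i | i <;> rcases j with j | j <;> simp [hM', submatrix_apply]
    rw [h3]
    exact (thm_KcIdx A _ _ _ _ (kt_isUnit_block M 1 hM isUnit_one)).symm
  rw [h2, h1]
  obtain ⟨u, hu⟩ := hM'u
  rw [← hu]
  have h4 : kc (fromBlocks u.val 0 0 (1 : Matrix (Fin 1) (Fin 1) A)) =
      kc ((fromBlocks u.val 0 0 (1 : Matrix (Fin 1) (Fin 1) A)).submatrix
        finSumFinEquiv.symm finSumFinEquiv.symm) :=
    (thm_KcIdx A _ _ finSumFinEquiv.symm _ (kt_isUnit_block u.val 1 u.isUnit isUnit_one)).symm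
  have h5 : (fromBlocks u.val 0 0 (1 : Matrix (Fin 1) (Fin 1) A)).submatrix
        finSumFinEquiv.symm finSumFinEquiv.symm = (stab A _ u).val := rfl
  rw [h4, h5, kt_kc_fin _ _ (Units.isUnit _), kt_kc_fin _ _ (Units.isUnit _), kt_mk_unit,
    kt_mk_unit, K1mk_stab]

theorem kt_stabFin {A : Type} [CommRing A] {ι : Type} [Fintype ι] [DecidableEq ι]
    (M : Matrix ι ι A) (hM : IsUnit M) : ∀ k : ℕ,
    kc (fromBlocks M 0 0 (1 : Matrix (Fin k) (Fin k) A)) = kc M
  | 0 => by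
      have h3 : fromBlocks M 0 0 (1 : Matrix (Fin 0) (Fin 0) A) =
          M.submatrix (Equiv.sumEmpty ι (Fin 0)) (Equiv.sumEmpty ι (Fin 0)) := by
        ext i j
        rcases i with i | i
        · rcases j with j | j
          · simp
          · exact j.elim0
        · exact i.elim0
      rw [h3]
      exact thm_KcIdx A _ _ _ _ hM
  | k + 1 => by
      have ih := kt_stabFin M hM k
      have hu : IsUnit (fromBlocks M 0 0 (1 : Matrix (Fin k) (Fin k) A)) :=
        kt_isUnit_block M 1 hM isUnit_one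
      rw [← ih, ← kt_stab1 _ hu]
      set e : ι ⊕ Fin (k + 1) ≃ (ι ⊕ Fin k) ⊕ Fin 1 :=
        (Equiv.sumCongr (Equiv.refl ι) finSumFinEquiv.symm).trans (Equiv.sumAssoc ι (Fin k) (Fin 1)).symm
        with he
      have h3 : fromBlocks M 0 0 (1 : Matrix (Fin (k + 1)) (Fin (k + 1)) A) =
          (fromBlocks (fromBlocks M 0 0 (1 : Matrix (Fin k) (Fin k) A)) 0 0
            (1 : Matrix (Fin 1) (Fin 1) A)).submatrix e e := by
        have h4 : (fromBlocks M 0 0 (1 : Matrix (Fin (k + 1)) (Fin (k + 1)) A)).submatrix e.symm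
            e.symm = fromBlocks (fromBlocks M 0 0 (1 : Matrix (Fin k) (Fin k) A)) 0 0
            (1 : Matrix (Fin 1) (Fin 1) A) := by
          ext i j
          rcases i with (i | i) | i <;> rcases j with (j | j) | j <;>
            simp [he, submatrix_apply, Matrix.one_apply, fromBlocks, Fin.ext_iff]
          · have := i.isLt
            omega
          · have := j.isLt
            omega
        rw [← h4, submatrix_submatrix]
        simp
      rw [h3]
      exact thm_KcIdx A _ _ _ _ (kt_isUnit_block _ 1 hu isUnit_one)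

theorem kt_stab {A : Type} [CommRing A] {ι κ : Type} [Fintype ι] [DecidableEq ι]
    [Fintype κ] [DecidableEq κ] (M : Matrix ι ι A) (hM : IsUnit M) :
    kc (fromBlocks M 0 0 (1 : Matrix κ κ A)) = kc M := by
  rw [← kt_stabFin M hM (Fintype.card κ)]
  set g := Fintype.equivFin κ with hg
  have h3 : fromBlocks M 0 0 (1 : Matrix κ κ A) =
      (fromBlocks M 0 0 (1 : Matrix (Fin (Fintype.card κ)) (Fin (Fintype.card κ)) A)).submatrix
        (Equiv.sumCongr (Equiv.refl ι) g) (Equiv.sumCongr (Equiv.refl ι) g) := by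
    ext i j
    rcases i with i | i <;> rcases j with j | j <;> simp [submatrix_apply, Matrix.one_apply]
  rw [h3]
  exact thm_KcIdx A _ _ _ _ (kt_isUnit_block M 1 hM isUnit_one)

theorem kt_swap {A : Type} [CommRing A] {ι κ : Type} [Fintype ι] [DecidableEq ι]
    [Fintype κ] [DecidableEq κ] (M : Matrix ι ι A) (X : Matrix ι κ A) (Y : Matrix κ ι A)
    (N : Matrix κ κ A) (h : IsUnit (fromBlocks M X Y N)) :
    kc (fromBlocks N Y X M) = kc (fromBlocks M X Y N) := by
  have h3 : fromBlocks N Y X M =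
      (fromBlocks M X Y N).submatrix (Equiv.sumComm κ ι) (Equiv.sumComm κ ι) := by
    ext i j
    rcases i with i | i <;> rcases j with j | j <;> simp [submatrix_apply]
  rw [h3]
  exact thm_KcIdx A _ _ _ _ h

theorem kt_stab' {A : Type} [CommRing A] {ι κ : Type} [Fintype ι] [DecidableEq ι]
    [Fintype κ] [DecidableEq κ] (N : Matrix κ κ A) (hN : IsUnit N) :
    kc (fromBlocks (1 : Matrix ι ι A) 0 0 N) = kc N := by
  rw [← kt_stab (κ := ι) N hN]
  exact kt_swap _ _ _ _ (kt_isUnit_block N 1 hN isUnit_one)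

theorem kt_upper {A : Type} [CommRing A] {ι κ : Type} [Fintype ι] [DecidableEq ι]
    [Fintype κ] [DecidableEq κ] (X : Matrix ι κ A) :
    kc (fromBlocks (1 : Matrix ι ι A) X 0 (1 : Matrix κ κ A)) = 0 := by
  set U : Matrix (ι ⊕ κ) κ A := fromRows X 0 with hU
  set V : Matrix κ (ι ⊕ κ) A := fromCols 0 1 with hV
  have hVU : V * U = 0 := by
    rw [hU, hV, fromCols_mul_fromRows]
    simp
  have hUV : U * V = fromBlocks 0 X 0 0 := by
    rw [hU, hV, fromRows_mul_fromCols]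
    simp
  set T : Matrix (ι ⊕ κ) (ι ⊕ κ) A := fromBlocks 1 X 0 1 with hT
  have hT' : T = 1 + U * V := by
    rw [hUV, hT, ← fromBlocks_one, fromBlocks_add]
    simp
  have hTu : IsUnit T := kt_isUnit_upper X
  have hTU : T * U = U := by
    rw [hT', Matrix.add_mul, Matrix.one_mul, Matrix.mul_assoc, hVU, Matrix.mul_zero, add_zero]
  set P : Matrix ((ι ⊕ κ) ⊕ κ) ((ι ⊕ κ) ⊕ κ) A := fromBlocks 1 U 0 1 with hP
  set Q : Matrix ((ι ⊕ κ) ⊕ κ) ((ι ⊕ κ) ⊕ κ) A := fromBlocks 1 0 V 1 with hQ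
  set E : Matrix ((ι ⊕ κ) ⊕ κ) ((ι ⊕ κ) ⊕ κ) A := fromBlocks T 0 0 1 with hE
  have hPu : IsUnit P := kt_isUnit_upper U
  have hQu : IsUnit Q := kt_isUnit_lower V
  have hEu : IsUnit E := kt_isUnit_block T 1 hTu isUnit_one
  have h1 : P * Q = E * (Q * P) := by
    rw [hP, hQ, hE, fromBlocks_multiply, fromBlocks_multiply, fromBlocks_multiply]
    simp only [one_mul, mul_one, Matrix.mul_zero, Matrix.zero_mul, add_zero, zero_add,
      Matrix.mul_one, Matrix.one_mul]
    rw [hVU, zero_add, hTU, hT']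
  have h2 : kc P + kc Q = kc E + (kc Q + kc P) := by
    rw [← thm_KcMul A _ P Q hPu hQu, ← thm_KcMul A _ Q P hQu hPu,
      ← thm_KcMul A _ E _ hEu (hQu.mul hPu), h1]
  have h3 : kc E = 0 := by
    have h4 : kc E + (kc Q + kc P) = 0 + (kc Q + kc P) := by
      rw [← h2, zero_add, add_comm]
    exact add_right_cancel h4
  rw [← kt_stab (κ := κ) T hTu]
  exact h3

theorem kt_lower {A : Type} [CommRing A] {ι κ : Type} [Fintype ι] [DecidableEq ι]
    [Fintype κ] [DecidableEq κ] (Y : Matrix κ ι A) :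
    kc (fromBlocks (1 : Matrix ι ι A) 0 Y (1 : Matrix κ κ A)) = 0 := by
  rw [← kt_upper Y]
  exact kt_swap _ _ _ _ (kt_isUnit_upper Y)

theorem thm_KcBlock : St_KcBlock := by
  intro A _ ι κ _ _ _ _ M N X Y hM hN
  have hMi : M * M⁻¹ = 1 := Matrix.mul_nonsing_inv M ((Matrix.isUnit_iff_isUnit_det M).1 hM)
  have hNi : N * N⁻¹ = 1 := Matrix.mul_nonsing_inv N ((Matrix.isUnit_iff_isUnit_det N).1 hN)
  have hMu : IsUnit (fromBlocks M 0 0 (1 : Matrix κ κ A)) := kt_isUnit_block M 1 hM isUnit_one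
  have hNu : IsUnit (fromBlocks (1 : Matrix ι ι A) 0 0 N) := kt_isUnit_block 1 N isUnit_one hN
  constructor
  · have h1 : fromBlocks M X 0 N = fromBlocks M 0 0 (1 : Matrix κ κ A) *
        (fromBlocks (1 : Matrix ι ι A) 0 0 N * fromBlocks 1 (M⁻¹ * X) 0 1) := by
      rw [fromBlocks_multiply, fromBlocks_multiply]
      simp only [one_mul, mul_one, Matrix.mul_zero, Matrix.zero_mul, add_zero, zero_add,
        Matrix.mul_one, Matrix.one_mul]
      rw [← Matrix.mul_assoc, hMi, Matrix.one_mul]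
    rw [h1, thm_KcMul A _ _ _ hMu (hNu.mul (kt_isUnit_upper _)),
      thm_KcMul A _ _ _ hNu (kt_isUnit_upper _), kt_stab M hM, kt_stab' N hN, kt_upper, add_zero]
  · have h1 : fromBlocks M 0 Y N = fromBlocks (1 : Matrix ι ι A) 0 0 N *
        (fromBlocks M 0 0 (1 : Matrix κ κ A) * fromBlocks 1 0 (N⁻¹ * Y) 1) := by
      rw [fromBlocks_multiply, fromBlocks_multiply]
      simp only [one_mul, mul_one, Matrix.mul_zero, Matrix.zero_mul, add_zero, zero_add,
        Matrix.mul_one, Matrix.one_mul]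
      rw [← Matrix.mul_assoc, hNi, Matrix.one_mul]
    rw [h1, thm_KcMul A _ _ _ hNu (hMu.mul (kt_isUnit_lower _)),
      thm_KcMul A _ _ _ hMu (kt_isUnit_lower _), kt_stab M hM, kt_stab' N hN, kt_lower, add_zero,
      add_comm]

theorem kt_inv {A : Type} [CommRing A] {ι : Type} [Fintype ι] [DecidableEq ι]
    (u : (Matrix ι ι A)ˣ) : kc (u⁻¹).val = - kc u.val := by
  have h := thm_KcMul A ι u.val (u⁻¹).val u.isUnit (u⁻¹).isUnit
  rw [← Units.val_mul, mul_inv_cancel, Units.val_one, kt_one] at h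
  exact (neg_eq_of_add_eq_zero_right h.symm).symm

theorem kt_mk_eq {A : Type} [CommRing A] (n : ℕ) (α : GL (Fin n) A) :
    K1.mk n α = kc α.val := by
  rw [kt_kc_fin n α.val α.isUnit, kt_mk_unit]

theorem kt_exists {A : Type} [CommRing A] (x : K1 A) :
    ∃ (n : ℕ) (M : Matrix (Fin n) (Fin n) A), IsUnit M ∧ x = kc M := by
  obtain ⟨y, rfl⟩ := QuotientAddGroup.mk_surjective x
  induction y using FreeAbelianGroup.induction_on with
  | zero => exact ⟨0, 1, isUnit_one, (kt_one (Fin 0)).symm⟩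
  | of p =>
      obtain ⟨n, α⟩ := p
      exact ⟨n, α.val, α.isUnit, kt_mk_eq n α⟩
  | neg p ih =>
      obtain ⟨n, α⟩ := p
      refine ⟨n, (α⁻¹).val, (α⁻¹).isUnit, ?_⟩
      rw [kt_inv, ← kt_mk_eq]
      rfl
  | add y z hy hz =>
      obtain ⟨n, M, hM, h1⟩ := hy
      obtain ⟨m, N, hN, h2⟩ := hz
      have hu := kt_isUnit_block M N hM hN
      refine ⟨n + m, (fromBlocks M 0 0 N).submatrix finSumFinEquiv.symm finSumFinEquiv.symm,
        kt_isUnit_sub _ _ hu, ?_⟩
      rw [thm_KcIdx A _ _ _ _ hu, (thm_KcBlock A _ _ M N 0 0 hM hN).1, ← h1, ← h2]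
      rfl

theorem kt_map {A B : Type} [CommRing A] [CommRing B] (f : A →+* B) {ι : Type} [Fintype ι]
    [DecidableEq ι] (M : Matrix ι ι A) (hM : IsUnit M) : K1map f (kc M) = kc (M.map f) := by
  have hMf : IsUnit (M.map f) := by
    have := hM.map (f.mapMatrix (m := ι))
    exact this
  have hs : IsUnit (M.submatrix (Fintype.equivFin ι).symm (Fintype.equivFin ι).symm) :=
    kt_isUnit_sub _ M hM
  rw [kt_kc M hM, kt_kc _ hMf]
  obtain ⟨u, hu⟩ := hs
  rw [← hu, kt_mk_unit]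
  unfold K1map
  rw [K1.lift_mk, ← kt_mk_unit]
  congr 1
  show (u.val).map f = _
  rw [hu]
  rfl

theorem thm_KcGen : St_KcGen := by
  intro A _
  exact ⟨kt_exists, kt_mk_eq, fun B _ f ι _ _ M hM => kt_map f M hM⟩

end BassH
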