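import Pool.Agent.BassH.Stmts

/-!
# BassH, module Loc: `K₁` of the complement of a hypersurface and `G₀` of the hypersurface
-/

set_option autoImplicit false

namespace BassH

open Pool.Agent.Helper11 Matrix Function

/-- extensions of finitely generated abelian groups -/
lemma loc_fg_ext {G : Type} [AddCommGroup G] (H : AddSubgroup G) (h1 : AddGroup.FG H)
    (h2 : AddGroup.FG (G ⧸ H)) : AddGroup.FG G := by
  let N : Submodule ℤ G := AddSubgroup.toIntSubmodule H
  have : Module.Finite ℤ N := Module.Finite.iff_addGroup_fg.mpr h1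
  have : AddGroup.FG (G ⧸ N) := by
    let f : G ⧸ H →+ G ⧸ N := QuotientAddGroup.lift H N.mkQ.toAddMonoidHom (fun x hx => by
      show N.mkQ x = 0
      rw [Submodule.mkQ_apply, Submodule.Quotient.mk_eq_zero]
      exact hx)
    refine AddGroup.fg_of_surjective (f := f) (fun x => ?_)
    obtain ⟨x, rfl⟩ := Submodule.mkQ_surjective _ x
    exact ⟨QuotientAddGroup.mk x, rfl⟩
  have : Module.Finite ℤ (G ⧸ N) := Module.Finite.iff_addGroup_fg.mpr inferInstance
  exact Module.Finite.iff_addGroup_fg.mp (Module.Finite.of_submodule_quotient N)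

/-- a module killed by the kernel is a restriction -/
lemma loc_restr {S R : Type} [CommRing S] [CommRing R] (π : S →+* R) (hπ : Surjective π)
    (M : FGMod S) (h : KilledBy (RingHom.ker π) M) :
    Nonempty (M ≃ₗ[S] restr π hπ (desc π hπ M)) := by
  obtain ⟨e, he⟩ := exists_descEquiv π hπ M h
  exact ⟨{ e.trans (restrEquiv π hπ (desc π hπ M)).symm with
    map_smul' := fun s x => by
      apply (restrEquiv π hπ (desc π hπ M)).injective
      rw [restrEquiv_smul]
      exact he s x }⟩

/-- values of an additive functional lie in a subgroup as soon as this holds for the modules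
killed by `F` -/
lemma loc_mem {S : Type} [CommRing S] [IsNoetherianRing S] {Γ : Type} [AddCommGroup Γ] {F : S}
    {T : FGMod S → Γ} (hT : IsAdd (KilledPow F) T) (H : AddSubgroup Γ)
    (h : ∀ M : FGMod S, KilledBy (Ideal.span {F}) M → T M ∈ H) (e : ℕ) :
    ∀ M : FGMod S, (∀ m : M, F ^ e • m = 0) → T M ∈ H := by
  induction e with
  | zero =>
      intro M hM
      have : Subsingleton M := ⟨fun a b => by
        have ha := hM a
        have hb := hM b
        rw [pow_zero, one_smul] at ha hb
        rw [ha, hb]⟩
      rw [hT.zero M ⟨0, hM⟩]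
      exact H.zero_mem
  | succ e ih =>
      intro M hM
      let N : Submodule S M := LinearMap.range (LinearMap.lsmul S M F)
      rw [hT.submodule M N ⟨e + 1, hM⟩]
      refine H.add_mem (ih _ ?_) (h _ ?_)
      · rintro ⟨x, y, rfl⟩
        apply Subtype.ext
        change F ^ e • (F • y) = 0
        rw [← mul_smul, ← pow_succ, hM]
      · intro s hs x
        obtain ⟨r, rfl⟩ := Ideal.mem_span_singleton'.mp hs
        obtain ⟨x, rfl⟩ := Submodule.mkQ_surjective _ x
        rw [← map_smul, Submodule.mkQ_apply, Submodule.Quotient.mk_eq_zero, mul_smul]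
        exact N.smul_mem _ ⟨x, rfl⟩

theorem thm_Loc (h1 : St_Tors) (h2 : St_KcMul) (h3 : St_KcGen) : St_Loc := by
  intro S L _ _ _ _ _ F _ hF hS
  let π : S →+* S ⧸ Ideal.span {F} := Ideal.Quotient.mk (Ideal.span {F})
  have hπ : Surjective π := Ideal.Quotient.mk_surjective
  have hker : RingHom.ker π = Ideal.span {F} := Ideal.mk_ker
  constructor
  · intro hG hK
    obtain ⟨T, hT, hTa⟩ := h1 S L F hF hS
    -- the functional on modules over the quotient ring
    have hkr : ∀ N : FGMod (S ⧸ Ideal.span {F}), KilledBy (Ideal.span {F}) (restr π hπ N) := by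
      intro N s hs x
      apply (restrEquiv π hπ N).injective
      rw [restrEquiv_smul, map_zero]
      rw [← hker, RingHom.mem_ker] at hs
      rw [hs, zero_smul]
    have hkp : ∀ N : FGMod (S ⧸ Ideal.span {F}), KilledPow F (restr π hπ N) := fun N =>
      ⟨1, fun m => by rw [pow_one]; exact hkr N F (Ideal.mem_span_singleton_self F) m⟩
    let ψ : G0 (S ⧸ Ideal.span {F}) →+ (K1 L ⧸ (K1map (algebraMap S L)).range) :=
      G0.lift (fun N => T (restr π hπ N)) (by
        intro M' M M'' f g hf hg hfg
        let f' : restr π hπ M' →ₗ[S] restr π hπ M :=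
          { toFun := fun x => (restrEquiv π hπ M).symm (f (restrEquiv π hπ M' x))
            map_add' := fun x y => by simp
            map_smul' := fun s x => by
              apply (restrEquiv π hπ M).injective
              rw [AddEquiv.apply_symm_apply, restrEquiv_smul, map_smul]
              rw [RingHom.id_apply, restrEquiv_smul, AddEquiv.apply_symm_apply] }
        let g' : restr π hπ M →ₗ[S] restr π hπ M'' :=
          { toFun := fun x => (restrEquiv π hπ M'').symm (g (restrEquiv π hπ M x))
            map_add' := fun x y => by simp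
            map_smul' := fun s x => by
              apply (restrEquiv π hπ M'').injective
              rw [AddEquiv.apply_symm_apply, restrEquiv_smul, map_smul]
              rw [RingHom.id_apply, restrEquiv_smul, AddEquiv.apply_symm_apply] }
        exact hT.add _ _ _ f' g' hf hg hfg (hkp M))
    have hψ : ∀ N, ψ (G0.mk N) = T (restr π hπ N) := fun N => G0.lift_mk _ _ N
    have hmem : ∀ M : FGMod S, KilledPow F M → T M ∈ ψ.range := by
      rintro M ⟨e, he⟩
      refine loc_mem hT ψ.range ?_ e M he
      intro M hM
      obtain ⟨i⟩ := loc_restr π hπ M (by rw [hker]; exact hM)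
      have hMp : KilledPow F M :=
        ⟨1, fun m => by rw [pow_one]; exact hM F (Ideal.mem_span_singleton_self F) m⟩
      exact ⟨G0.mk (desc π hπ M), by rw [hψ, ← hT.iso i hMp]⟩
    have hsurj : Surjective ψ := by
      intro q
      obtain ⟨x, rfl⟩ := QuotientAddGroup.mk_surjective q
      obtain ⟨n, β, hβ, rfl⟩ := (h3 L).1 x
      obtain ⟨k, a, ha⟩ := exists_clear F β
      have hfa : FInv F a := finv_of_unit F hF hβ.unit k a ha
      have hu : IsUnit (algebraMap S L F) := IsLocalization.Away.algebraMap_isUnit F
      have hm1 : (F ^ k • (1 : Matrix (Fin n) (Fin n) S)).map (algebraMap S L) =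
          (algebraMap S L F) ^ k • (1 : Matrix (Fin n) (Fin n) L) := by
        ext i j
        by_cases hij : i = j
        · subst hij; simp
        · simp [hij]
      have hun : IsUnit ((algebraMap S L F) ^ k • (1 : Matrix (Fin n) (Fin n) L)) := by
        rw [Matrix.isUnit_iff_isUnit_det, det_smul, det_one, mul_one]
        exact (hu.pow k).pow _
      have hk : kc (a.map (algebraMap S L)) =
          kc ((F ^ k • (1 : Matrix (Fin n) (Fin n) S)).map (algebraMap S L)) + kc β := by
        rw [hm1, ha, ← h2 L (Fin n) _ _ hun hβ, smul_mul_assoc, one_mul]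
      have e1 := hTa n a hfa
      have e2 := hTa n (F ^ k • (1 : Matrix (Fin n) (Fin n) S)) (finv_smul_one F k)
      have e3 : (QuotientAddGroup.mk (kc β) : K1 L ⧸ (K1map (algebraMap S L)).range) =
          T (cokM a) - T (cokM (F ^ k • (1 : Matrix (Fin n) (Fin n) S))) := by
        rw [e1, e2, hk, eq_sub_iff_add_eq, add_comm]
        rfl
      rw [e3]
      have := ψ.range.sub_mem (hmem _ hfa.killedPow) (hmem _ (finv_smul_one (ι := Fin n) F k).killedPow)
      exact this
    have hQ : AddGroup.FG (K1 L ⧸ (K1map (algebraMap S L)).range) := by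
      have : AddGroup.FG (G0 (S ⧸ Ideal.span {F})) := hG
      exact AddGroup.fg_of_surjective hsurj
    have hR : AddGroup.FG (K1map (algebraMap S L)).range := by
      have := hK
      exact AddGroup.fg_of_surjective (f := (K1map (algebraMap S L)).rangeRestrict)
        (AddMonoidHom.rangeRestrict_surjective _)
    exact loc_fg_ext _ hR hQ
  · intro hK
    have a₁ : IsAdd (KilledBy ((⊥ : Ideal (S ⧸ Ideal.span {F})).comap π))
        (fun M => G0.mk (desc π hπ M)) := isAdd_desc π hπ G0.isAdd_mk
    have hk : (⊥ : Ideal (S ⧸ Ideal.span {F})).comap π = Ideal.span {F} := hker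
    rw [hk] at a₁
    have a₂ := isAdd_dev a₁
    have hsurj : Surjective (bdryHom L F hF (dev F (fun M => G0.mk (desc π hπ M))) a₂) := by
      rw [← AddMonoidHom.range_eq_top, eq_top_iff, ← G0.closure_mk, AddSubgroup.closure_le]
      rintro _ ⟨N, rfl⟩
      have hN : KilledBy (Ideal.span {F}) (restr π hπ N) := by
        have h0 := killedBy_restr π hπ (G0.killedBy_bot N)
        intro s hs
        exact h0 s (by rw [hk]; exact hs)
      have key : dev F (fun M => G0.mk (desc π hπ M)) (restr π hπ N) = G0.mk N := by
        rw [dev_of_killedBy a₁ _ hN]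
        exact desc_restr π hπ G0.isAdd_mk N (G0.killedBy_bot N)
      rw [SetLike.mem_coe, ← key]
      refine mem_range_of_allFFR F hF a₂ hS (restr π hπ N) ⟨1, fun m => ?_⟩
      rw [pow_one]
      exact hN F (Ideal.mem_span_singleton_self F) m
    have := hK
    exact AddGroup.fg_of_surjective hsurj

end BassH
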