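import Pool.Agent.BassH.Stmts

/-!
# BassH: stably free modules form a resolving class
-/

set_option autoImplicit false

namespace BassH

open Pool.Agent.Helper11 Matrix Function

/-- a product of two free modules -/
noncomputable def sf_add (R : Type) [CommRing R] (a b : ℕ) :
    ((Fin a → R) × (Fin b → R)) ≃ₗ[R] (Fin (a + b) → R) :=
  (LinearEquiv.sumArrowLequivProdArrow (Fin a) (Fin b) R R).symm.trans
    (LinearEquiv.funCongrLeft R R finSumFinEquiv.symm)

theorem sf_pi (R : Type) [CommRing R] (k : ℕ) : SF R (FGMod.of R (Fin k → R)) :=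
  ⟨0, k + 0, ⟨sf_add R k 0⟩⟩

theorem sf_free (R : Type) [CommRing R] (M : FGMod R) (h : Module.Free R M) : SF R M := by
  classical
  rcases subsingleton_or_nontrivial R with hR | hR
  · have h1 : Subsingleton M := Module.subsingleton R M
    refine ⟨0, 0, ⟨?_⟩⟩
    exact { toFun := fun _ => 0, invFun := fun _ => (0, 0), map_add' := fun _ _ => by simp,
            map_smul' := fun _ _ => by simp, left_inv := fun _ => Subsingleton.elim _ _,
            right_inv := fun _ => Subsingleton.elim _ _ }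
  · let b := Module.finBasis R M
    refine ⟨0, Module.finrank R M + 0, ⟨?_⟩⟩
    exact (b.equivFun.prodCongr (LinearEquiv.refl R (Fin 0 → R))).trans
      (sf_add R (Module.finrank R M) 0)

theorem sf_iso {R : Type} [CommRing R] {M N : FGMod R} (e : M ≃ₗ[R] N) (h : SF R M) : SF R N := by
  obtain ⟨a, b, ⟨g⟩⟩ := h
  exact ⟨a, b, ⟨(e.symm.prodCongr (LinearEquiv.refl R (Fin a → R))).trans g⟩⟩

theorem sf_proj {R : Type} [CommRing R] {M : FGMod R} (h : SF R M) : Module.Projective R M := by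
  obtain ⟨a, b, ⟨g⟩⟩ := h
  refine Module.Projective.of_split (M := (Fin b → R)) (P := M)
    (g.toLinearMap ∘ₗ LinearMap.inl R M (Fin a → R))
    (LinearMap.fst R M (Fin a → R) ∘ₗ g.symm.toLinearMap) ?_
  ext m
  simp

/-- a short exact sequence with stably free quotient splits -/
theorem sf_split {R : Type} [CommRing R] {M' M M'' : FGMod R} {f : M' →ₗ[R] M}
    {g : M →ₗ[R] M''} (hf : Injective f) (hg : Surjective g) (hfg : Exact f g)
    (h : SF R M'') : Nonempty (M ≃ₗ[R] M' × M'') := by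
  have h1 := sf_proj h
  obtain ⟨s, hs⟩ := Module.projective_lifting_property g LinearMap.id hg
  exact ⟨(hfg.splitSurjectiveEquiv hf ⟨s, hs⟩).1⟩

theorem thm_SF : St_SF := by
  intro R _ _
  refine ⟨⟨⟨fun _ _ _ _ _ => trivial, fun _ _ _ _ _ => trivial⟩, fun _ _ _ _ => trivial,
    fun _ _ => trivial, fun M N e h => sf_iso e h, ?_, ?_, ?_⟩, ?_⟩
  · intro M' M M'' f g hf hg hfg _ h' h''
    obtain ⟨e⟩ := sf_split hf hg hfg h''
    obtain ⟨a, b, ⟨p⟩⟩ := h'
    obtain ⟨c, d, ⟨q⟩⟩ := h''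
    refine ⟨a + c, b + d, ⟨?_⟩⟩
    exact (e.prodCongr (sf_add R a c).symm).trans
      ((LinearEquiv.prodProdProdComm R M' M'' (Fin a → R) (Fin c → R)).trans
        ((p.prodCongr q).trans (sf_add R b d)))
  · intro M' M M'' f g hf hg hfg h h''
    obtain ⟨e⟩ := sf_split hf hg hfg h''
    obtain ⟨a, b, ⟨p⟩⟩ := h
    obtain ⟨c, d, ⟨q⟩⟩ := h''
    refine ⟨d + a, b + c, ⟨?_⟩⟩
    -- `M' × R^(d + a) ≅ M' × (M'' × R^c) × R^a ≅ (M × R^a) × R^c ≅ R^(b + c)`
    have e1 : (M' × (Fin (d + a) → R)) ≃ₗ[R] M' × (Fin d → R) × (Fin a → R) :=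
      (LinearEquiv.refl R M').prodCongr (sf_add R d a).symm
    have e2 : (M' × (Fin d → R) × (Fin a → R)) ≃ₗ[R] M' × (M'' × (Fin c → R)) × (Fin a → R) :=
      (LinearEquiv.refl R M').prodCongr (q.symm.prodCongr (LinearEquiv.refl R (Fin a → R)))
    have e3 : (M' × (M'' × (Fin c → R)) × (Fin a → R)) ≃ₗ[R]
        (M' × M'' × (Fin c → R)) × (Fin a → R) :=
      (LinearEquiv.prodAssoc R M' (M'' × (Fin c → R)) (Fin a → R)).symm
    have e4 : ((M' × M'' × (Fin c → R)) × (Fin a → R)) ≃ₗ[R]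
        ((M' × M'') × (Fin c → R)) × (Fin a → R) :=
      (LinearEquiv.prodAssoc R M' M'' (Fin c → R)).symm.prodCongr
        (LinearEquiv.refl R (Fin a → R))
    have e5 : (((M' × M'') × (Fin c → R)) × (Fin a → R)) ≃ₗ[R]
        (M × (Fin c → R)) × (Fin a → R) :=
      (e.symm.prodCongr (LinearEquiv.refl R (Fin c → R))).prodCongr
        (LinearEquiv.refl R (Fin a → R))
    have e6 : ((M × (Fin c → R)) × (Fin a → R)) ≃ₗ[R] M × (Fin c → R) × (Fin a → R) :=
      LinearEquiv.prodAssoc R M (Fin c → R) (Fin a → R)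
    have e7 : (M × (Fin c → R) × (Fin a → R)) ≃ₗ[R] M × (Fin a → R) × (Fin c → R) :=
      (LinearEquiv.refl R M).prodCongr (LinearEquiv.prodComm R (Fin c → R) (Fin a → R))
    have e8 : (M × (Fin a → R) × (Fin c → R)) ≃ₗ[R] (M × (Fin a → R)) × (Fin c → R) :=
      (LinearEquiv.prodAssoc R M (Fin a → R) (Fin c → R)).symm
    have e9 : ((M × (Fin a → R)) × (Fin c → R)) ≃ₗ[R] (Fin b → R) × (Fin c → R) :=
      p.prodCongr (LinearEquiv.refl R (Fin c → R))
    exact e1.trans (e2.trans (e3.trans (e4.trans (e5.trans (e6.trans (e7.trans (e8.trans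
      (e9.trans (sf_add R b c)))))))))
  · intro M _
    obtain ⟨n, p, hp⟩ := Module.Finite.exists_fin' R M
    exact ⟨FGMod.of R (Fin n → R), p, sf_pi R n, hp⟩
  · intro n
    induction n with
    | zero => exact fun M h => sf_free R M h
    | succ n ih =>
      rintro M ⟨k, K, i, p, hi, hp, hex, hK⟩
      exact ⟨K, FGMod.of R (Fin k → R), i, p, hi, hp, hex, sf_pi R k, ih K hK⟩

end BassH
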