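import Pool.Agent.BassH.KT
import Pool.Agent.BassH.SF
import Pool.Agent.BassH.Loc

/-!
# BassH, module Nil: the class of a nilpotent endomorphism vanishes
-/

set_option autoImplicit false

namespace BassH

open Pool.Agent.Helper11 Matrix Function Polynomial

theorem nil_isUnit {R : Type} [CommRing R] {n : ℕ} (N : Matrix (Fin n) (Fin n) R)
    (h : IsNilpotent N) : IsUnit (1 + (X : Polynomial R) • N.map C) := by
  have h1 : IsNilpotent (N.map (C : R →+* Polynomial R)) :=
    h.map ((C : R →+* Polynomial R).mapMatrix)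
  have h2 : IsNilpotent ((X : Polynomial R) • N.map (C : R →+* Polynomial R)) := by
    obtain ⟨k, hk⟩ := h1
    exact ⟨k, by rw [_root_.smul_pow, hk, smul_zero]⟩
  exact h2.isUnit_one_add

theorem nil_kc_one {A : Type} [CommRing A] {ι : Type} [Fintype ι] [DecidableEq ι] :
    kc (1 : Matrix ι ι A) = 0 := by
  have h := thm_KcMul A ι 1 1 isUnit_one isUnit_one
  rw [mul_one] at h
  exact add_eq_left.1 h.symm

theorem nil_block {R : Type} [CommRing R] {m n : ℕ} (N : Matrix (Fin m) (Fin m) R)
    (Y : Matrix (Fin m) (Fin n) R) (N' : Matrix (Fin n) (Fin n) R) (hN : IsNilpotent N)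
    (hN' : IsNilpotent N') :
    kc (1 + (X : Polynomial R) •
      ((fromBlocks N Y 0 N').submatrix finSumFinEquiv.symm finSumFinEquiv.symm).map C) =
    kc (1 + (X : Polynomial R) • N.map C) + kc (1 + (X : Polynomial R) • N'.map C) := by
  have h1 : (1 + (X : Polynomial R) •
      ((fromBlocks N Y 0 N').submatrix finSumFinEquiv.symm finSumFinEquiv.symm).map
        (C : R → Polynomial R)) =
      (fromBlocks (1 + (X : Polynomial R) • N.map (C : R → Polynomial R))
        ((X : Polynomial R) • Y.map (C : R → Polynomial R)) 0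
        (1 + (X : Polynomial R) • N'.map (C : R → Polynomial R))).submatrix
        finSumFinEquiv.symm finSumFinEquiv.symm := by
    have h2 : (fromBlocks (1 + (X : Polynomial R) • N.map (C : R → Polynomial R))
        ((X : Polynomial R) • Y.map (C : R → Polynomial R)) 0
        (1 + (X : Polynomial R) • N'.map (C : R → Polynomial R))) =
        1 + (X : Polynomial R) • (fromBlocks N Y 0 N').map (C : R → Polynomial R) := by
      rw [fromBlocks_map, fromBlocks_smul, ← fromBlocks_one, fromBlocks_add]
      congr 1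
      · rw [zero_add]
      · rw [Matrix.map_zero _ (map_zero _), smul_zero, add_zero]
    rw [h2, submatrix_add]
    simp only [Pi.add_apply]
    rw [submatrix_one_equiv, submatrix_smul]
    rfl
  have hu1 := nil_isUnit N hN
  have hu2 := nil_isUnit N' hN'
  rw [h1, thm_KcIdx _ _ _ finSumFinEquiv.symm _ ?_]
  · exact (thm_KcBlock _ _ _ _ _ _ 0 hu1 hu2).1
  · rw [Matrix.isUnit_iff_isUnit_det, det_fromBlocks_zero₂₁]
    exact ((Matrix.isUnit_iff_isUnit_det _).mp hu1).mul ((Matrix.isUnit_iff_isUnit_det _).mp hu2)

theorem nil_C_smul {R : Type} [CommRing R] {n : ℕ} (N : Matrix (Fin n) (Fin n) R) (r : R)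
    (m : Module.AEval' (Matrix.toLin' N)) :
    (Module.AEval'.of (Matrix.toLin' N)).symm ((Polynomial.C r : Polynomial R) • m) =
      r • (Module.AEval'.of (Matrix.toLin' N)).symm m := by
  rw [Module.AEval.C_smul, map_smul]

theorem thm_Nil (h1 : St_RL) (h2 : St_NilWD) (h3 : St_NilExt) (h4 : St_NilRes) : St_Nil := by
  classical
  intro R _ _ hR
  obtain ⟨hres, hdim⟩ := h4 R hR
  -- the class of a nilpotent module
  let T0 : FGMod (Polynomial R) → K1 (Polynomial R) := fun M =>
    if h : NilSF R M then
      kc (1 + (X : Polynomial R) • (h.choose_spec.choose_spec.choose).map C)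
    else 0
  have hT0 : ∀ (M : FGMod (Polynomial R)) (a b : ℕ) (N : Matrix (Fin b) (Fin b) R),
      IsNilpotent N → StNil M a N →
      T0 M = kc (1 + (X : Polynomial R) • N.map C) := by
    intro M a b N hN hs
    have hM : NilSF R M := ⟨a, b, N, hN, hs⟩
    have e0 : T0 M =
        kc (1 + (X : Polynomial R) • (hM.choose_spec.choose_spec.choose).map C) := by
      simp only [T0]
      rw [dif_pos hM]
    obtain ⟨hN', hs'⟩ := hM.choose_spec.choose_spec.choose_spec
    rw [e0]
    exact h2 R M M _ _ _ _ _ _ hN' hN hs' hs ⟨LinearEquiv.refl _ _⟩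
  have hadd : AddOn (NilSF R) T0 := by
    intro M' M M'' f g hf hg hfg hM' hM hM''
    obtain ⟨a, b, N, hN, hs⟩ := hM'
    obtain ⟨a'', b'', N'', hN'', hs''⟩ := hM''
    obtain ⟨Y, hY, hsY⟩ := h3 R M' M M'' f g hf hg hfg a b a'' b'' N N'' hN hN'' hs hs''
    rw [hT0 M _ _ _ hY hsY, hT0 M' _ _ _ hN hs, hT0 M'' _ _ _ hN'' hs'']
    exact nil_block N Y N'' hN hN''
  obtain ⟨T, hT, hTP⟩ := h1 (Polynomial R) (KilledPow (X : Polynomial R)) (NilSF R) hres hdim _
    T0 hadd
  -- modules killed by `X`
  let π : Polynomial R →+* R := Polynomial.constantCoeff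
  have hπC : ∀ r, π (C r) = r := fun r => by simp [π]
  have hπX : π (X : Polynomial R) = 0 := by simp [π]
  have hπ : Surjective π := fun r => ⟨C r, hπC r⟩
  have hkp : ∀ Q : FGMod R, KilledPow (X : Polynomial R) (restr π hπ Q) := fun Q =>
    ⟨1, fun x => by
      apply (restrEquiv π hπ Q).injective
      rw [pow_one, restrEquiv_smul, hπX, zero_smul, map_zero]⟩
  let χ : FGMod R → K1 (Polynomial R) := fun Q => T (restr π hπ Q)
  have hχ : ∀ (M' M M'' : FGMod R) (f : M' →ₗ[R] M) (g : M →ₗ[R] M''), Injective f →
      Surjective g → Exact f g → χ M = χ M' + χ M'' := by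
    intro M' M M'' f g hf hg hfg
    let f' : restr π hπ M' →ₗ[Polynomial R] restr π hπ M :=
      { toFun := fun x => (restrEquiv π hπ M).symm (f (restrEquiv π hπ M' x))
        map_add' := fun x y => by simp
        map_smul' := fun s x => by
          apply (restrEquiv π hπ M).injective
          rw [AddEquiv.apply_symm_apply, restrEquiv_smul, map_smul]
          rw [RingHom.id_apply, restrEquiv_smul, AddEquiv.apply_symm_apply] }
    let g' : restr π hπ M →ₗ[Polynomial R] restr π hπ M'' :=
      { toFun := fun x => (restrEquiv π hπ M'').symm (g (restrEquiv π hπ M x))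
        map_add' := fun x y => by simp
        map_smul' := fun s x => by
          apply (restrEquiv π hπ M'').injective
          rw [AddEquiv.apply_symm_apply, restrEquiv_smul, map_smul]
          rw [RingHom.id_apply, restrEquiv_smul, AddEquiv.apply_symm_apply] }
    exact hT.add _ _ _ f' g' hf hg hfg (hkp M)
  have hsf : ∀ Q, SF R Q → χ Q = 0 := by
    rintro Q ⟨a, b, ⟨g⟩⟩
    have hst : StNil (restr π hπ Q) a (0 : Matrix (Fin b) (Fin b) R) := by
      refine ⟨((restrEquiv π hπ Q).prodCongr (AddEquiv.refl (Fin a → R))).trans g.toAddEquiv,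
        ?_, ?_⟩
      · intro r m v
        show g (restrEquiv π hπ Q ((C r : Polynomial R) • m), r • v) =
          r • g (restrEquiv π hπ Q m, v)
        rw [restrEquiv_smul, hπC]
        exact map_smul g r (restrEquiv π hπ Q m, v)
      · intro m v
        show g (restrEquiv π hπ Q ((X : Polynomial R) • m), 0) = _
        rw [restrEquiv_smul, hπX, zero_smul, zero_mulVec]
        exact map_zero g
    show T (restr π hπ Q) = 0
    rw [hTP _ ⟨a, b, 0, IsNilpotent.zero, hst⟩, hT0 _ _ _ _ IsNilpotent.zero hst,
      Matrix.map_zero _ (map_zero _), smul_zero, add_zero, nil_kc_one]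
  have hdimv : ∀ (n : ℕ) (Q : FGMod R), Dim (SF R) n Q → χ Q = 0 := by
    intro n
    induction n with
    | zero => exact hsf
    | succ n ih =>
      rintro Q ⟨K, P, i, p, hi, hp, hex, hP, hK⟩
      have h5 := hχ K P Q i p hi hp hex
      rw [hsf P hP, ih K hK, zero_add] at h5
      exact h5.symm
  have hker : ∀ M : FGMod (Polynomial R), KilledBy (Ideal.span {(X : Polynomial R)}) M →
      T M ∈ (⊥ : AddSubgroup (K1 (Polynomial R))) := by
    intro M hM
    have hM2 : KilledBy (RingHom.ker π) M := by
      intro s hs m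
      refine hM s ?_ m
      rw [Ideal.mem_span_singleton]
      have h5 : π s = 0 := hs
      exact Polynomial.X_dvd_iff.mpr h5
    obtain ⟨e⟩ := loc_restr π hπ M hM2
    have hMp : KilledPow (X : Polynomial R) M :=
      ⟨1, fun m => by rw [pow_one]; exact hM X (Ideal.mem_span_singleton_self _) m⟩
    obtain ⟨n, hn⟩ := hR (desc π hπ M)
    rw [AddSubgroup.mem_bot, hT.iso e hMp]
    exact hdimv n _ ((thm_SF R).2 n _ hn)
  -- conclusion
  intro n N hN
  let M : FGMod (Polynomial R) :=
    FGMod.of (Polynomial R) (Module.AEval' (Matrix.toLin' N))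
  have hst : StNil M 0 N := by
    refine ⟨{ toFun := fun x => (Module.AEval'.of (Matrix.toLin' N)).symm x.1
              invFun := fun w => ((Module.AEval'.of (Matrix.toLin' N)) w, 0)
              left_inv := fun x => by
                refine Prod.ext ?_ (Subsingleton.elim _ _)
                exact LinearEquiv.apply_symm_apply _ _
              right_inv := fun w => LinearEquiv.symm_apply_apply _ _
              map_add' := fun x y => map_add _ _ _ }, ?_, ?_⟩
    · intro r m v
      exact nil_C_smul N r m
    · intro m v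
      show (Module.AEval'.of (Matrix.toLin' N)).symm ((X : Polynomial R) • m) =
        N.mulVec ((Module.AEval'.of (Matrix.toLin' N)).symm m)
      rw [← Matrix.toLin'_apply]
      exact Module.AEval.of_symm_X_smul _ _
  have hM : NilSF R M := ⟨0, n, N, hN, hst⟩
  obtain ⟨k, hk⟩ := hres.le M hM
  have h5 := loc_mem hT ⊥ hker k M hk
  rw [AddSubgroup.mem_bot, hTP M hM, hT0 M 0 n N hN hst] at h5
  exact h5

end BassH
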