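import Pool.Agent.BassH.Stmts

/-!
# BassH NilExt: extensions of nilpotent modules
-/

set_option autoImplicit false
set_option linter.style.haveILetI false

namespace BassH

open Pool.Agent.Helper11 Matrix Function

theorem nilext_nilpotent {R : Type} [CommRing R] {b b'' : ℕ} (N : Matrix (Fin b) (Fin b) R)
    (X : Matrix (Fin b) (Fin b'') R) (N'' : Matrix (Fin b'') (Fin b'') R) (hN : IsNilpotent N)
    (hN'' : IsNilpotent N'') :
    IsNilpotent ((fromBlocks N X 0 N'').submatrix finSumFinEquiv.symm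
      (finSumFinEquiv.symm : Fin (b + b'') ≃ Fin b ⊕ Fin b'')) := by
  obtain ⟨n, hn⟩ := hN
  obtain ⟨m, hm⟩ := hN''
  have key : ∀ k : ℕ, ∃ Y : Matrix (Fin b) (Fin b'') R,
      (fromBlocks N X 0 N'') ^ k = fromBlocks (N ^ k) Y 0 (N'' ^ k) := by
    intro k
    induction k with
    | zero => exact ⟨0, by rw [pow_zero, pow_zero, pow_zero, fromBlocks_one]⟩
    | succ k ih =>
      obtain ⟨Y, hY⟩ := ih
      refine ⟨N ^ k * X + Y * N'', ?_⟩
      rw [pow_succ, hY, fromBlocks_multiply]
      simp [pow_succ]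
  have hnil : IsNilpotent (fromBlocks N X 0 N'') := by
    obtain ⟨Y, hY⟩ := key (n + m)
    have e1 : N ^ (n + m) = 0 := by rw [pow_add, hn, zero_mul]
    have e2 : N'' ^ (n + m) = 0 := by rw [pow_add, hm, mul_zero]
    rw [e1, e2] at hY
    refine ⟨(n + m) * 2, ?_⟩
    rw [pow_mul, hY, pow_two, fromBlocks_multiply]
    simp
  let F : Matrix (Fin b ⊕ Fin b'') (Fin b ⊕ Fin b'') R ≃ₐ[R]
    Matrix (Fin (b + b'')) (Fin (b + b'')) R := Matrix.reindexAlgEquiv R R finSumFinEquiv
  have : (fromBlocks N X 0 N'').submatrix finSumFinEquiv.symm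
      (finSumFinEquiv.symm : Fin (b + b'') ≃ Fin b ⊕ Fin b'') = F (fromBlocks N X 0 N'') := rfl
  rw [this]
  exact hnil.map F

theorem thm_NilExt : St_NilExt := by
  intro R _ _ M' M M'' f g hf hg hfg a b a'' b'' N N'' hN hN'' hM' hM''
  obtain ⟨e', he', hx'⟩ := hM'
  obtain ⟨e'', he'', hx''⟩ := hM''
  letI i1 : Module R M' := Module.compHom M' (Polynomial.C : R →+* Polynomial R)
  letI i2 : Module R M := Module.compHom M (Polynomial.C : R →+* Polynomial R)
  letI i3 : Module R M'' := Module.compHom M'' (Polynomial.C : R →+* Polynomial R)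
  let fR : M' →ₗ[R] M := { f with map_smul' := fun r m => f.map_smul (Polynomial.C r) m }
  let gR : M →ₗ[R] M'' := { g with map_smul' := fun r m => g.map_smul (Polynomial.C r) m }
  let E' : (M' × (Fin a → R)) ≃ₗ[R] (Fin b → R) :=
    { e' with map_smul' := fun r x => he' r x.1 x.2 }
  let E'' : (M'' × (Fin a'' → R)) ≃ₗ[R] (Fin b'' → R) :=
    { e'' with map_smul' := fun r x => he'' r x.1 x.2 }
  have hX' : ∀ p : Fin b → R, E'.symm (N.mulVec p) =
      ((Polynomial.X : Polynomial R) • (E'.symm p).1, 0) := by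
    intro p
    rw [LinearEquiv.symm_apply_eq]
    have h1 : e' ((Polynomial.X : Polynomial R) • (E'.symm p).1, 0) =
        N.mulVec (e' ((E'.symm p).1, (E'.symm p).2)) := hx' _ _
    have h2 : e' ((E'.symm p).1, (E'.symm p).2) = p := E'.apply_symm_apply p
    rw [h2] at h1
    exact h1.symm
  have hX'' : ∀ p : Fin b'' → R, E''.symm (N''.mulVec p) =
      ((Polynomial.X : Polynomial R) • (E''.symm p).1, 0) := by
    intro p
    rw [LinearEquiv.symm_apply_eq]
    have h1 : e'' ((Polynomial.X : Polynomial R) • (E''.symm p).1, 0) =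
        N''.mulVec (e'' ((E''.symm p).1, (E''.symm p).2)) := hx'' _ _
    have h2 : e'' ((E''.symm p).1, (E''.symm p).2) = p := E''.apply_symm_apply p
    rw [h2] at h1
    exact h1.symm
  let G : (M × (Fin a'' → R)) →ₗ[R] (M'' × (Fin a'' → R)) := LinearMap.prodMap gR LinearMap.id
  have hG : Surjective G := by
    rintro ⟨y, v⟩
    obtain ⟨x, rfl⟩ := hg y
    exact ⟨(x, v), rfl⟩
  obtain ⟨σ, hσ⟩ := Module.projective_lifting_property G E''.symm.toLinearMap hG
  have hσ' : ∀ q, G (σ q) = E''.symm q := fun q => LinearMap.congr_fun hσ q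
  -- kernel of `G`
  have hker : ∀ x : M × (Fin a'' → R), G x = 0 → ∃ y : M', (fR y, (0 : Fin a'' → R)) = x := by
    rintro ⟨x, v⟩ hx
    have h1 : g x = 0 := congrArg Prod.fst hx
    have h2 : v = 0 := congrArg Prod.snd hx
    obtain ⟨y, hy⟩ := (hfg x).1 h1
    exact ⟨y, by rw [h2]; exact Prod.ext hy rfl⟩
  have hGf : ∀ y : M', G (fR y, 0) = 0 := by
    intro y
    exact Prod.ext ((hfg (f y)).2 ⟨y, rfl⟩) rfl
  -- the correction term
  let XM : M →ₗ[R] M :=
    { toFun := fun m => (Polynomial.X : Polynomial R) • m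
      map_add' := fun x y => smul_add _ _ _
      map_smul' := fun r m => by
        change (Polynomial.X : Polynomial R) • ((Polynomial.C r : Polynomial R) • m) =
          (Polynomial.C r : Polynomial R) • ((Polynomial.X : Polynomial R) • m)
        rw [smul_smul, smul_smul, mul_comm] }
  let D : (Fin b'' → R) →ₗ[R] (M × (Fin a'' → R)) :=
    (LinearMap.inl R M (Fin a'' → R)) ∘ₗ XM ∘ₗ (LinearMap.fst R M (Fin a'' → R)) ∘ₗ σ -
      σ ∘ₗ N''.mulVecLin
  have hD : ∀ q, D q = (XM (σ q).1, 0) - σ (N''.mulVec q) := fun q => rfl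
  have hGD : ∀ q, G (D q) = 0 := by
    intro q
    rw [hD, map_sub, hσ', hX'', ← hσ' q, sub_eq_zero]
    refine Prod.ext ?_ rfl
    change g ((Polynomial.X : Polynomial R) • (σ q).1) = (Polynomial.X : Polynomial R) • g (σ q).1
    rw [map_smul]
  let Ff : M' →ₗ[R] LinearMap.ker G :=
    LinearMap.codRestrict (LinearMap.ker G) ((LinearMap.inl R M (Fin a'' → R)) ∘ₗ fR)
      (fun y => hGf y)
  have hFf : Surjective Ff := by
    rintro ⟨x, hx⟩
    obtain ⟨y, hy⟩ := hker x hx
    exact ⟨y, Subtype.ext hy⟩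
  obtain ⟨Y, hY⟩ := Module.projective_lifting_property Ff
    (LinearMap.codRestrict (LinearMap.ker G) D (fun q => hGD q)) hFf
  have hY' : ∀ q, (fR (Y q), (0 : Fin a'' → R)) = D q := fun q =>
    congrArg Subtype.val (LinearMap.congr_fun hY q)
  let Xm : (Fin b'' → R) →ₗ[R] (Fin b → R) :=
    E'.toLinearMap ∘ₗ (LinearMap.inl R M' (Fin a → R)) ∘ₗ Y
  have hXm : ∀ q, E'.symm (Xm q) = (Y q, 0) := fun q => E'.symm_apply_apply _
  let X : Matrix (Fin b) (Fin b'') R := LinearMap.toMatrix' Xm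
  have hXv : ∀ q, X.mulVec q = Xm q := fun q => LinearMap.toMatrix'_mulVec Xm q
  refine ⟨X, nilext_nilpotent N X N'' hN hN'', ?_⟩
  -- the isomorphism
  let Φ : ((Fin b → R) × (Fin b'' → R)) →ₗ[R] ((M × (Fin a'' → R)) × (Fin a → R)) :=
    LinearMap.prod
      ((LinearMap.inl R M (Fin a'' → R)) ∘ₗ fR ∘ₗ (LinearMap.fst R M' (Fin a → R)) ∘ₗ
        E'.symm.toLinearMap ∘ₗ (LinearMap.fst R (Fin b → R) (Fin b'' → R)) +
        σ ∘ₗ (LinearMap.snd R (Fin b → R) (Fin b'' → R)))
      ((LinearMap.snd R M' (Fin a → R)) ∘ₗ E'.symm.toLinearMap ∘ₗ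
        (LinearMap.fst R (Fin b → R) (Fin b'' → R)))
  have hΦ : ∀ p q, Φ (p, q) = ((fR (E'.symm p).1, 0) + σ q, (E'.symm p).2) := fun p q => rfl
  have hinj : Injective Φ := by
    rw [injective_iff_map_eq_zero]
    rintro ⟨p, q⟩ h
    rw [hΦ] at h
    have h1 : (fR (E'.symm p).1, (0 : Fin a'' → R)) + σ q = 0 := congrArg Prod.fst h
    have h2 : (E'.symm p).2 = 0 := congrArg Prod.snd h
    have h3 : q = 0 := by
      have h4 := congrArg G h1
      rw [map_add, hGf, zero_add, hσ', map_zero] at h4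
      exact (map_eq_zero_iff _ E''.symm.injective).1 h4
    rw [h3, map_zero, add_zero] at h1
    have h5 : f (E'.symm p).1 = 0 := congrArg Prod.fst h1
    have h6 : (E'.symm p).1 = 0 := (map_eq_zero_iff f hf).1 h5
    have h7 : p = 0 := (map_eq_zero_iff _ E'.symm.injective).1 (Prod.ext h6 h2)
    rw [h3, h7]; rfl
  have hsurj : Surjective Φ := by
    rintro ⟨x, v⟩
    obtain ⟨y, hy⟩ := hker (x - σ (E'' (G x))) (by
      rw [map_sub, hσ', LinearEquiv.symm_apply_apply, sub_self])
    refine ⟨(E' (y, v), E'' (G x)), ?_⟩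
    rw [hΦ, LinearEquiv.symm_apply_apply]
    exact Prod.ext (by change (fR y, (0 : Fin a'' → R)) + σ (E'' (G x)) = x; rw [hy]; abel) rfl
  let P1 : (Fin (a + a'') → R) ≃ₗ[R] (Fin a → R) × (Fin a'' → R) :=
    (LinearEquiv.funCongrLeft R R finSumFinEquiv).trans
      (LinearEquiv.sumArrowLequivProdArrow (Fin a) (Fin a'') R R)
  let P2 : (Fin (b + b'') → R) ≃ₗ[R] (Fin b → R) × (Fin b'' → R) :=
    (LinearEquiv.funCongrLeft R R finSumFinEquiv).trans
      (LinearEquiv.sumArrowLequivProdArrow (Fin b) (Fin b'') R R)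
  let L : (M × (Fin (a + a'') → R)) ≃ₗ[R] ((M × (Fin a'' → R)) × (Fin a → R)) :=
    { toFun := fun x => ((x.1, (P1 x.2).2), (P1 x.2).1)
      invFun := fun y => (y.1.1, P1.symm (y.2, y.1.2))
      left_inv := fun x => Prod.ext rfl (by
        change P1.symm ((P1 x.2).1, (P1 x.2).2) = x.2
        exact P1.symm_apply_apply x.2)
      right_inv := fun y => by
        have h := P1.apply_symm_apply (y.2, y.1.2)
        refine Prod.ext (Prod.ext rfl ?_) ?_
        · change (P1 (P1.symm (y.2, y.1.2))).2 = y.1.2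
          rw [h]
        · change (P1 (P1.symm (y.2, y.1.2))).1 = y.2
          rw [h]
      map_add' := fun x y => by
        refine Prod.ext (Prod.ext rfl ?_) ?_
        · change (P1 (x.2 + y.2)).2 = _
          rw [map_add]; rfl
        · change (P1 (x.2 + y.2)).1 = _
          rw [map_add]; rfl
      map_smul' := fun r x => by
        refine Prod.ext (Prod.ext rfl ?_) ?_
        · change (P1 (r • x.2)).2 = _
          rw [map_smul]; rfl
        · change (P1 (r • x.2)).1 = _
          rw [map_smul]; rfl }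
  let E : (M × (Fin (a + a'') → R)) ≃ₗ[R] (Fin (b + b'') → R) :=
    L.trans ((LinearEquiv.ofBijective Φ ⟨hinj, hsurj⟩).symm.trans P2.symm)
  have hE : ∀ x p q, Φ (p, q) = L x → E x = P2.symm (p, q) := by
    intro x p q h
    change P2.symm ((LinearEquiv.ofBijective Φ ⟨hinj, hsurj⟩).symm (L x)) = _
    rw [← h]
    congr 1
    exact (LinearEquiv.ofBijective Φ ⟨hinj, hsurj⟩).symm_apply_apply (p, q)
  refine ⟨E.toAddEquiv, fun r m v => E.map_smul r (m, v), ?_⟩
  intro m v
  obtain ⟨⟨p, q⟩, hpq⟩ := hsurj (L (m, v))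
  have h1 : E (m, v) = P2.symm (p, q) := hE _ _ _ hpq
  have h2 : E ((Polynomial.X : Polynomial R) • m, 0) =
      P2.symm (N.mulVec p + X.mulVec q, N''.mulVec q) := by
    apply hE
    have e1 : L ((Polynomial.X : Polynomial R) • m, (0 : Fin (a + a'') → R)) =
        (((Polynomial.X : Polynomial R) • m, 0), 0) := by
      refine Prod.ext (Prod.ext rfl ?_) ?_
      · change (P1 0).2 = 0
        rw [map_zero]; rfl
      · change (P1 0).1 = 0
        rw [map_zero]; rfl
    rw [e1, hΦ, map_add, hX', hXv, hXm]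
    have e2 : fR (E'.symm p).1 + (σ q).1 = m := congrArg (fun z => z.1.1) hpq
    refine Prod.ext ?_ ?_
    · change (fR ((Polynomial.X : Polynomial R) • (E'.symm p).1 + Y q), (0 : Fin a'' → R)) +
        σ (N''.mulVec q) = ((Polynomial.X : Polynomial R) • m, 0)
      have e3 := hY' q
      rw [hD] at e3
      have e4 : σ (N''.mulVec q) = (XM (σ q).1, (0 : Fin a'' → R)) - (fR (Y q), 0) := by
        rw [e3]; abel
      rw [e4]
      refine Prod.ext ?_ ?_
      · change f ((Polynomial.X : Polynomial R) • (E'.symm p).1 + Y q) +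
          ((Polynomial.X : Polynomial R) • (σ q).1 - f (Y q)) = (Polynomial.X : Polynomial R) • m
        rw [← e2, map_add, map_smul, smul_add]
        change _ = (Polynomial.X : Polynomial R) • f (E'.symm p).1 +
          (Polynomial.X : Polynomial R) • (σ q).1
        abel
      · change (0 : Fin a'' → R) + (0 - 0) = 0
        rw [sub_zero, add_zero]
    · change (0 : Fin a → R) + 0 = 0
      rw [add_zero]
  change E ((Polynomial.X : Polynomial R) • m, 0) = _ *ᵥ (E (m, v))
  rw [h1, h2]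
  have hP2 : ∀ z : Fin (b + b'') → R, P2 z =
      ((z ∘ finSumFinEquiv) ∘ Sum.inl, (z ∘ finSumFinEquiv) ∘ Sum.inr) := fun z => rfl
  rw [LinearEquiv.symm_apply_eq, Matrix.submatrix_mulVec_equiv, fromBlocks_mulVec, hP2]
  have h3 : P2 (P2.symm (p, q)) = (p, q) := P2.apply_symm_apply _
  rw [hP2] at h3
  have h4 := congrArg Prod.fst h3
  have h5 := congrArg Prod.snd h3
  simp only at h4 h5
  refine Prod.ext ?_ ?_
  · funext i
    simp only [Function.comp_apply, Equiv.symm_apply_apply, Sum.elim_inl, Equiv.symm_symm]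
    rw [h4, h5]
  · funext i
    simp only [Function.comp_apply, Equiv.symm_apply_apply, Sum.elim_inr, Equiv.symm_symm]
    rw [h4, h5, Matrix.zero_mulVec, zero_add]

end BassH
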