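import Pool.Agent.BassH.Stmts

/-!
# BassH, module NilRes: nilpotent modules which are stably free over `R`
-/

set_option autoImplicit false

namespace BassH

open Pool.Agent.Helper11 Matrix Function Polynomial

/-- the cover `(R[X]/X^k)^n` -/
noncomputable abbrev nilres_P (R : Type) [CommRing R] (k n : ℕ) : FGMod (Polynomial R) :=
  FGMod.of (Polynomial R) (Fin n → (Polynomial R ⧸ Ideal.span {(X : Polynomial R) ^ k}))

theorem nilres_cover {R : Type} [CommRing R] (M : FGMod (Polynomial R)) (k : ℕ)
    (hk : ∀ m : M, (X : Polynomial R) ^ k • m = 0) :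
    ∃ (n : ℕ) (p : nilres_P R k n →ₗ[Polynomial R] M), Surjective p := by
  classical
  obtain ⟨n, p, hp⟩ := Module.Finite.exists_fin' (Polynomial R) M
  let φ : Fin n → ((Polynomial R ⧸ Ideal.span {(X : Polynomial R) ^ k}) →ₗ[Polynomial R] M) :=
    fun j => Submodule.liftQ _ (LinearMap.toSpanSingleton (Polynomial R) M (p (Pi.single j 1))) (by
      intro q hq
      obtain ⟨r, rfl⟩ := Ideal.mem_span_singleton'.mp hq
      rw [LinearMap.mem_ker, LinearMap.toSpanSingleton_apply, mul_smul, hk, smul_zero])
  refine ⟨n, ∑ j, (φ j) ∘ₗ LinearMap.proj j, ?_⟩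
  intro m
  obtain ⟨v, rfl⟩ := hp m
  refine ⟨fun j => Submodule.Quotient.mk (v j), ?_⟩
  rw [LinearMap.sum_apply]
  have h1 : ∀ j, ((φ j) ∘ₗ LinearMap.proj j) (fun j => Submodule.Quotient.mk (v j)) =
      v j • p (Pi.single j 1) := fun j => rfl
  simp_rw [h1, ← map_smul]
  rw [← map_sum]
  congr 1
  ext i
  rw [Finset.sum_apply]
  simp [Pi.single_apply]

theorem nilres_algsmul {R : Type} [CommRing R] (k n : ℕ) (r : R) (v : nilres_P R k n) :
    (C r : Polynomial R) • v = r • v := by
  rw [Polynomial.C_eq_algebraMap, algebraMap_smul]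

/-- the underlying `R`-module is finitely generated -/
theorem nilres_finite {R : Type} [CommRing R] (M : FGMod (Polynomial R))
    (h : KilledPow (X : Polynomial R) M) :
    @Module.Finite R M _ _ (Module.compHom M (C : R →+* Polynomial R)) := by
  obtain ⟨k, hk⟩ := h
  obtain ⟨n, p, hp⟩ := nilres_cover M k hk
  let : Module R M := Module.compHom M (C : R →+* Polynomial R)
  have : Module.Finite R (Polynomial R ⧸ Ideal.span {(X : Polynomial R) ^ k}) :=
    (Polynomial.monic_X_pow k).finite_quotient
  let q : (Fin n → (Polynomial R ⧸ Ideal.span {(X : Polynomial R) ^ k})) →ₗ[R] M :=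
    { toFun := p
      map_add' := map_add p
      map_smul' := fun r v => by
        have h1 : p ((C r : Polynomial R) • v) = (C r : Polynomial R) • p v := map_smul p _ v
        rw [← nilres_algsmul k n r v, h1]
        rfl }
  exact Module.Finite.of_surjective q hp

/-- the underlying `R`-module of a nilpotent module over `R[X]` -/
noncomputable def nilres_R {R : Type} [CommRing R] (M : FGMod (Polynomial R))
    (h : KilledPow (X : Polynomial R) M) : FGMod R :=
  @FGMod.mk R _ M.carrier _ (Module.compHom M (C : R →+* Polynomial R)) (nilres_finite M h)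

theorem nilres_smul {R : Type} [CommRing R] (M : FGMod (Polynomial R))
    (h : KilledPow (X : Polynomial R) M) (r : R) (m : nilres_R M h) :
    r • m = ((C r : Polynomial R) • (show M from m) : M) := rfl

/-- linear maps over `R[X]` are linear over `R` -/
noncomputable def nilres_map {R : Type} [CommRing R] {M N : FGMod (Polynomial R)}
    (hM : KilledPow (X : Polynomial R) M) (hN : KilledPow (X : Polynomial R) N)
    (f : M →ₗ[Polynomial R] N) : nilres_R M hM →ₗ[R] nilres_R N hN :=
  { toFun := f
    map_add' := map_add f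
    map_smul' := fun r m => map_smul f (C r : Polynomial R) (show M from m) }

theorem nilres_iff {R : Type} [CommRing R] (M : FGMod (Polynomial R)) :
    NilSF R M ↔ ∃ h : KilledPow (X : Polynomial R) M, SF R (nilres_R M h) := by
  classical
  constructor
  · rintro ⟨a, b, N, ⟨k, hk⟩, e, he1, he2⟩
    have hpow : ∀ (j : ℕ) (m : M), e ((X : Polynomial R) ^ j • m, 0) =
        (N ^ j).mulVec (e (m, 0)) := by
      intro j
      induction j with
      | zero => intro m; rw [pow_zero, pow_zero, one_smul, one_mulVec]
      | succ j ih =>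
        intro m
        rw [pow_succ', pow_succ', mul_smul, he2 _ 0, ih, mulVec_mulVec]
    have h : KilledPow (X : Polynomial R) M := by
      refine ⟨k, fun m => ?_⟩
      have h1 := hpow k m
      rw [hk, zero_mulVec] at h1
      have h2 := (map_eq_zero_iff e e.injective).mp h1
      exact congrArg Prod.fst h2
    refine ⟨h, a, b, ⟨?_⟩⟩
    exact { e with
      map_smul' := fun r x => he1 r x.1 x.2 }
  · rintro ⟨h, a, b, ⟨g⟩⟩
    let T : (nilres_R M h × (Fin a → R)) →ₗ[R] (nilres_R M h × (Fin a → R)) :=
      { toFun := fun x => ((X : Polynomial R) • (show M from x.1), 0)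
        map_add' := fun x y => by
          refine Prod.ext ?_ (by simp)
          exact smul_add (X : Polynomial R) (show M from x.1) (show M from y.1)
        map_smul' := fun r x => by
          refine Prod.ext ?_ (by simp)
          change (X : Polynomial R) • ((C r : Polynomial R) • (show M from x.1)) =
            (C r : Polynomial R) • ((X : Polynomial R) • (show M from x.1))
          rw [smul_comm] }
    let N : Matrix (Fin b) (Fin b) R :=
      LinearMap.toMatrix' (g.toLinearMap ∘ₗ T ∘ₗ g.symm.toLinearMap)
    have hN : ∀ w, N.mulVec w = g (T (g.symm w)) := fun w => by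
      have h1 : N.mulVecLin = g.toLinearMap ∘ₗ T ∘ₗ g.symm.toLinearMap :=
        Matrix.toLin'_toMatrix' _
      have h2 := LinearMap.congr_fun h1 w
      exact h2
    have hN2 : ∀ (m : M) (v : Fin a → R), g ((X : Polynomial R) • m, 0) =
        N.mulVec (g (m, v)) := by
      intro m v
      rw [hN, LinearEquiv.symm_apply_apply]
      rfl
    refine ⟨a, b, N, ?_, g.toAddEquiv, fun r m v => ?_, hN2⟩
    · obtain ⟨k, hk⟩ := h
      have hpow : ∀ (j : ℕ) (m : M) (v : Fin a → R),
          (N ^ (j + 1)).mulVec (g (m, v)) = g ((X : Polynomial R) ^ (j + 1) • m, 0) := by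
        intro j
        induction j with
        | zero => intro m v; rw [zero_add, pow_one, pow_one, hN2 m v]
        | succ j ih =>
          intro m v
          rw [pow_succ', ← mulVec_mulVec, ih, ← hN2 _ 0, pow_succ' _ (j + 1), mul_smul]
      refine ⟨k + 1, ?_⟩
      apply Matrix.toLin'.injective
      apply LinearMap.ext
      intro w
      rw [Matrix.toLin'_apply, map_zero, LinearMap.zero_apply]
      obtain ⟨⟨m, v⟩, rfl⟩ := g.surjective w
      have h3 : (X : Polynomial R) ^ (k + 1) • (show M from m) = 0 := by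
        rw [pow_succ', mul_smul, hk, smul_zero]
      rw [hpow k m v, h3]
      exact map_zero g
    · exact map_smul g r ((m, v) : nilres_R M h × (Fin a → R))

theorem nilres_cover_mem {R : Type} [CommRing R] [IsNoetherianRing R] (h2 : St_SF) (k n : ℕ) :
    NilSF R (nilres_P R k n) := by
  have h : KilledPow (X : Polynomial R) (nilres_P R k n) := by
    refine ⟨k, fun v => ?_⟩
    ext i
    obtain ⟨w, hw⟩ := Submodule.mkQ_surjective _ (v i)
    rw [Pi.smul_apply, ← hw, ← map_smul, Submodule.mkQ_apply, Pi.zero_apply,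
      Submodule.Quotient.mk_eq_zero, smul_eq_mul, mul_comm]
    exact Ideal.mul_mem_left _ _ (Ideal.mem_span_singleton_self _)
  rw [nilres_iff]
  refine ⟨h, (h2 R).2 0 _ ?_⟩
  have : Module.Finite R (Polynomial R ⧸ Ideal.span {(X : Polynomial R) ^ k}) :=
    (Polynomial.monic_X_pow k).finite_quotient
  have : Module.Free R (Polynomial R ⧸ Ideal.span {(X : Polynomial R) ^ k}) :=
    (Polynomial.monic_X_pow k).free_quotient
  let e : (Fin n → (Polynomial R ⧸ Ideal.span {(X : Polynomial R) ^ k})) ≃ₗ[R]
      nilres_R (nilres_P R k n) h :=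
    { AddEquiv.refl (Fin n → (Polynomial R ⧸ Ideal.span {(X : Polynomial R) ^ k})) with
      map_smul' := fun r v => (nilres_algsmul k n r v).symm }
  exact Module.Free.of_equiv e

theorem thm_NilRes (h1 : St_Shift) (h2 : St_SF) : St_NilRes := by
  intro R _ _ hR
  have hsf := (h2 R).1
  have hle : ∀ M, NilSF R M → KilledPow (X : Polynomial R) M := fun M hM =>
    ((nilres_iff M).mp hM).1
  have hen : ∀ M, KilledPow (X : Polynomial R) M →
      ∃ (P : FGMod (Polynomial R)) (p : P →ₗ[Polynomial R] M), NilSF R P ∧ Surjective p := by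
    rintro M ⟨k, hk⟩
    obtain ⟨n, p, hp⟩ := nilres_cover M k hk
    exact ⟨nilres_P R k n, p, nilres_cover_mem h2 k n, hp⟩
  have hex' : ∀ {M' M M'' : FGMod (Polynomial R)} (h' : KilledPow (X : Polynomial R) M')
      (h : KilledPow (X : Polynomial R) M) (h'' : KilledPow (X : Polynomial R) M'')
      (f : M' →ₗ[Polynomial R] M) (g : M →ₗ[Polynomial R] M''), Exact f g →
      Exact (nilres_map h' h f) (nilres_map h h'' g) := fun _ _ _ f g hfg x => hfg x
  refine ⟨⟨subQuot_killedPow _, ?_, hle, ?_, ?_, ?_, hen⟩, ?_⟩
  · rintro M N ⟨k, hk⟩ ⟨l, hl⟩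
    refine ⟨k + l, fun m => ?_⟩
    obtain ⟨x, y⟩ := m
    have hx : (X : Polynomial R) ^ (k + l) • x = 0 := by
      rw [add_comm, pow_add, mul_smul, hk, smul_zero]
    have hy : (X : Polynomial R) ^ (k + l) • y = 0 := by rw [pow_add, mul_smul, hl, smul_zero]
    exact Prod.ext hx hy
  · intro M N e hM
    obtain ⟨h, hs⟩ := (nilres_iff M).mp hM
    have hN : KilledPow (X : Polynomial R) N :=
      (subQuot_killedPow _).quot _ _ e.toLinearMap e.surjective h
    refine (nilres_iff N).mpr ⟨hN, hsf.iso (nilres_R M h) (nilres_R N hN) ?_ hs⟩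
    exact LinearEquiv.ofBijective (nilres_map h hN e.toLinearMap) e.bijective
  · intro M' M M'' f g hf hg hfg hM hM' hM''
    obtain ⟨h', hs'⟩ := (nilres_iff M').mp hM'
    obtain ⟨h'', hs''⟩ := (nilres_iff M'').mp hM''
    exact (nilres_iff M).mpr ⟨hM, hsf.ext (nilres_R M' h') (nilres_R M hM) (nilres_R M'' h'')
      (nilres_map h' hM f) (nilres_map hM h'' g) hf hg (hex' h' hM h'' f g hfg) trivial hs' hs''⟩
  · intro M' M M'' f g hf hg hfg hM hM''
    obtain ⟨h, hs⟩ := (nilres_iff M).mp hM
    obtain ⟨h'', hs''⟩ := (nilres_iff M'').mp hM''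
    have h' : KilledPow (X : Polynomial R) M' := (subQuot_killedPow _).sub M' M f hf h
    exact (nilres_iff M').mpr ⟨h', hsf.ker (nilres_R M' h') (nilres_R M h) (nilres_R M'' h'')
      (nilres_map h' h f) (nilres_map h h'' g) hf hg (hex' h' h h'' f g hfg) hs hs''⟩
  · -- finite dimension
    have key : ∀ (n : ℕ) (M : FGMod (Polynomial R)) (h : KilledPow (X : Polynomial R) M),
        Dim (SF R) n (nilres_R M h) → Dim (NilSF R) n M := by
      intro n
      induction n with
      | zero => exact fun M h hd => (nilres_iff M).mpr ⟨h, hd⟩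
      | succ n ih =>
        intro M hM hd
        obtain ⟨P, p, hP, hp⟩ := hen M hM
        obtain ⟨hP1, hP2⟩ := (nilres_iff P).mp hP
        let K : FGMod (Polynomial R) := FGMod.of (Polynomial R) (LinearMap.ker p)
        have hK : KilledPow (X : Polynomial R) K :=
          (subQuot_killedPow _).sub K P (LinearMap.ker p).subtype
            (LinearMap.ker p).subtype_injective hP1
        have hex : Exact (LinearMap.ker p).subtype p := fun x => by simp
        have hPn : ∀ m : ℕ, Dim (SF R) m (nilres_R P hP1) := by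
          intro m
          induction m with
          | zero => exact hP2
          | succ m ihm => exact (h1 R (fun _ => True) (SF R) hsf m).2.1 _ ihm trivial
        refine ⟨K, P, (LinearMap.ker p).subtype, p, (LinearMap.ker p).subtype_injective, hp, hex,
          hP, ih K hK ?_⟩
        exact (h1 R (fun _ => True) (SF R) hsf n).2.2 (nilres_R K hK) (nilres_R P hP1)
          (nilres_R M hM) (nilres_map hK hP1 (LinearMap.ker p).subtype) (nilres_map hP1 hM p)
          (LinearMap.ker p).subtype_injective hp (hex' hK hP1 hM _ _ hex) trivial (hPn n)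
          trivial hd
    intro M hM
    obtain ⟨n, hn⟩ := hR (nilres_R M hM)
    exact ⟨n, key n M hM ((h2 R).2 n _ hn)⟩

end BassH
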