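import Pool.Agent.BassH.Stmts

/-!
# BassH: two stable presentations of the same nilpotent module have the same class
-/

set_option autoImplicit false

namespace BassH

open Pool.Agent.Helper11 Matrix Function

/-- the matrix `1 + X N` -/
noncomputable def nilwd_W {R : Type} [CommRing R] {ι : Type} [DecidableEq ι]
    (N : Matrix ι ι R) : Matrix ι ι (Polynomial R) :=
  1 + (Polynomial.X : Polynomial R) • N.map Polynomial.C

theorem nilwd_kc_one (h1 : St_KcMul) (A : Type) [CommRing A] (ι : Type) [Fintype ι]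
    [DecidableEq ι] : kc (1 : Matrix ι ι A) = 0 := by
  have h := h1 A ι 1 1 isUnit_one isUnit_one
  rw [Matrix.mul_one] at h
  exact left_eq_add.1 h

theorem nilwd_unit {R : Type} [CommRing R] {ι : Type} [Fintype ι] [DecidableEq ι]
    (N : Matrix ι ι R) (hN : IsNilpotent N) : IsUnit (nilwd_W N) := by
  have h1 : IsNilpotent (N.map (Polynomial.C : R →+* Polynomial R)) :=
    hN.map (RingHom.mapMatrix (m := ι) (Polynomial.C (R := R)))
  have h2 : IsNilpotent ((Polynomial.X : Polynomial R) • N.map Polynomial.C) := h1.smul _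
  exact h2.isUnit_one_add

/-- conjugate matrices have the same class -/
theorem nilwd_conj (h1 : St_KcMul) {R : Type} [CommRing R] {ι : Type} [Fintype ι]
    [DecidableEq ι] (N N' P Q : Matrix ι ι R) (hN : IsNilpotent N) (hN' : IsNilpotent N')
    (hPQ : P * Q = 1) (h : P * N = N' * P) : kc (nilwd_W N) = kc (nilwd_W N') := by
  have hCmul : ∀ p q : Matrix ι ι R, (p * q).map (Polynomial.C : R →+* Polynomial R) =
      p.map Polynomial.C * q.map Polynomial.C := fun p q => Matrix.map_mul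
  have hPu : IsUnit P := IsUnit.of_mul_eq_one Q hPQ
  have hPC : IsUnit (P.map (Polynomial.C : R →+* Polynomial R)) :=
    hPu.map (RingHom.mapMatrix (m := ι) (Polynomial.C (R := R)))
  have hcomm : P.map Polynomial.C * nilwd_W N = nilwd_W N' * P.map Polynomial.C := by
    rw [nilwd_W, nilwd_W, Matrix.mul_add, Matrix.add_mul, Matrix.mul_one, Matrix.one_mul,
      Matrix.mul_smul, Matrix.smul_mul, ← hCmul, ← hCmul, h]
  have e1 := h1 (Polynomial R) ι _ _ hPC (nilwd_unit N hN)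
  have e2 := h1 (Polynomial R) ι _ _ (nilwd_unit N' hN') hPC
  rw [hcomm, e2, add_comm] at e1
  exact (add_left_cancel e1).symm

theorem nilwd_idx (h2 : St_KcIdx) {R : Type} [CommRing R] {ι κ : Type} [Fintype ι]
    [DecidableEq ι] [Fintype κ] [DecidableEq κ] (e : κ ≃ ι) (N : Matrix ι ι R)
    (hN : IsNilpotent N) : kc (nilwd_W (N.submatrix e e)) = kc (nilwd_W N) := by
  rw [← h2 (Polynomial R) ι κ e _ (nilwd_unit N hN)]
  congr 1
  ext1 i j
  simp only [nilwd_W, Matrix.submatrix_apply, Matrix.add_apply, Matrix.smul_apply,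
    Matrix.map_apply, Matrix.one_apply, e.injective.eq_iff]

theorem nilwd_block (h1 : St_KcMul) (h3 : St_KcBlock) {R : Type} [CommRing R] {ι κ : Type}
    [Fintype ι] [DecidableEq ι] [Fintype κ] [DecidableEq κ] (N : Matrix ι ι R)
    (hN : IsNilpotent N) :
    kc (nilwd_W (fromBlocks N 0 0 0 : Matrix (ι ⊕ κ) (ι ⊕ κ) R)) = kc (nilwd_W N) := by
  have h : nilwd_W (fromBlocks N 0 0 0 : Matrix (ι ⊕ κ) (ι ⊕ κ) R) =
      fromBlocks (nilwd_W N) 0 0 1 := by
    rw [nilwd_W, fromBlocks_map, Matrix.map_zero _ (map_zero _), Matrix.map_zero _ (map_zero _),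
      Matrix.map_zero _ (map_zero _), fromBlocks_smul, ← fromBlocks_one, fromBlocks_add]
    simp [nilwd_W]
  rw [h, (h3 (Polynomial R) ι κ (nilwd_W N) 1 0 0 (nilwd_unit N hN) isUnit_one).1,
    nilwd_kc_one h1, add_zero]

theorem nilwd_nilp_block {R : Type} [CommRing R] {ι κ : Type}
    [Fintype ι] [DecidableEq ι] [Fintype κ] [DecidableEq κ] (N : Matrix ι ι R)
    (hN : IsNilpotent N) : IsNilpotent (fromBlocks N 0 0 0 : Matrix (ι ⊕ κ) (ι ⊕ κ) R) := by
  obtain ⟨K, hK⟩ := hN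
  have h : ∀ j : ℕ, (fromBlocks N 0 0 0 : Matrix (ι ⊕ κ) (ι ⊕ κ) R) ^ (j + 1) =
      fromBlocks (N ^ (j + 1)) 0 0 0 := by
    intro j
    induction j with
    | zero => rw [zero_add, pow_one, pow_one]
    | succ m ih =>
      rw [pow_succ, ih, fromBlocks_multiply, ← pow_succ]
      simp
  refine ⟨K + 1, ?_⟩
  rw [h, pow_succ, hK, Matrix.zero_mul, fromBlocks_zero]

theorem nilwd_nilp_submatrix {R : Type} [CommRing R] {ι κ : Type} [Fintype ι]
    [DecidableEq ι] [Fintype κ] [DecidableEq κ] (e : κ ≃ ι) (N : Matrix ι ι R)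
    (hN : IsNilpotent N) : IsNilpotent (N.submatrix e e) := by
  obtain ⟨K, hK⟩ := hN
  refine ⟨K, ?_⟩
  have h : ∀ j : ℕ, (N.submatrix e e) ^ j = (N ^ j).submatrix e e := by
    intro j
    induction j with
    | zero => rw [pow_zero, pow_zero, Matrix.submatrix_one_equiv]
    | succ m ih => rw [pow_succ, pow_succ, ih, Matrix.submatrix_mul_equiv]
  rw [h, hK]
  rfl

/-- the comparison of two stable presentations -/
theorem nilwd_equiv {R : Type} [CommRing R] {M M' : FGMod (Polynomial R)} {a b a' b' : ℕ}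
    {N : Matrix (Fin b) (Fin b) R} {N' : Matrix (Fin b') (Fin b') R} (hM : StNil M a N)
    (hM' : StNil M' a' N') (φ : M ≃ₗ[Polynomial R] M') :
    ∃ Ψ : (Fin b ⊕ Fin a' → R) ≃ₗ[R] (Fin b' ⊕ Fin a → R), ∀ f : Fin b ⊕ Fin a' → R,
      Ψ ((fromBlocks N 0 0 0 : Matrix (Fin b ⊕ Fin a') (Fin b ⊕ Fin a') R).mulVec f) =
      (fromBlocks N' 0 0 0 : Matrix (Fin b' ⊕ Fin a) (Fin b' ⊕ Fin a) R).mulVec (Ψ f) := by
  obtain ⟨e, he1, he2⟩ := hM
  obtain ⟨e', he1', he2'⟩ := hM'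
  have hs : ∀ (r : R) (w : Fin b → R), e.symm (r • w) =
      ((Polynomial.C r : Polynomial R) • (e.symm w).1, r • (e.symm w).2) := by
    intro r w
    rw [AddEquiv.symm_apply_eq, he1]
    simp
  let F : (Fin b ⊕ Fin a' → R) → (Fin b' ⊕ Fin a → R) := fun f =>
    Sum.elim (e' (φ (e.symm (f ∘ Sum.inl)).1, f ∘ Sum.inr)) (e.symm (f ∘ Sum.inl)).2
  let G : (Fin b' ⊕ Fin a → R) → (Fin b ⊕ Fin a' → R) := fun g =>
    Sum.elim (e (φ.symm (e'.symm (g ∘ Sum.inl)).1, g ∘ Sum.inr)) (e'.symm (g ∘ Sum.inl)).2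
  have hGF : LeftInverse G F := by
    intro f
    have h1 : F f ∘ Sum.inl = e' (φ (e.symm (f ∘ Sum.inl)).1, f ∘ Sum.inr) := rfl
    have h2 : F f ∘ Sum.inr = (e.symm (f ∘ Sum.inl)).2 := rfl
    show Sum.elim (e (φ.symm (e'.symm (F f ∘ Sum.inl)).1, F f ∘ Sum.inr))
      (e'.symm (F f ∘ Sum.inl)).2 = f
    rw [h1, h2, AddEquiv.symm_apply_apply]
    simp only [LinearEquiv.symm_apply_apply, Prod.mk.eta, AddEquiv.apply_symm_apply]
    exact Sum.elim_comp_inl_inr f
  have hFG : Function.RightInverse G F := by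
    intro g
    have h1 : G g ∘ Sum.inl = e (φ.symm (e'.symm (g ∘ Sum.inl)).1, g ∘ Sum.inr) := rfl
    have h2 : G g ∘ Sum.inr = (e'.symm (g ∘ Sum.inl)).2 := rfl
    show Sum.elim (e' (φ (e.symm (G g ∘ Sum.inl)).1, G g ∘ Sum.inr))
      (e.symm (G g ∘ Sum.inl)).2 = g
    rw [h1, h2, AddEquiv.symm_apply_apply]
    simp only [LinearEquiv.apply_symm_apply, Prod.mk.eta, AddEquiv.apply_symm_apply]
    exact Sum.elim_comp_inl_inr g
  have hadd : ∀ f f', F (f + f') = F f + F f' := by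
    intro f f'
    have h1 : (f + f') ∘ Sum.inl = f ∘ Sum.inl + f' ∘ Sum.inl := rfl
    have h2 : (f + f') ∘ Sum.inr = f ∘ Sum.inr + f' ∘ Sum.inr := rfl
    show Sum.elim (e' (φ (e.symm ((f + f') ∘ Sum.inl)).1, (f + f') ∘ Sum.inr))
      (e.symm ((f + f') ∘ Sum.inl)).2 = _
    rw [h1, h2, map_add, Prod.fst_add, map_add, Prod.snd_add, ← Prod.mk_add_mk, map_add]
    funext s
    rcases s with s | s <;> rfl
  have hsm : ∀ (r : R) f, F (r • f) = r • F f := by
    intro r f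
    have h1 : (r • f) ∘ Sum.inl = r • (f ∘ Sum.inl) := rfl
    have h2 : (r • f) ∘ Sum.inr = r • (f ∘ Sum.inr) := rfl
    show Sum.elim (e' (φ (e.symm ((r • f) ∘ Sum.inl)).1, (r • f) ∘ Sum.inr))
      (e.symm ((r • f) ∘ Sum.inl)).2 = _
    rw [h1, h2, hs]
    dsimp only
    rw [map_smul, he1']
    funext s
    rcases s with s | s <;> rfl
  let L : (Fin b ⊕ Fin a' → R) →ₗ[R] (Fin b' ⊕ Fin a → R) :=
    { toFun := F
      map_add' := hadd
      map_smul' := hsm }
  refine ⟨LinearEquiv.ofBijective L ⟨hGF.injective, hFG.surjective⟩, ?_⟩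
  intro f
  show F ((fromBlocks N 0 0 0 : Matrix (Fin b ⊕ Fin a') (Fin b ⊕ Fin a') R).mulVec f) =
    (fromBlocks N' 0 0 0 : Matrix (Fin b' ⊕ Fin a) (Fin b' ⊕ Fin a) R).mulVec (F f)
  rw [fromBlocks_mulVec, fromBlocks_mulVec]
  simp only [Matrix.zero_mulVec, add_zero]
  have h1 : (F f) ∘ Sum.inl = e' (φ (e.symm (f ∘ Sum.inl)).1, f ∘ Sum.inr) := rfl
  rw [h1, ← he2']
  have h2 : N.mulVec (f ∘ Sum.inl) =
      e ((Polynomial.X : Polynomial R) • (e.symm (f ∘ Sum.inl)).1, 0) := by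
    rw [he2 _ (e.symm (f ∘ Sum.inl)).2, Prod.mk.eta, AddEquiv.apply_symm_apply]
  rw [h2]
  show Sum.elim (e' (φ (e.symm (Sum.elim _ _ ∘ Sum.inl)).1, Sum.elim _ _ ∘ Sum.inr))
      (e.symm (Sum.elim _ _ ∘ Sum.inl)).2 = _
  rw [Sum.elim_comp_inl, Sum.elim_comp_inr, AddEquiv.symm_apply_apply]
  dsimp only
  rw [map_smul]

theorem thm_NilWD (h1 : St_KcMul) (h2 : St_KcIdx) (h3 : St_KcBlock) : St_NilWD := by
  intro R _ M M' a b a' b' N N' hN hN' hM hM' hφ
  obtain ⟨φ⟩ := hφ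
  show kc (nilwd_W N) = kc (nilwd_W N')
  rcases subsingleton_or_nontrivial R with hR | hR
  · have e1 : nilwd_W N = 1 := by
      ext1 i j
      exact Subsingleton.elim _ _
    have e2 : nilwd_W N' = 1 := by
      ext1 i j
      exact Subsingleton.elim _ _
    rw [e1, e2, nilwd_kc_one h1, nilwd_kc_one h1]
  · obtain ⟨Ψ, hΨ⟩ := nilwd_equiv hM hM' φ
    have hcard : Fintype.card (Fin b ⊕ Fin a') = Fintype.card (Fin b' ⊕ Fin a) :=
      card_eq_of_linearEquiv R Ψ
    obtain ⟨σ⟩ : Nonempty ((Fin b ⊕ Fin a') ≃ (Fin b' ⊕ Fin a)) :=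
      ⟨Fintype.equivOfCardEq hcard⟩
    set P : Matrix (Fin b' ⊕ Fin a) (Fin b ⊕ Fin a') R := LinearMap.toMatrix' Ψ.toLinearMap
      with hP
    set Q : Matrix (Fin b ⊕ Fin a') (Fin b' ⊕ Fin a) R :=
      LinearMap.toMatrix' Ψ.symm.toLinearMap with hQ
    have hPQ : P * Q = 1 := by
      rw [hP, hQ, ← LinearMap.toMatrix'_comp, LinearEquiv.comp_coe, LinearEquiv.symm_trans_self,
        LinearEquiv.refl_toLinearMap, LinearMap.toMatrix'_id]
    set A : Matrix (Fin b ⊕ Fin a') (Fin b ⊕ Fin a') R := fromBlocks N 0 0 0 with hA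
    set A' : Matrix (Fin b' ⊕ Fin a) (Fin b' ⊕ Fin a) R := fromBlocks N' 0 0 0 with hA'
    have hcomm : P * A = A' * P := by
      have h : ∀ f, (P * A).mulVec f = (A' * P).mulVec f := by
        intro f
        rw [← Matrix.mulVec_mulVec, ← Matrix.mulVec_mulVec, hP, LinearMap.toMatrix'_mulVec,
          LinearMap.toMatrix'_mulVec]
        exact hΨ f
      exact Matrix.mulVec_injective (funext h)
    have hnA : IsNilpotent A := nilwd_nilp_block N hN
    have hnA' : IsNilpotent A' := nilwd_nilp_block N' hN'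
    have k1 : kc (nilwd_W A) = kc (nilwd_W (A'.submatrix σ σ)) := by
      refine nilwd_conj h1 A (A'.submatrix σ σ) (P.submatrix σ id) (Q.submatrix id σ) hnA
        (nilwd_nilp_submatrix σ A' hnA') ?_ ?_
      · rw [← Matrix.submatrix_mul P Q σ id σ bijective_id, hPQ, Matrix.submatrix_one_equiv]
      · rw [← Matrix.submatrix_mul A' P σ σ id σ.bijective, ← hcomm,
          Matrix.submatrix_mul P A σ id id bijective_id, Matrix.submatrix_id_id]
    rw [nilwd_idx h2 σ A' hnA', hA, hA', nilwd_block h1 h3 N hN, nilwd_block h1 h3 N' hN'] at k1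
    exact k1

end BassH
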