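import Pool.Agent.BassH.Stmts

/-!
# BassH, module Shift: dimension shift for resolving classes
-/

set_option autoImplicit false

namespace BassH

open Pool.Agent.Helper11 Matrix Function

variable {Λ : Type} [CommRing Λ]

/-- Modules with a resolution of length one by modules of the class `Pc`. -/
def ShiftOne (Pc : FGMod Λ → Prop) (M : FGMod Λ) : Prop :=
  ∃ (K P : FGMod Λ) (i : K →ₗ[Λ] P) (p : P →ₗ[Λ] M), Injective i ∧ Surjective p ∧
    Exact i p ∧ Pc P ∧ Pc K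

/-- Claim A: comparison of two resolutions by a pull-back. -/
theorem shift_A [IsNoetherianRing Λ] {Cc Pc : FGMod Λ → Prop} (h : Resolving Cc Pc)
    {P1 P0 K P M : FGMod Λ} (i1 : P1 →ₗ[Λ] P0) (p0 : P0 →ₗ[Λ] M) (i : K →ₗ[Λ] P)
    (p : P →ₗ[Λ] M) (hi1 : Injective i1) (hp0 : Surjective p0) (h1 : Exact i1 p0)
    (hi : Injective i) (hp : Surjective p) (h2 : Exact i p)
    (hP1 : Pc P1) (hP0 : Pc P0) (hP : Pc P) :
    ∃ (E : FGMod Λ) (a : P1 →ₗ[Λ] E) (b : E →ₗ[Λ] P) (c : K →ₗ[Λ] E) (d : E →ₗ[Λ] P0),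
      Injective a ∧ Surjective b ∧ Exact a b ∧ Injective c ∧ Surjective d ∧ Exact c d ∧
      Pc E ∧ Pc K := by
  let E' : Submodule Λ (P × P0) :=
    LinearMap.eqLocus (p.comp (LinearMap.fst Λ P P0)) (p0.comp (LinearMap.snd Λ P P0))
  have hE' : ∀ x : P × P0, x ∈ E' ↔ p x.1 = p0 x.2 := fun x => Iff.rfl
  let a : P1 →ₗ[Λ] E' := LinearMap.codRestrict E' ((LinearMap.inr Λ P P0).comp i1) (fun x => by
    rw [hE']
    show p 0 = p0 (i1 x)
    rw [map_zero, h1.apply_apply_eq_zero])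
  let b : E' →ₗ[Λ] P := (LinearMap.fst Λ P P0).comp E'.subtype
  let c : K →ₗ[Λ] E' := LinearMap.codRestrict E' ((LinearMap.inl Λ P P0).comp i) (fun x => by
    rw [hE']
    show p (i x) = p0 0
    rw [map_zero, h2.apply_apply_eq_zero])
  let d : E' →ₗ[Λ] P0 := (LinearMap.snd Λ P P0).comp E'.subtype
  have ha : Injective a := by
    intro x y hxy
    have := congrArg (fun z : E' => z.1.2) hxy
    exact hi1 this
  have hc : Injective c := by
    intro x y hxy
    have := congrArg (fun z : E' => z.1.1) hxy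
    exact hi this
  have hb : Surjective b := by
    intro x
    obtain ⟨y, hy⟩ := hp0 (p x)
    exact ⟨⟨(x, y), (hE' _).mpr hy.symm⟩, rfl⟩
  have hd : Surjective d := by
    intro y
    obtain ⟨x, hx⟩ := hp (p0 y)
    exact ⟨⟨(x, y), (hE' _).mpr hx⟩, rfl⟩
  have hab : Exact a b := by
    intro z
    obtain ⟨⟨x, y⟩, hz⟩ := z
    constructor
    · intro hx
      have hx' : x = 0 := hx
      subst hx'
      have h3 : p0 y = 0 := by
        have := (hE' _).mp hz
        simpa using this.symm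
      obtain ⟨w, hw⟩ := (h1 y).mp h3
      refine ⟨w, Subtype.ext ?_⟩
      show ((0 : P), i1 w) = (0, y)
      rw [hw]
    · rintro ⟨w, hw⟩
      have := congrArg (fun z : E' => z.1.1) hw
      exact this.symm
  have hcd : Exact c d := by
    intro z
    obtain ⟨⟨x, y⟩, hz⟩ := z
    constructor
    · intro hx
      have hx' : y = 0 := hx
      subst hx'
      have h3 : p x = 0 := by
        have := (hE' _).mp hz
        simpa using this
      obtain ⟨w, hw⟩ := (h2 x).mp h3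
      refine ⟨w, Subtype.ext ?_⟩
      show (i w, (0 : P0)) = (x, 0)
      rw [hw]
    · rintro ⟨w, hw⟩
      have := congrArg (fun z : E' => z.1.2) hw
      exact this.symm
  have hCE : Cc (FGMod.of Λ E') :=
    h.sq.sub (FGMod.of Λ E') (FGMod.of Λ (P × P0)) E'.subtype E'.subtype_injective
      (h.sum P P0 (h.le P hP) (h.le P0 hP0))
  have hE : Pc (FGMod.of Λ E') := h.ext P1 (FGMod.of Λ E') P a b ha hb hab hCE hP1 hP
  exact ⟨FGMod.of Λ E', a, b, c, d, ha, hb, hab, hc, hd, hcd, hE,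
    h.ker K (FGMod.of Λ E') P0 c d hc hd hcd hE hP0⟩

/-- the zero module -/
theorem shift_zero {Cc Pc : FGMod Λ → Prop} (h : Resolving Cc Pc) (M : FGMod Λ) (hM : Pc M) :
    Pc (FGMod.of Λ PUnit.{1}) := by
  refine h.ker (FGMod.of Λ PUnit.{1}) M M 0 LinearMap.id (fun x y _ => Subsingleton.elim _ _)
    Function.surjective_id (fun x => ?_) hM hM
  constructor
  · intro hx
    exact ⟨0, by rw [map_zero]; exact hx.symm⟩
  · rintro ⟨y, hy⟩
    exact hy.symm

theorem shift_one_of {Cc Pc : FGMod Λ → Prop} (h : Resolving Cc Pc) (M : FGMod Λ) (hM : Pc M) :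
    ShiftOne Pc M := by
  refine ⟨FGMod.of Λ PUnit.{1}, M, 0, LinearMap.id, fun x y _ => Subsingleton.elim _ _,
    Function.surjective_id, fun x => ?_, hM, shift_zero h M hM⟩
  constructor
  · intro hx
    exact ⟨0, by rw [map_zero]; exact hx.symm⟩
  · rintro ⟨y, hy⟩
    exact hy.symm

/-- Kernels for a surjection `q` onto the middle term of a short exact sequence. -/
theorem shift_pull [IsNoetherianRing Λ] {A B C P : FGMod Λ} (f : A →ₗ[Λ] B) (g : B →ₗ[Λ] C)
    (q : P →ₗ[Λ] B) (hf : Injective f) (hg : Surjective g) (hfg : Exact f g)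
    (hq : Surjective q) :
    ∃ (KB KC : FGMod Λ) (iB : KB →ₗ[Λ] P) (iC : KC →ₗ[Λ] P) (j : KB →ₗ[Λ] KC)
      (r : KC →ₗ[Λ] A), Injective iB ∧ Exact iB q ∧ Injective iC ∧ Surjective (g.comp q) ∧
      Exact iC (g.comp q) ∧ Injective j ∧ Surjective r ∧ Exact j r := by
  let r : LinearMap.ker (g.comp q) →ₗ[Λ] A :=
    (LinearEquiv.ofInjective f hf).symm.toLinearMap.comp
      (LinearMap.codRestrict (LinearMap.range f) (q.comp (LinearMap.ker (g.comp q)).subtype)
        (fun x => (hfg _).mp x.2))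
  have hr : ∀ x, f (r x) = q x.1 := by
    intro x
    have := LinearEquiv.apply_symm_apply (LinearEquiv.ofInjective f hf)
      (LinearMap.codRestrict (LinearMap.range f) (q.comp (LinearMap.ker (g.comp q)).subtype)
        (fun x => (hfg _).mp x.2) x)
    exact congrArg Subtype.val this
  let j : LinearMap.ker q →ₗ[Λ] LinearMap.ker (g.comp q) :=
    Submodule.inclusion (fun x hx => by
      show g (q x) = 0
      rw [LinearMap.mem_ker.mp hx, map_zero])
  refine ⟨FGMod.of Λ (LinearMap.ker q), FGMod.of Λ (LinearMap.ker (g.comp q)),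
    (LinearMap.ker q).subtype, (LinearMap.ker (g.comp q)).subtype, j, r,
    Submodule.subtype_injective _, LinearMap.exact_subtype_ker_map q,
    Submodule.subtype_injective _, hg.comp hq,
    LinearMap.exact_subtype_ker_map (g.comp q), Submodule.inclusion_injective _, ?_, ?_⟩
  · intro a
    obtain ⟨x, hx⟩ := hq (f a)
    refine ⟨⟨x, ?_⟩, hf ?_⟩
    · show g (q x) = 0
      rw [hx, hfg.apply_apply_eq_zero]
    · rw [hr]
      exact hx
  · intro x
    constructor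
    · intro hx
      have h1 : q x.1 = 0 := by
        rw [← hr, hx, map_zero]
      exact ⟨⟨x.1, h1⟩, rfl⟩
    · rintro ⟨y, hy⟩
      apply hf
      rw [hr, ← hy, map_zero]
      exact y.2

/-- Claim B: the modules of dimension at most one form a resolving class. -/
theorem shift_B [IsNoetherianRing Λ] {Cc Pc : FGMod Λ → Prop} (h : Resolving Cc Pc) :
    Resolving Cc (fun M => Cc M ∧ ShiftOne Pc M) where
  sq := h.sq
  sum := h.sum
  le M hM := hM.1
  iso := by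
    rintro M N e ⟨hM, K, P, i, p, hi, hp, hip, hP, hK⟩
    refine ⟨h.sq.quot M N e.toLinearMap e.surjective hM, K, P, i, e.toLinearMap.comp p, hi,
      e.surjective.comp hp, fun x => ?_, hP, hK⟩
    rw [← hip x]
    show e (p x) = 0 ↔ _
    rw [LinearEquiv.map_eq_zero_iff]
  ext := by
    rintro A B C f g hf hg hfg hB ⟨hA, K1, P1, i1, p1, hi1, hp1, hip1, hP1, hK1⟩
      ⟨hC, K2, P2, i2, p2, hi2, hp2, hip2, hP2, hK2⟩
    obtain ⟨P, q, hP, hq⟩ := h.enough B hB
    obtain ⟨KB, KC, iB, iC, j, r, hiB, hBq, hiC, hgq, hCq, hj, hr, hjr⟩ :=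
      shift_pull f g q hf hg hfg hq
    obtain ⟨_, _, _, _, _, _, _, _, _, _, _, _, hKC⟩ := shift_A h i2 p2 iC (g.comp q) hi2 hp2
      hip2 hiC hgq hCq hK2 hP2 hP
    obtain ⟨_, _, _, _, _, _, _, _, _, _, _, _, hKB⟩ := shift_A h i1 p1 j r hi1 hp1
      hip1 hj hr hjr hK1 hP1 hKC
    exact ⟨hB, KB, P, iB, q, hiB, hq, hBq, hP, hKB⟩
  ker := by
    rintro A B C f g hf hg hfg ⟨hB, K1, P1, i1, p1, hi1, hp1, hip1, hP1, hK1⟩
      ⟨hC, K2, P2, i2, p2, hi2, hp2, hip2, hP2, hK2⟩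
    obtain ⟨P, q, hP, hq⟩ := h.enough B hB
    obtain ⟨KB, KC, iB, iC, j, r, hiB, hBq, hiC, hgq, hCq, hj, hr, hjr⟩ :=
      shift_pull f g q hf hg hfg hq
    obtain ⟨_, _, _, _, _, _, _, _, _, _, _, _, hKC⟩ := shift_A h i2 p2 iC (g.comp q) hi2 hp2
      hip2 hiC hgq hCq hK2 hP2 hP
    obtain ⟨_, _, _, _, _, _, _, _, _, _, _, _, hKB⟩ := shift_A h i1 p1 iB q hi1 hp1
      hip1 hiB hq hBq hK1 hP1 hP
    exact ⟨h.sq.sub A B f hf hB, KB, KC, j, r, hj, hr, hjr, hKC, hKB⟩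
  enough M hM := by
    obtain ⟨P, p, hP, hp⟩ := h.enough M hM
    exact ⟨P, p, ⟨h.le P hP, shift_one_of h P hP⟩, hp⟩

theorem shift_congr {Cc Pc Qc : FGMod Λ → Prop} (h : Resolving Cc Pc)
    (hPQ : ∀ M, Pc M ↔ Qc M) : Resolving Cc Qc := by
  have : Pc = Qc := funext fun M => propext (hPQ M)
  rwa [this] at h

/-- the next dimension -/
theorem shift_succ_iff [IsNoetherianRing Λ] {Cc Pc : FGMod Λ → Prop} (h : Resolving Cc Pc)
    (n : ℕ) (hn : Resolving Cc (fun M => Cc M ∧ Dim Pc n M))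
    (h0 : ∀ M, Pc M → Dim Pc n M) (M : FGMod Λ) (hM : Cc M) :
    ShiftOne (fun M => Cc M ∧ Dim Pc n M) M ↔ Dim Pc (n + 1) M := by
  constructor
  · rintro ⟨K, P, i, p, hi, hp, hip, hP, hK⟩
    obtain ⟨P', p', hP', hp'⟩ := h.enough M hM
    obtain ⟨_, _, _, _, _, _, _, _, _, _, _, _, hK'⟩ := shift_A hn
      (K := FGMod.of Λ (LinearMap.ker p')) i p (LinearMap.ker p').subtype p' hi hp
      hip (Submodule.subtype_injective _) hp' (LinearMap.exact_subtype_ker_map p') hK hP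
      ⟨h.le P' hP', h0 P' hP'⟩
    exact ⟨_, P', _, p', Submodule.subtype_injective _, hp',
      LinearMap.exact_subtype_ker_map p', hP', hK'.2⟩
  · rintro ⟨K, P, i, p, hi, hp, hip, hP, hK⟩
    exact ⟨K, P, i, p, hi, hp, hip, ⟨h.le P hP, h0 P hP⟩,
      h.sq.sub K P i hi (h.le P hP), hK⟩

theorem shift_main [IsNoetherianRing Λ] {Cc Pc : FGMod Λ → Prop} (h : Resolving Cc Pc) :
    ∀ n : ℕ, Resolving Cc (fun M => Cc M ∧ Dim Pc n M) ∧ (∀ M, Pc M → Dim Pc n M) ∧
      (∀ M, Dim Pc n M → Cc M → Dim Pc (n + 1) M)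
  | 0 => ⟨shift_congr h (fun M => ⟨fun hM => ⟨h.le M hM, hM⟩, fun hM => hM.2⟩),
      fun M hM => hM, fun M hM _ => shift_one_of h M hM⟩
  | n + 1 => by
    obtain ⟨h1, h2, h3⟩ := shift_main h n
    refine ⟨shift_congr (shift_B h1) (fun M => and_congr_right fun hM =>
      shift_succ_iff h n h1 h2 M hM), fun M hM => h3 M (h2 M hM) (h.le M hM), ?_⟩
    rintro M ⟨K, P, i, p, hi, hp, hip, hP, hK⟩ hM
    exact ⟨K, P, i, p, hi, hp, hip, hP, h3 K hK (h.sq.sub K P i hi (h.le P hP))⟩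

theorem thm_Shift : St_Shift := by
  intro Λ _ _ Cc Pc h n
  obtain ⟨h1, h2, h3⟩ := shift_main h n
  refine ⟨h1, h3, ?_⟩
  rintro K P M i p hi hp hip hCP hP hM ⟨K1, P1, i1, p1, hi1, hp1, hip1, hP1, hK1⟩
  obtain ⟨_, _, _, _, _, _, _, _, _, _, _, _, hK'⟩ := shift_A h1 i1 p1 i p hi1 hp1 hip1 hi hp
    hip ⟨h.sq.sub K1 P1 i1 hi1 (h.le P1 hP1), hK1⟩ ⟨h.le P1 hP1, h2 P1 hP1⟩ ⟨hCP, hP⟩
  exact hK'.2

end BassH
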