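import Pool.Agent.BassH.Dim2

/-!
# BassH: the unconditional cases (closed subschemes of the affine line over `ℤ` and of the affine
plane over `𝔽_p`)
-/

set_option autoImplicit false
set_option linter.style.haveILetI false
set_option linter.unusedSectionVars false

namespace BassH

open Function MvPolynomial
open Pool.Agent.Helper11 (G0)
open Pool.Agent.Helper67.Bass (base_good)

attribute [local instance] MvPolynomial.weightedGradedAlgebra

theorem small_all_hom {k : Type} [CommRing k] {n : ℕ} (I : Ideal (MvPolynomial (Fin n) k)) :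
    I.IsHomogeneous (weightedHomogeneousSubmodule k (fun _ : Fin n => (0 : ℤ))) := by
  classical
  intro i p hp
  have e : ((DirectSum.decompose (weightedHomogeneousSubmodule k (fun _ : Fin n => (0 : ℤ))) p
      i : weightedHomogeneousSubmodule k (fun _ : Fin n => (0 : ℤ)) i) :
      MvPolynomial (Fin n) k) = weightedHomogeneousComponent (fun _ : Fin n => (0 : ℤ)) i p :=
    weightedDecomposition.decompose'_apply k (fun _ : Fin n => (0 : ℤ)) p i
  rw [e]
  have hw : ∀ v : Fin n →₀ ℕ, Finsupp.weight (fun _ : Fin n => (0 : ℤ)) v = 0 := by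
    intro v
    rw [Finsupp.weight_apply]
    simp [Finsupp.sum]
  by_cases hi : i = 0
  · subst hi
    have : weightedHomogeneousComponent (fun _ : Fin n => (0 : ℤ)) 0 p = p := by
      ext v
      rw [coeff_weightedHomogeneousComponent, hw, if_pos rfl]
    rw [this]; exact hp
  · have : weightedHomogeneousComponent (fun _ : Fin n => (0 : ℤ)) i p = 0 := by
      ext v
      rw [coeff_weightedHomogeneousComponent, hw, if_neg (fun h => hi h.symm), coeff_zero]
    rw [this]; exact zero_mem _

theorem thm_Small (m : ℕ) (d : ℕ) (h0 : m = 0 → d = 0) (h1 : d ≤ 1)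
    (I : Ideal (MvPolynomial (Fin (d + 1)) (ZMod m))) :
    FG0 (MvPolynomial (Fin (d + 1)) (ZMod m) ⧸ I) := by
  refine (base_good (fun _ : Fin (d + 1) => (0 : ℤ)) m ?_ I (small_all_hom I)).fg
  have h2 : Module.finrank ℤ (LinearMap.ker (Fintype.linearCombination ℤ
      (fun _ : Fin (d + 1) => (0 : ℤ)))) ≤ d + 1 := by
    refine (Submodule.finrank_le _).trans ?_
    rw [Module.finrank_fin_fun]
  refine h2.trans ?_
  split_ifs with h
  · rw [h0 h]
  · omega

end BassH
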