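import Pool.Agent.BassH.Stmts

/-!
# BassH, module Tors: the torsion functional
-/

set_option autoImplicit false

namespace BassH

open Pool.Agent.Helper11 Matrix Function

/-- a matrix which becomes invertible after inverting `F` -/
lemma tors_isUnit {S L : Type} [CommRing S] [CommRing L] [Algebra S L] (F : S)
    [IsLocalization.Away F L] {ι : Type} [Fintype ι] [DecidableEq ι] {a : Matrix ι ι S}
    (ha : FInv F a) : IsUnit (a.map (algebraMap S L)) := by
  obtain ⟨b, k, hb⟩ := ha
  have hu : IsUnit (algebraMap S L F) := IsLocalization.Away.algebraMap_isUnit F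
  rw [Matrix.isUnit_iff_isUnit_det]
  have := congrArg (fun m : Matrix ι ι S => (m.map (algebraMap S L)).det) hb
  have h1 : (a * b).map (algebraMap S L) = a.map (algebraMap S L) * b.map (algebraMap S L) :=
    Matrix.map_mul
  have h2 : (F ^ k • (1 : Matrix ι ι S)).map (algebraMap S L) =
      (algebraMap S L F) ^ k • (1 : Matrix ι ι L) := by
    ext i j
    by_cases hij : i = j
    · subst hij; simp
    · simp [hij]
  simp only [h1, h2, det_mul, det_smul, det_one, mul_one] at this
  exact isUnit_of_mul_isUnit_left (this ▸ (hu.pow k).pow _)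

lemma tors_isUnit_blocks {A : Type} [CommRing A] {ι κ : Type} [Fintype ι] [DecidableEq ι]
    [Fintype κ] [DecidableEq κ] {M : Matrix ι ι A} {N : Matrix κ κ A} (X : Matrix ι κ A)
    (hM : IsUnit M) (hN : IsUnit N) : IsUnit (fromBlocks M X 0 N) := by
  rw [Matrix.isUnit_iff_isUnit_det] at *
  rw [det_fromBlocks_zero₂₁]
  exact hM.mul hN

theorem thm_Tors (h1 : St_RL) (h2 : St_TorsWD) (h3 : St_TorsExt) (h4 : St_TorsRes)
    (h5 : St_KcBlock) (h6 : St_KcIdx) : St_Tors := by
  classical
  intro S L _ _ _ _ _ F _ hF hS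
  obtain ⟨hres, hdim⟩ := h4 S F hF hS
  -- the class of a module with a square presentation
  let T0 : FGMod S → K1 L ⧸ (K1map (algebraMap S L)).range := fun M =>
    if h : Tors1 F M then
      QuotientAddGroup.mk (kc (h.choose_spec.choose.map (algebraMap S L)))
    else 0
  have hT0 : ∀ (M : FGMod S) (n : ℕ) (a : Matrix (Fin n) (Fin n) S), FInv F a →
      Nonempty (cokM a ≃ₗ[S] M) → T0 M = QuotientAddGroup.mk (kc (a.map (algebraMap S L))) := by
    intro M n a ha he
    have hM : Tors1 F M := ⟨n, a, ha, he⟩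
    have e0 : T0 M = QuotientAddGroup.mk (kc (hM.choose_spec.choose.map (algebraMap S L))) := by
      simp only [T0]
      rw [dif_pos hM]
    obtain ⟨hb, ⟨e1⟩⟩ := hM.choose_spec.choose_spec
    obtain ⟨e2⟩ := he
    have h := h2 S L F hF n hM.choose a hM.choose_spec.choose ha hb ⟨e2.trans e1.symm⟩
    rw [e0, eq_comm, ← sub_eq_zero]
    have h' := (QuotientAddGroup.eq_zero_iff _).mpr h
    exact h'
  have hadd : AddOn (Tors1 F) T0 := by
    intro M' M M'' f g hf hg hfg hM' hM hM''
    obtain ⟨n, a, ha, ⟨ea⟩⟩ := hM'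
    obtain ⟨m, b, hb, ⟨eb⟩⟩ := hM''
    obtain ⟨X, hX, heX⟩ := h3 S F hF n m a b ha hb M' M M'' f g hf hg hfg ea eb
    let A : Matrix (Fin n ⊕ Fin m) (Fin n ⊕ Fin m) L :=
      fromBlocks (a.map (algebraMap S L)) (X.map (algebraMap S L)) 0 (b.map (algebraMap S L))
    have hua : IsUnit (a.map (algebraMap S L)) := tors_isUnit F ha
    have hub : IsUnit (b.map (algebraMap S L)) := tors_isUnit F hb
    have hA : IsUnit A := tors_isUnit_blocks _ hua hub
    have hmap : ((fromBlocks a X 0 b).submatrix finSumFinEquiv.symm finSumFinEquiv.symm).map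
        (algebraMap S L) = A.submatrix finSumFinEquiv.symm finSumFinEquiv.symm := by
      rw [← submatrix_map, fromBlocks_map, Matrix.map_zero _ (map_zero _)]
    have hk : kc (((fromBlocks a X 0 b).submatrix finSumFinEquiv.symm finSumFinEquiv.symm).map
        (algebraMap S L)) = kc (a.map (algebraMap S L)) + kc (b.map (algebraMap S L)) := by
      rw [hmap, h6 L (Fin n ⊕ Fin m) (Fin (n + m)) finSumFinEquiv.symm A hA]
      exact (h5 L (Fin n) (Fin m) _ _ _ 0 hua hub).1
    rw [hT0 M _ _ hX heX, hT0 M' n a ha ⟨ea⟩, hT0 M'' m b hb ⟨eb⟩, hk]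
    rfl
  obtain ⟨T, hT, hTP⟩ := h1 S (KilledPow F) (Tors1 F) hres hdim _ T0 hadd
  refine ⟨T, hT, fun n a ha => ?_⟩
  rw [hTP (cokM a) ⟨n, a, ha, ⟨LinearEquiv.refl S _⟩⟩]
  exact hT0 (cokM a) n a ha ⟨LinearEquiv.refl S _⟩

end BassH
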