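import Pool.Agent.BassH.Stmts

/-!
# BassH: horseshoe lemma for square presentations
-/

set_option autoImplicit false

namespace BassH

open Pool.Agent.Helper11 Matrix Function

theorem torsext_finv {S : Type} [CommRing S] (F : S) {n m : ℕ} {a : Matrix (Fin n) (Fin n) S}
    {b : Matrix (Fin m) (Fin m) S} (ha : FInv F a) (hb : FInv F b) (X : Matrix (Fin n) (Fin m) S) :
    FInv F ((fromBlocks a X 0 b).submatrix finSumFinEquiv.symm finSumFinEquiv.symm) := by
  obtain ⟨a', k, ha'⟩ := ha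
  obtain ⟨b', l, hb'⟩ := hb
  refine ⟨(fromBlocks (F ^ l • a') (-(a' * X * b')) 0 (F ^ k • b')).submatrix finSumFinEquiv.symm
    finSumFinEquiv.symm, k + l, ?_⟩
  rw [submatrix_mul_equiv, fromBlocks_multiply]
  have h1 : a * (F ^ l • a') + X * (0 : Matrix (Fin m) (Fin n) S) =
      F ^ (k + l) • (1 : Matrix (Fin n) (Fin n) S) := by
    rw [Matrix.mul_smul, ha', smul_smul, Matrix.mul_zero, add_zero, ← pow_add, add_comm]
  have h2 : a * (-(a' * X * b')) + X * (F ^ k • b') = 0 := by
    rw [Matrix.mul_neg, ← Matrix.mul_assoc, ← Matrix.mul_assoc, ha', Matrix.smul_mul,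
      Matrix.smul_mul, Matrix.one_mul, Matrix.mul_smul, neg_add_cancel]
  have h3 : (0 : Matrix (Fin m) (Fin n) S) * (F ^ l • a') +
      b * (0 : Matrix (Fin m) (Fin n) S) = 0 := by
    rw [Matrix.zero_mul, Matrix.mul_zero, add_zero]
  have h4 : (0 : Matrix (Fin m) (Fin n) S) * (-(a' * X * b')) + b * (F ^ k • b') =
      F ^ (k + l) • (1 : Matrix (Fin m) (Fin m) S) := by
    rw [Matrix.zero_mul, zero_add, Matrix.mul_smul, hb', smul_smul, ← pow_add]
  rw [h1, h2, h3, h4]
  have h5 : fromBlocks (F ^ (k + l) • (1 : Matrix (Fin n) (Fin n) S)) 0 0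
      (F ^ (k + l) • (1 : Matrix (Fin m) (Fin m) S)) =
      F ^ (k + l) • (1 : Matrix (Fin n ⊕ Fin m) (Fin n ⊕ Fin m) S) := by
    rw [← fromBlocks_one, fromBlocks_smul, smul_zero, smul_zero]
  rw [h5]
  ext i j
  simp [Matrix.one_apply]

theorem thm_TorsExt : St_TorsExt := by
  intro S _ _ _ F _ n m a b ha hb M' M M'' f g hf hg hfg e' e''
  let π : (Fin n → S) →ₗ[S] M' := e'.toLinearMap ∘ₗ (LinearMap.range a.mulVecLin).mkQ
  let ρ : (Fin m → S) →ₗ[S] M'' := e''.toLinearMap ∘ₗ (LinearMap.range b.mulVecLin).mkQ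
  have hπ : Surjective π := e'.surjective.comp (Submodule.mkQ_surjective _)
  have hρ : Surjective ρ := e''.surjective.comp (Submodule.mkQ_surjective _)
  have hπ0 : ∀ x, π x = 0 ↔ ∃ y, a.mulVec y = x := by
    intro x
    rw [show π x = e' (Submodule.Quotient.mk x) from rfl, LinearEquiv.map_eq_zero_iff,
      Submodule.Quotient.mk_eq_zero]
    exact Iff.rfl
  have hρ0 : ∀ x, ρ x = 0 ↔ ∃ y, b.mulVec y = x := by
    intro x
    rw [show ρ x = e'' (Submodule.Quotient.mk x) from rfl, LinearEquiv.map_eq_zero_iff,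
      Submodule.Quotient.mk_eq_zero]
    exact Iff.rfl
  obtain ⟨s, hs⟩ := Module.projective_lifting_property g ρ hg
  have hs' : ∀ y, g (s y) = ρ y := fun y => LinearMap.congr_fun hs y
  -- the lift of `- s b`
  let P1 : (Fin n → S) →ₗ[S] LinearMap.ker g := LinearMap.codRestrict (LinearMap.ker g) (f ∘ₗ π)
    (fun x => LinearMap.mem_ker.2 ((hfg _).2 ⟨π x, rfl⟩))
  let P2 : (Fin m → S) →ₗ[S] LinearMap.ker g := LinearMap.codRestrict (LinearMap.ker g)
    (-(s ∘ₗ b.mulVecLin)) (fun x => LinearMap.mem_ker.2 (by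
      rw [LinearMap.neg_apply, map_neg, LinearMap.comp_apply, hs', mulVecLin_apply,
        (hρ0 _).2 ⟨x, rfl⟩, neg_zero]))
  have hP1 : Surjective P1 := by
    rintro ⟨y, hy⟩
    obtain ⟨y', rfl⟩ := (hfg y).1 (LinearMap.mem_ker.1 hy)
    obtain ⟨x, rfl⟩ := hπ y'
    exact ⟨x, Subtype.ext rfl⟩
  obtain ⟨x', hx'⟩ := Module.projective_lifting_property P1 P2 hP1
  have hX : ∀ z, f (π ((LinearMap.toMatrix' x').mulVec z)) = -s (b.mulVec z) := by
    intro z
    rw [LinearMap.toMatrix'_mulVec]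
    exact congrArg Subtype.val (LinearMap.congr_fun hx' z)
  generalize LinearMap.toMatrix' x' = X at hX
  refine ⟨X, torsext_finv F ha hb X, ⟨?_⟩⟩
  -- the surjection
  let Ψ : (Fin (n + m) → S) →ₗ[S] M :=
    (f ∘ₗ π) ∘ₗ (LinearMap.funLeft S S (Fin.castAdd m)) +
      s ∘ₗ (LinearMap.funLeft S S (Fin.natAdd n))
  have hΨ : ∀ x, Ψ x = f (π (x ∘ Fin.castAdd m)) + s (x ∘ Fin.natAdd n) := fun x => rfl
  have hsurj : Surjective Ψ := by
    intro y
    obtain ⟨z, hz⟩ := hρ (g y)
    have h1 : g (y - s z) = 0 := by rw [map_sub, hs', hz, sub_self]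
    obtain ⟨w, hw⟩ := (hfg _).1 h1
    obtain ⟨x, rfl⟩ := hπ w
    refine ⟨Fin.append x z, ?_⟩
    rw [hΨ]
    have h2 : Fin.append x z ∘ Fin.castAdd m = x := by
      funext i
      simp
    have h3 : Fin.append x z ∘ Fin.natAdd n = z := by
      funext i
      simp
    rw [h2, h3, hw]
    abel
  set A := (fromBlocks a X 0 b).submatrix (finSumFinEquiv (m := n) (n := m)).symm
    (finSumFinEquiv (m := n) (n := m)).symm with hA
  have hmul : ∀ v : Fin (n + m) → S, A.mulVec v =
      Fin.append (a.mulVec (v ∘ Fin.castAdd m) + X.mulVec (v ∘ Fin.natAdd n))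
        (b.mulVec (v ∘ Fin.natAdd n)) := by
    intro v
    rw [hA, submatrix_mulVec_equiv, fromBlocks_mulVec]
    have h1 : (v ∘ ⇑(finSumFinEquiv (m := n) (n := m)).symm.symm) ∘ Sum.inl =
        v ∘ Fin.castAdd m := by
      funext i
      simp
    have h2 : (v ∘ ⇑(finSumFinEquiv (m := n) (n := m)).symm.symm) ∘ Sum.inr =
        v ∘ Fin.natAdd n := by
      funext i
      simp
    rw [h1, h2]
    funext i
    refine Fin.addCases (fun i => ?_) (fun i => ?_) i
    · simp
    · simp
  have hker : LinearMap.range A.mulVecLin = LinearMap.ker Ψ := by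
    ext x
    rw [LinearMap.mem_range, LinearMap.mem_ker]
    constructor
    · rintro ⟨v, rfl⟩
      rw [mulVecLin_apply, hmul, hΨ]
      have h2 : ∀ (p : Fin n → S) (q : Fin m → S), Fin.append p q ∘ Fin.castAdd m = p := by
        intro p q
        funext i
        simp
      have h3 : ∀ (p : Fin n → S) (q : Fin m → S), Fin.append p q ∘ Fin.natAdd n = q := by
        intro p q
        funext i
        simp
      rw [h2, h3, map_add, map_add, hX, (hπ0 _).2 ⟨_, rfl⟩, map_zero]
      abel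
    · intro hx
      rw [hΨ] at hx
      have h1 : ρ (x ∘ Fin.natAdd n) = 0 := by
        have h2 := congrArg g hx
        rw [map_add, map_zero, hs', (hfg _).2 ⟨_, rfl⟩, zero_add] at h2
        exact h2
      obtain ⟨z, hz⟩ := (hρ0 _).1 h1
      have h2 : π (x ∘ Fin.castAdd m - X.mulVec z) = 0 := by
        refine hf ?_
        rw [map_zero, map_sub, map_sub, hX, hz, sub_neg_eq_add]
        exact hx
      obtain ⟨w, hw⟩ := (hπ0 _).1 h2
      refine ⟨Fin.append w z, ?_⟩
      rw [mulVecLin_apply, hmul]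
      have h3 : Fin.append w z ∘ Fin.castAdd m = w := by
        funext i
        simp
      have h4 : Fin.append w z ∘ Fin.natAdd n = z := by
        funext i
        simp
      rw [h3, h4, hw, hz]
      funext i
      refine Fin.addCases (fun i => ?_) (fun i => ?_) i
      · simp
      · simp
  exact (Submodule.quotEquivOfEq _ _ hker).trans (Ψ.quotKerEquivOfSurjective hsurj)

end BassH
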