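import Pool.Agent.BassH.Stmts

/-!
# BassH, module TorsRes: torsion modules with a square presentation form a resolving class
-/

set_option autoImplicit false

namespace BassH

open Pool.Agent.Helper11 Matrix Function

/-- a torsion module with a free resolution of length one has a square presentation -/
theorem torsres_of_ffr {S : Type} [CommRing S] [IsDomain S] [IsNoetherianRing S] {F : S}
    (hF : F ≠ 0) (T : FGMod S) (hT : KilledPow F T) (h : FFR 1 T) : Tors1 F T := by
  obtain ⟨k, p, hp, hK⟩ := (FFR.succ_iff 0 T).mp h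
  have hfree : Module.Free S (LinearMap.ker p) := hK
  obtain ⟨e, he⟩ := hT
  have hFe : F ^ e ≠ 0 := pow_ne_zero _ hF
  have hmem : ∀ v : Fin k → S, F ^ e • v ∈ LinearMap.ker p := fun v => by
    rw [LinearMap.mem_ker, map_smul, he]
  have hrank : Module.finrank S (LinearMap.ker p) = k := by
    apply le_antisymm
    · have := LinearMap.finrank_le_finrank_of_injective
        (f := (LinearMap.ker p).subtype) (LinearMap.ker p).subtype_injective
      simpa using this
    · let j : (Fin k → S) →ₗ[S] LinearMap.ker p :=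
        LinearMap.codRestrict _ (LinearMap.lsmul S (Fin k → S) (F ^ e)) hmem
      have hj : Injective j := by
        rw [injective_iff_map_eq_zero]
        intro v hv
        have : F ^ e • v = 0 := congrArg Subtype.val hv
        exact (smul_eq_zero.mp this).resolve_left hFe
      have := LinearMap.finrank_le_finrank_of_injective (f := j) hj
      simpa using this
  let b := Module.finBasisOfFinrankEq S (LinearMap.ker p) hrank
  let eq : (Fin k → S) ≃ₗ[S] LinearMap.ker p := b.equivFun.symm
  let a : Matrix (Fin k) (Fin k) S :=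
    LinearMap.toMatrix' ((LinearMap.ker p).subtype ∘ₗ eq.toLinearMap)
  have ha : a.mulVecLin = (LinearMap.ker p).subtype ∘ₗ eq.toLinearMap := by
    have := Matrix.toLin'_toMatrix' ((LinearMap.ker p).subtype ∘ₗ eq.toLinearMap)
    exact this
  have hrange : LinearMap.range a.mulVecLin = LinearMap.ker p := by
    rw [ha, LinearMap.range_comp, LinearEquiv.range, Submodule.map_top, Submodule.range_subtype]
  have hinv : FInv F a := by
    have hex : ∀ i : Fin k, ∃ w : Fin k → S, a.mulVecLin w = F ^ e • Pi.single i 1 := by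
      intro i
      have : F ^ e • (Pi.single i (1 : S) : Fin k → S) ∈ LinearMap.range a.mulVecLin := by
        rw [hrange]; exact hmem _
      exact this
    choose w hw using hex
    refine ⟨Matrix.of (fun i j => w j i), e, ?_⟩
    ext i j
    have := congrFun (hw j) i
    rw [mulVecLin_apply] at this
    rw [Matrix.mul_apply]
    change a.mulVec (w j) i = _
    rw [this]
    by_cases hij : i = j
    · subst hij; simp
    · simp [hij, Pi.single_apply]
  have hiso : (cokM a) ≃ₗ[S] T :=
    (Submodule.quotEquivOfEq _ _ hrange).trans (p.quotKerEquivOfSurjective hp)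
  exact ⟨k, a, hinv, ⟨hiso⟩⟩

/-- modules of stably free dimension one have free resolutions of length one -/
theorem torsres_ffr_of_dim {S : Type} [CommRing S] [IsNoetherianRing S] (M : FGMod S)
    (h : Dim (SF S) 1 M) : FFR 1 M := by
  obtain ⟨K, P, i, p, hi, hp, hex, ⟨a, b, ⟨eP⟩⟩, ⟨c, d, ⟨eK⟩⟩⟩ := h
  -- the surjection `(P × S^a) × S^c → M`
  let q : ((P × (Fin a → S)) × (Fin c → S)) →ₗ[S] M :=
    p ∘ₗ (LinearMap.fst S P (Fin a → S)) ∘ₗ (LinearMap.fst S (P × (Fin a → S)) (Fin c → S))
  have hfr : Module.Free S (P × (Fin a → S)) := Module.Free.of_equiv eP.symm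
  refine FFR.succ_of_free 0 M ((P × (Fin a → S)) × (Fin c → S)) q ?_ ?_
  · intro m
    obtain ⟨x, hx⟩ := hp m
    exact ⟨((x, 0), 0), hx⟩
  · -- the kernel
    have hker : ∀ x : (P × (Fin a → S)) × (Fin c → S), x ∈ LinearMap.ker q ↔ p x.1.1 = 0 :=
      fun x => Iff.rfl
    let f : ((K × (Fin c → S)) × (Fin a → S)) →ₗ[S] LinearMap.ker q :=
      LinearMap.codRestrict (LinearMap.ker q)
        ((((i ∘ₗ LinearMap.fst S K (Fin c → S)) ∘ₗ
            LinearMap.fst S (K × (Fin c → S)) (Fin a → S)).prod
          (LinearMap.snd S (K × (Fin c → S)) (Fin a → S))).prod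
          ((LinearMap.snd S K (Fin c → S)) ∘ₗ
            LinearMap.fst S (K × (Fin c → S)) (Fin a → S)))
        (fun x => by
          rw [hker]
          exact hex.apply_apply_eq_zero _)
    have hf : ∀ x, (f x : (P × (Fin a → S)) × (Fin c → S)) = ((i x.1.1, x.2), x.1.2) :=
      fun x => rfl
    have hbij : Bijective f := by
      constructor
      · intro x y hxy
        have h1 := congrArg Subtype.val hxy
        rw [hf, hf] at h1
        have h2 := congrArg (fun z => z.1.1) h1
        have h3 := congrArg (fun z => z.1.2) h1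
        have h4 := congrArg (fun z => z.2) h1
        exact Prod.ext (Prod.ext (hi h2) h4) h3
      · rintro ⟨⟨⟨x, v⟩, w⟩, hx⟩
        have hx' : p x = 0 := hx
        obtain ⟨y, hy⟩ := (hex x).mp hx'
        refine ⟨((y, w), v), Subtype.ext ?_⟩
        rw [hf]
        exact Prod.ext (Prod.ext hy rfl) rfl
    have hfree : Module.Free S (K × (Fin c → S)) := Module.Free.of_equiv eK.symm
    exact Module.Free.of_equiv (LinearEquiv.ofBijective f hbij)

/-- torsion modules with a square presentation have stably free dimension at most one -/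
theorem torsres_dim_of_tors {S : Type} [CommRing S] [IsDomain S] [IsNoetherianRing S] {F : S}
    (hF : F ≠ 0) (h2 : St_SF) (M : FGMod S) (h : Tors1 F M) : Dim (SF S) 1 M := by
  obtain ⟨n, a, ha, ⟨e⟩⟩ := h
  refine (h2 S).2 1 M ⟨n, FGMod.of S (Fin n → S), a.mulVecLin,
    e.toLinearMap ∘ₗ Submodule.mkQ _, ha.injective hF,
    e.surjective.comp (Submodule.mkQ_surjective _), ?_,
    (inferInstance : Module.Free S (Fin n → S))⟩
  intro x
  rw [LinearMap.comp_apply, LinearEquiv.coe_coe, LinearEquiv.map_eq_zero_iff,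
    Submodule.mkQ_apply, Submodule.Quotient.mk_eq_zero]
  exact Iff.rfl

theorem thm_TorsRes (h1 : St_Shift) (h2 : St_SF) : St_TorsRes := by
  intro S _ _ _ F hF hS
  have hle : ∀ M, Tors1 F M → KilledPow F M := by
    rintro M ⟨n, a, ha, ⟨e⟩⟩
    exact (subQuot_killedPow F).quot _ _ e.toLinearMap e.surjective ha.killedPow
  have hd : ∀ M : FGMod S, KilledPow F M → (Dim (SF S) 1 M ↔ Tors1 F M) := fun M hM =>
    ⟨fun h => torsres_of_ffr hF M hM (torsres_ffr_of_dim M h),
      fun h => torsres_dim_of_tors hF h2 M h⟩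
  obtain ⟨hres, hmono, -⟩ := h1 S (fun _ => True) (SF S) (h2 S).1 1
  have hen : ∀ M, KilledPow F M → ∃ (P : FGMod S) (p : P →ₗ[S] M), Tors1 F P ∧ Surjective p := by
    intro M hM
    obtain ⟨k, hk⟩ := hM
    obtain ⟨n, p, hp⟩ := Module.Finite.exists_fin' S M
    set c : Matrix (Fin n) (Fin n) S := F ^ k • (1 : Matrix (Fin n) (Fin n) S) with hc
    have hcv : ∀ v, c.mulVecLin v = F ^ k • v := fun v => by
      rw [mulVecLin_apply, hc, smul_mulVec, one_mulVec]
    refine ⟨cokM c, (LinearMap.range c.mulVecLin).liftQ p ?_,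
      ⟨n, c, finv_smul_one F k, ⟨LinearEquiv.refl S _⟩⟩, ?_⟩
    · rintro _ ⟨v, rfl⟩
      rw [hcv, LinearMap.mem_ker, map_smul, hk]
    · intro t
      obtain ⟨v, rfl⟩ := hp t
      exact ⟨Submodule.Quotient.mk v, rfl⟩
  refine ⟨⟨subQuot_killedPow F, ?_, hle, ?_, ?_, ?_, hen⟩, ?_⟩
  · rintro M N ⟨k, hk⟩ ⟨l, hl⟩
    refine ⟨k + l, fun m => ?_⟩
    obtain ⟨x, y⟩ := m
    have hx : F ^ (k + l) • x = 0 := by rw [add_comm, pow_add, mul_smul, hk, smul_zero]
    have hy : F ^ (k + l) • y = 0 := by rw [pow_add, mul_smul, hl, smul_zero]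
    exact Prod.ext hx hy
  · rintro M N e ⟨n, a, ha, ⟨e'⟩⟩
    exact ⟨n, a, ha, ⟨e'.trans e⟩⟩
  · intro M' M M'' f g hf hg hfg hM hM' hM''
    refine (hd M hM).mp (hres.ext M' M M'' f g hf hg hfg trivial ⟨trivial, ?_⟩
      ⟨trivial, ?_⟩).2
    · exact (hd M' (hle M' hM')).mpr hM'
    · exact (hd M'' (hle M'' hM'')).mpr hM''
  · intro M' M M'' f g hf hg hfg hM hM''
    have hM'c : KilledPow F M' := (subQuot_killedPow F).sub M' M f hf (hle M hM)
    refine (hd M' hM'c).mp (hres.ker M' M M'' f g hf hg hfg ⟨trivial, ?_⟩ ⟨trivial, ?_⟩).2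
    · exact (hd M (hle M hM)).mpr hM
    · exact (hd M'' (hle M'' hM'')).mpr hM''
  · -- finite dimension
    have key : ∀ (n : ℕ) (M : FGMod S), KilledPow F M → Dim (SF S) (n + 1) M →
        Dim (Tors1 F) n M := by
      intro n
      induction n with
      | zero => exact fun M hM h => (hd M hM).mp h
      | succ n ih =>
        intro M hM h
        obtain ⟨P, p, hP, hp⟩ := hen M hM
        let K : FGMod S := FGMod.of S (LinearMap.ker p)
        have hKP : KilledPow F K :=
          (subQuot_killedPow F).sub K P (LinearMap.ker p).subtype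
            (LinearMap.ker p).subtype_injective (hle P hP)
        have hex : Exact (LinearMap.ker p).subtype p := fun x => by simp
        have hP1 : ∀ m : ℕ, Dim (SF S) (m + 1) P := by
          intro m
          induction m with
          | zero => exact (hd P (hle P hP)).mpr hP
          | succ m ihm =>
            exact (h1 S (fun _ => True) (SF S) (h2 S).1 (m + 1)).2.1 P ihm trivial
        refine ⟨K, P, (LinearMap.ker p).subtype, p, (LinearMap.ker p).subtype_injective, hp, hex,
          hP, ih K hKP ?_⟩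
        exact (h1 S (fun _ => True) (SF S) (h2 S).1 (n + 1)).2.2 K P M (LinearMap.ker p).subtype p
          (LinearMap.ker p).subtype_injective hp hex trivial (hP1 n) trivial h
    intro M hM
    obtain ⟨n, hn⟩ := hS M
    exact ⟨n, key n M hM ((h2 S).2 (n + 1) M (FFR.succ n M hn))⟩

end BassH
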