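import Pool.Agent.BassH.Stmts

/-!
# BassH: the class of a square presentation of a torsion module
-/

set_option autoImplicit false

namespace BassH

open Pool.Agent.Helper11 Matrix Function

theorem torswd_fac {S : Type} [CommRing S] {ι κ κ' : Type} [Fintype ι] [Fintype κ] [Fintype κ']
    [DecidableEq κ] (P : Matrix ι κ S) (Q : Matrix ι κ' S)
    (h : ∀ y, ∃ z, Q.mulVec z = P.mulVec y) : ∃ W : Matrix κ' κ S, P = Q * W := by
  have h1 : ∀ j : κ, ∃ w : κ' → S, Q.mulVec w = P.mulVec (Pi.single j 1) := fun j => h _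
  choose w hw using h1
  refine ⟨Matrix.of fun i j => w j i, ?_⟩
  ext i j
  have h2 := congrFun (hw j) i
  rw [mulVec_single_one] at h2
  exact h2.symm

theorem torswd_unit {S : Type} [CommRing S] {ι : Type} [Fintype ι] [DecidableEq ι]
    (P Q : Matrix ι ι S) (hP : ∀ y, P.mulVec y = 0 → y = 0)
    (h : ∀ y, ∃ z, Q.mulVec z = P.mulVec y) (h' : ∀ y, ∃ z, P.mulVec z = Q.mulVec y) :
    ∃ W : Matrix ι ι S, IsUnit W ∧ P = Q * W := by
  obtain ⟨W, hW⟩ := torswd_fac P Q h
  obtain ⟨W', hW'⟩ := torswd_fac Q P h'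
  refine ⟨W, ?_, hW⟩
  have h1 : ∀ y, (W' * W).mulVec y = (1 : Matrix ι ι S).mulVec y := by
    intro y
    rw [one_mulVec]
    have h2 : P.mulVec ((W' * W).mulVec y - y) = 0 := by
      rw [mulVec_sub, mulVec_mulVec, ← mul_assoc, ← hW', ← hW, sub_self]
    exact sub_eq_zero.1 (hP _ h2)
  have h3 : W' * W = 1 := by
    ext i j
    have h4 := congrFun (h1 (Pi.single j 1)) i
    rw [mulVec_single_one, mulVec_single_one] at h4
    exact h4
  exact IsUnit.of_mul_eq_one_right _ h3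

theorem torswd_kcone (h1 : St_KcMul) {A : Type} [CommRing A] {ι : Type} [Fintype ι]
    [DecidableEq ι] : kc (1 : Matrix ι ι A) = 0 := by
  have h := h1 A ι 1 1 isUnit_one isUnit_one
  rw [mul_one] at h
  exact left_eq_add.1 h

theorem torswd_tri {A : Type} [CommRing A] {ι κ : Type} [Fintype ι] [DecidableEq ι] [Fintype κ]
    [DecidableEq κ] {M : Matrix ι ι A} {N : Matrix κ κ A} (hM : IsUnit M) (hN : IsUnit N)
    (X : Matrix ι κ A) (Y : Matrix κ ι A) :
    IsUnit (fromBlocks M X 0 N) ∧ IsUnit (fromBlocks M 0 Y N) := by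
  rw [isUnit_iff_isUnit_det] at hM hN
  constructor
  · rw [isUnit_iff_isUnit_det, det_fromBlocks_zero₂₁]
    exact hM.mul hN
  · rw [isUnit_iff_isUnit_det, det_fromBlocks_zero₁₂]
    exact hM.mul hN

/-- the class of the matrix of a square presentation after localisation -/
theorem torswd_finv {S L : Type} [CommRing S] [CommRing L] [Algebra S L] (F : S)
    [IsLocalization.Away F L] {ι : Type} [Fintype ι] [DecidableEq ι] {a : Matrix ι ι S}
    (h : FInv F a) : IsUnit (a.map (algebraMap S L)) := by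
  obtain ⟨b, k, hb⟩ := h
  have h1 : a.map (algebraMap S L) * b.map (algebraMap S L) =
      (algebraMap S L F) ^ k • (1 : Matrix ι ι L) := by
    rw [← Matrix.map_mul, hb]
    ext i j
    simp [Matrix.one_apply, apply_ite (algebraMap S L)]
  have h2 : IsUnit ((algebraMap S L F) ^ k) := (IsLocalization.Away.algebraMap_isUnit F).pow k
  obtain ⟨u, hu⟩ := h2
  have h3 : a.map (algebraMap S L) * ((↑u⁻¹ : L) • b.map (algebraMap S L)) = 1 := by
    rw [mul_smul_comm, h1, ← hu, smul_smul, Units.inv_mul, one_smul]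
  exact IsUnit.of_mul_eq_one _ h3

theorem thm_TorsWD (h1 : St_KcMul) (_h2 : St_KcIdx) (h3 : St_KcBlock) (h4 : St_KcGen) :
    St_TorsWD := by
  intro S L _ _ _ _ _ F _ hF n m a b ha hb ⟨e⟩
  -- the two surjections onto `M = cokM a`
  let π : (Fin n → S) →ₗ[S] cokM a := (LinearMap.range a.mulVecLin).mkQ
  let ρ : (Fin m → S) →ₗ[S] cokM a := e.symm.toLinearMap ∘ₗ (LinearMap.range b.mulVecLin).mkQ
  have hπ : Surjective π := Submodule.mkQ_surjective _
  have hρ : Surjective ρ := e.symm.surjective.comp (Submodule.mkQ_surjective _)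
  have hπ0 : ∀ x, π x = 0 ↔ ∃ y, a.mulVec y = x := by
    intro x
    rw [show π x = Submodule.Quotient.mk x from rfl, Submodule.Quotient.mk_eq_zero]
    exact Iff.rfl
  have hρ0 : ∀ x, ρ x = 0 ↔ ∃ y, b.mulVec y = x := by
    intro x
    rw [show ρ x = e.symm (Submodule.Quotient.mk x) from rfl, LinearEquiv.map_eq_zero_iff,
      Submodule.Quotient.mk_eq_zero]
    exact Iff.rfl
  obtain ⟨u', hu'⟩ := Module.projective_lifting_property π ρ hπ
  obtain ⟨v', hv'⟩ := Module.projective_lifting_property ρ π hρ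
  have hu : ∀ y, π ((LinearMap.toMatrix' u').mulVec y) = ρ y := fun y => by
    rw [LinearMap.toMatrix'_mulVec]
    exact LinearMap.congr_fun hu' y
  have hv : ∀ y, ρ ((LinearMap.toMatrix' v').mulVec y) = π y := fun y => by
    rw [LinearMap.toMatrix'_mulVec]
    exact LinearMap.congr_fun hv' y
  generalize LinearMap.toMatrix' u' = u at hu
  generalize LinearMap.toMatrix' v' = v at hv
  set P : Matrix (Fin n ⊕ Fin m) (Fin n ⊕ Fin m) S :=
    fromBlocks 1 (-u) 0 1 * fromBlocks a 0 0 1 with hPdef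
  set Q : Matrix (Fin n ⊕ Fin m) (Fin n ⊕ Fin m) S :=
    fromBlocks 1 0 (-v) 1 * fromBlocks 1 0 0 b with hQdef
  have hPe : P = fromBlocks a (-u) 0 1 := by
    rw [hPdef, fromBlocks_multiply]
    simp
  have hQe : Q = fromBlocks 1 0 (-v) b := by
    rw [hQdef, fromBlocks_multiply]
    simp
  have hPm : ∀ y : Fin n ⊕ Fin m → S, P.mulVec y =
      Sum.elim (a.mulVec (y ∘ Sum.inl) - u.mulVec (y ∘ Sum.inr)) (y ∘ Sum.inr) := by
    intro y
    rw [hPe, fromBlocks_mulVec]
    simp [neg_mulVec, sub_eq_add_neg]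
  have hQm : ∀ y : Fin n ⊕ Fin m → S, Q.mulVec y =
      Sum.elim (y ∘ Sum.inl) (b.mulVec (y ∘ Sum.inr) - v.mulVec (y ∘ Sum.inl)) := by
    intro y
    rw [hQe, fromBlocks_mulVec]
    simp [neg_mulVec, sub_eq_add_neg, add_comm]
  have hinj : ∀ y, P.mulVec y = 0 → y = 0 := by
    intro y hy
    rw [hPm] at hy
    have hy2 : y ∘ Sum.inr = 0 := by
      funext j
      have := congrFun hy (Sum.inr j)
      simpa using this
    have hy1 : y ∘ Sum.inl = 0 := by
      refine ha.injective hF ?_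
      rw [map_zero]
      funext j
      have := congrFun hy (Sum.inl j)
      rw [hy2] at this
      simpa using this
    funext j
    rcases j with j | j
    · exact congrFun hy1 j
    · exact congrFun hy2 j
  have hPQ : ∀ y, ∃ z, Q.mulVec z = P.mulVec y := by
    intro y
    set z1 := a.mulVec (y ∘ Sum.inl) - u.mulVec (y ∘ Sum.inr) with hz1
    have h5 : ρ (y ∘ Sum.inr + v.mulVec z1) = 0 := by
      rw [map_add, hv, hz1, map_sub, hu, (hπ0 _).2 ⟨_, rfl⟩]
      abel
    obtain ⟨z2, hz2⟩ := (hρ0 _).1 h5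
    refine ⟨Sum.elim z1 z2, ?_⟩
    rw [hQm, hPm, Sum.elim_comp_inl, Sum.elim_comp_inr, hz2, add_sub_cancel_right]
  have hQP : ∀ y, ∃ z, P.mulVec z = Q.mulVec y := by
    intro y
    set z2 := b.mulVec (y ∘ Sum.inr) - v.mulVec (y ∘ Sum.inl) with hz2
    have h5 : π (y ∘ Sum.inl + u.mulVec z2) = 0 := by
      rw [map_add, hu, hz2, map_sub, hv, (hρ0 _).2 ⟨_, rfl⟩]
      abel
    obtain ⟨z1, hz1⟩ := (hπ0 _).1 h5
    refine ⟨Sum.elim z1 z2, ?_⟩
    rw [hQm, hPm, Sum.elim_comp_inl, Sum.elim_comp_inr, hz1, add_sub_cancel_right]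
  obtain ⟨W, hW, hPW⟩ := torswd_unit P Q hinj hPQ hQP
  -- the classes over `L`
  have hLa := torswd_finv (L := L) F ha
  have hLb := torswd_finv (L := L) F hb
  have hg0 : (algebraMap S L) 0 = 0 := map_zero _
  have hg1 : (algebraMap S L) 1 = 1 := map_one _
  have hPL : kc (P.map (algebraMap S L)) = kc (a.map (algebraMap S L)) := by
    rw [hPe, fromBlocks_map, Matrix.map_zero _ hg0, Matrix.map_one _ hg0 hg1,
      (h3 L (Fin n) (Fin m) _ _ _ 0 hLa isUnit_one).1, torswd_kcone h1, add_zero]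
  have hQL : kc (Q.map (algebraMap S L)) = kc (b.map (algebraMap S L)) := by
    rw [hQe, fromBlocks_map, Matrix.map_zero _ hg0, Matrix.map_one _ hg0 hg1,
      (h3 L (Fin n) (Fin m) _ _ 0 _ isUnit_one hLb).2, torswd_kcone h1, zero_add]
  have hQu : IsUnit (Q.map (algebraMap S L)) := by
    rw [hQe, fromBlocks_map, Matrix.map_zero _ hg0, Matrix.map_one _ hg0 hg1]
    exact (torswd_tri isUnit_one hLb 0 _).2
  have hWu : IsUnit (W.map (algebraMap S L)) :=
    hW.map ((algebraMap S L).mapMatrix (m := Fin n ⊕ Fin m))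
  refine ⟨kc W, ?_⟩
  rw [(h4 S).2.2 L (algebraMap S L) (Fin n ⊕ Fin m) W hW]
  have h6 : P.map (algebraMap S L) = Q.map (algebraMap S L) * W.map (algebraMap S L) := by
    rw [← Matrix.map_mul, hPW]
  rw [← hPL, ← hQL, h6, h1 L _ _ _ hQu hWu]
  abel

end BassH
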