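import Pool.Agent.BassH.Final
import Pool.Agent.BassH.Enc
import Pool.Agent.BassH.Small
import Pool.Agent.BassH.KPoly
import Pool.Agent.BassH.KEuc
import Pool.Agent.BassH.KT
import Pool.Agent.BassH.Nil
import Pool.Agent.BassH.NilExt
import Pool.Agent.BassH.NilRes
import Pool.Agent.BassH.Tors
import Pool.Agent.BassH.TorsExt
import Pool.Agent.BassH.TorsRes
import Pool.Agent.BassH.TorsWD
import Pool.Agent.BassH.Loc
import Pool.Agent.BassH.Higman
import Pool.Agent.BassH.NilWD
import Pool.Agent.BassH.RL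
import Pool.Agent.BassH.SF
import Pool.Agent.BassH.Shift

/-!
# BassH: assembly of all modules
-/

set_option autoImplicit false

namespace BassH

open Pool.Agent.Helper11 Function

theorem all_Loc : St_Loc :=
  thm_Loc (thm_Tors thm_RL (thm_TorsWD thm_KcMul thm_KcIdx thm_KcBlock thm_KcGen) thm_TorsExt
    (thm_TorsRes thm_Shift thm_SF) thm_KcBlock thm_KcIdx) thm_KcMul thm_KcGen

theorem all_KPoly : St_KPoly :=
  thm_KPoly (thm_Higman thm_KcMul thm_KcIdx thm_KcBlock thm_KcGen) (thm_Nil thm_RL (thm_NilWD thm_KcMul thm_KcIdx thm_KcBlock) thm_NilExt (thm_NilRes thm_Shift thm_SF))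
    (thm_KEuc thm_KcMul thm_KcIdx thm_KcBlock thm_KcGen) thm_KcGen

theorem all_Final : St_Final :=
  thm_Final thm_Closed thm_TriFG thm_CubFG thm_CubSm thm_Enc thm_Dim1 thm_Dim2 all_Loc
    all_KPoly thm_AllFFR

end BassH
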