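import Pool.Agent.BassH.StmtsA

/-!
# BassH: closure properties of the class of rings with finitely generated `G₀`
-/

set_option autoImplicit false
set_option linter.style.haveILetI false

namespace BassH

open Pool.Agent.Helper11 Pool.Agent.Helper83.Bass Pool.Agent.Helper67.Bass Function TensorProduct

/-! ### groups -/

theorem fg_of_hom {G Q : Type*} [AddCommGroup G] [AddCommGroup Q] (f : G →+ Q)
    (hf : Surjective f) (hQ : AddGroup.FG Q) (hK : AddGroup.FG f.ker) : AddGroup.FG G := by
  haveI h1 : Module.Finite ℤ Q := Module.Finite.iff_addGroup_fg.mpr hQ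
  haveI h2 : Module.Finite ℤ f.ker := Module.Finite.iff_addGroup_fg.mpr hK
  rw [← Module.Finite.iff_addGroup_fg]
  let F : G →ₗ[ℤ] Q := f.toIntLinearMap
  haveI h3 : Module.Finite ℤ (LinearMap.ker F) := by
    refine Module.Finite.of_surjective (M := f.ker)
      ({ toFun := fun x => ⟨x.1, x.2⟩, map_add' := fun _ _ => rfl, map_smul' := fun _ _ => rfl } :
        f.ker →ₗ[ℤ] LinearMap.ker F) ?_
    rintro ⟨x, hx⟩
    exact ⟨⟨x, hx⟩, rfl⟩
  constructor
  refine Submodule.fg_of_fg_map_of_fg_inf_ker F ?_ ?_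
  · have : Submodule.map F ⊤ = ⊤ := by
      rw [Submodule.map_top]
      exact LinearMap.range_eq_top.mpr hf
    rw [this]
    exact h1.fg_top
  · rw [top_inf_eq]
    exact Module.Finite.iff_fg.mp h3

/-- extension by a subgroup -/
theorem fg_of_quot {G : Type*} [AddCommGroup G] (H : AddSubgroup G) (hH : AddGroup.FG H)
    (hQ : AddGroup.FG (G ⧸ H)) : AddGroup.FG G := by
  refine fg_of_hom (QuotientAddGroup.mk' H) (QuotientAddGroup.mk'_surjective H) hQ ?_
  rw [QuotientAddGroup.ker_mk']
  exact hH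

theorem fg_range {G Q : Type*} [AddCommGroup G] [AddCommGroup Q] (f : G →+ Q)
    (hG : AddGroup.FG G) : AddGroup.FG f.range :=
  AddGroup.fg_of_surjective f.rangeRestrict_surjective

/-! ### homomorphisms between the groups `G₀` -/

section hom

variable {R S : Type} [CommRing R] [CommRing S]

/-- the homomorphism induced by an exact functor -/
noncomputable def exHom (Φ : FGMod R → FGMod S) (hΦ : ExactF Φ) : G0 R →+ G0 S :=
  G0h.hom (fun M => G0.mk (Φ M)) (fun M' M M'' e => by
    obtain ⟨e'⟩ := hΦ M' M M'' e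
    exact G0.mk_add _ _ _ e'.f e'.g e'.inj e'.surj e'.exact)

theorem exHom_mk (Φ : FGMod R → FGMod S) (hΦ : ExactF Φ) (M : FGMod R) :
    exHom Φ hΦ (G0.mk M) = G0.mk (Φ M) := G0h.hom_mk _ _ M

theorem surj_of_mk {Γ : Type*} [AddCommGroup Γ] (φ : Γ →+ G0 S)
    (h : ∀ M : FGMod S, G0.mk M ∈ φ.range) : Surjective φ := by
  intro x
  have hx : x ∈ AddSubgroup.closure (Set.range (G0.mk : FGMod S → G0 S)) := by
    rw [G0.closure_mk]; trivial
  have hle : AddSubgroup.closure (Set.range (G0.mk : FGMod S → G0 S)) ≤ φ.range := by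
    rw [AddSubgroup.closure_le]
    rintro _ ⟨M, rfl⟩
    exact h M
  exact hle hx

theorem fg0_of_mk {Γ : Type*} [AddCommGroup Γ] (hΓ : AddGroup.FG Γ) (φ : Γ →+ G0 S)
    (h : ∀ M : FGMod S, G0.mk M ∈ φ.range) : FG0 S :=
  AddGroup.fg_of_surjective (surj_of_mk φ h)

/-- restriction along a surjection -/
noncomputable def resHom (π : S →+* R) (hπ : Surjective π) : G0 R →+ G0 S :=
  exHom (restr π hπ) (exactF_restr π hπ)

theorem mem_resHom (π : S →+* R) (hπ : Surjective π) (M : FGMod S)
    (hM : KilledBy (RingHom.ker π) M) : G0.mk M ∈ (resHom π hπ).range :=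
  restr_of_killed (P := fun M => G0.mk M ∈ (resHom π hπ).range)
    (two3_closure (resHom π hπ).range) π hπ (fun N => ⟨G0.mk N, exHom_mk _ _ N⟩) M hM

end hom

/-! ### equivalences, polynomial rings, localisations -/

theorem closed_equiv (R S : Type) [CommRing R] [CommRing S] (e : R ≃+* S) (h : FG0 R) :
    FG0 S := by
  refine fg0_of_mk h (resHom (e.symm : S →+* R) e.symm.surjective) fun M => mem_resHom _ _ M ?_
  intro s hs m
  have : s = 0 := by
    rw [RingHom.mem_ker] at hs
    exact (map_eq_zero_iff _ e.symm.injective).1 hs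
  rw [this, zero_smul]

theorem closed_mv (R : Type) [CommRing R] [IsNoetherianRing R] (σ : Type) [Finite σ]
    (h : FG0 R) : FG0 (MvPolynomial σ R) := by
  let φ : G0 R →+ G0 (MvPolynomial σ R) :=
    exHom (fun M : FGMod R => FGMod.of (MvPolynomial σ R) (MvPolynomial σ R ⊗[R] M))
      exactF_baseChange
  refine fg0_of_mk h φ ?_
  exact gen_mvPolynomial R σ (fun M => G0.mk M ∈ φ.range) (two3_closure φ.range).toResClass
    (fun N => ⟨G0.mk N, exHom_mk _ _ N⟩)

theorem closed_away (R V : Type) [CommRing R] [IsNoetherianRing R] [CommRing V] [Algebra R V]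
    (s : R) [IsLocalization.Away s V] (h : FG0 R) : FG0 V := by
  haveI : Module.Flat R V := IsLocalization.flat V (Submonoid.powers s)
  haveI : IsNoetherianRing V := IsLocalization.isNoetherianRing (Submonoid.powers s) V inferInstance
  let φ : G0 R →+ G0 V :=
    exHom (fun M : FGMod R => FGMod.of V (V ⊗[R] M)) exactF_baseChange
  refine fg0_of_mk h φ fun M => ?_
  have hl : LocAway (V := V) s :=
    { frac := fun v => by
        obtain ⟨n, r, hr⟩ := IsLocalization.Away.surj s v
        exact ⟨n, r, by rw [mul_comm]; exact hr⟩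
      tors := ⟨(IsLocalization.algEquiv (Submonoid.powers s) V
        (Localization.Away s)).toAlgHom⟩ }
  have hu : IsUnit (algebraMap R V s) := IsLocalization.Away.algebraMap_isUnit s
  obtain ⟨E, -, hE⟩ := exists_bc (I := (⊥ : Ideal R)) (K := (⊥ : Ideal V)) s hl
    (G0.isAdd_mk (R := V)) (fun M hM hs => by
      haveI : Subsingleton M := ⟨fun a b => by
        rw [(hu.smul_eq_zero).1 (hs a), (hu.smul_eq_zero).1 (hs b)]⟩
      exact (G0.isAdd_mk (R := V)).zero M hM) (by rw [Ideal.map_bot]) M (G0.killedBy_bot M)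
  rw [hE]
  exact ⟨G0.mk E, exHom_mk _ _ E⟩

/-! ### gluing along a localisation -/

section glue

variable {R V : Type} [CommRing R] [IsNoetherianRing R] [CommRing V] [Algebra R V] {s : R}

/-- classes of modules killed by `s` -/
noncomputable def torsSub (s : R) : AddSubgroup (G0 R) :=
  (resHom (Ideal.Quotient.mk (Ideal.span {s})) Ideal.Quotient.mk_surjective).range

theorem mem_torsSub (M : FGMod R) (hM : ∀ m : M, ∃ n : ℕ, s ^ n • m = 0) :
    G0.mk M ∈ torsSub s :=
  tors_all (P := fun M => G0.mk M ∈ torsSub s) (two3_closure _) s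
    (fun M hM => mem_resHom _ _ M (by rw [Ideal.mk_ker]; exact hM)) M hM

/-- the class modulo torsion -/
noncomputable def qq (s : R) (M : FGMod R) : G0 R ⧸ torsSub s :=
  QuotientAddGroup.mk' (torsSub s) (G0.mk M)

theorem qq_tors (M : FGMod R) (hM : ∀ m : M, ∃ n : ℕ, s ^ n • m = 0) : qq s M = 0 :=
  (QuotientAddGroup.eq_zero_iff _).mpr (mem_torsSub M hM)

theorem qq_map (M N : FGMod R) (f : M →ₗ[R] N)
    (hk : ∀ m, f m = 0 → ∃ n : ℕ, s ^ n • m = 0) (hc : ∀ x, ∃ (n : ℕ) (m : M), s ^ n • x = f m) :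
    qq s M = qq s N := by
  have h1 := (G0.isAdd_mk (R := R)).ker_range f (G0.killedBy_bot M)
  have h2 := (G0.isAdd_mk (R := R)).submodule N (LinearMap.range f) (G0.killedBy_bot N)
  have h3 : qq s (FGMod.of R (LinearMap.ker f)) = 0 := qq_tors _ (by
    rintro ⟨m, hm⟩
    obtain ⟨n, hn⟩ := hk m hm
    exact ⟨n, Subtype.ext hn⟩)
  have h4 : qq s (FGMod.of R (N ⧸ LinearMap.range f)) = 0 := qq_tors _ (by
    intro x
    obtain ⟨x, rfl⟩ := Submodule.mkQ_surjective _ x
    obtain ⟨n, m, hm⟩ := hc x
    refine ⟨n, ?_⟩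
    rw [← map_smul, Submodule.mkQ_apply, Submodule.Quotient.mk_eq_zero, hm]
    exact ⟨m, rfl⟩)
  unfold qq at h3 h4 ⊢
  rw [h1, h2, map_add, map_add, h3, h4, zero_add, add_zero]

theorem qq_lat {X : FGMod V} {E E' : FGMod R} (l : Lat s X E) (l' : Lat s X E') :
    qq s E = qq s E' := by
  letI : Module R X := Module.compHom X (algebraMap R V)
  have hsm : ∀ (r : R) (x : X), r • x = algebraMap R V r • x := fun _ _ => rfl
  let J : E →ₗ[R] X := { l.j with map_smul' := l.smul }
  let J' : E' →ₗ[R] X := { l'.j with map_smul' := l'.smul }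
  let N : Submodule R X := LinearMap.range J ⊔ LinearMap.range J'
  haveI : Module.Finite R N := by
    haveI h1 : Module.Finite R (LinearMap.range J) := inferInstance
    haveI h2 : Module.Finite R (LinearMap.range J') := inferInstance
    exact Submodule.finite_sup _ _
  let L : FGMod R := FGMod.of R N
  have hpow : ∀ (n : ℕ) (x : X), s ^ n • x = algebraMap R V s ^ n • x := by
    intro n x
    rw [hsm, map_pow]
  have h1 : qq s E = qq s L := by
    refine qq_map E L (J.codRestrict N (fun e => Submodule.mem_sup_left ⟨e, rfl⟩)) ?_ ?_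
    · intro e he
      exact l.tors e (congrArg Subtype.val he)
    · rintro ⟨x, hx⟩
      obtain ⟨n, e, hn⟩ := l.abs x
      exact ⟨n, e, Subtype.ext ((hpow n x).trans hn)⟩
  have h2 : qq s E' = qq s L := by
    refine qq_map E' L (J'.codRestrict N (fun e => Submodule.mem_sup_right ⟨e, rfl⟩)) ?_ ?_
    · intro e he
      exact l'.tors e (congrArg Subtype.val he)
    · rintro ⟨x, hx⟩
      obtain ⟨n, e, hn⟩ := l'.abs x
      exact ⟨n, e, Subtype.ext ((hpow n x).trans hn)⟩
  rw [h1, h2]

theorem closed_of_away (R V : Type) [CommRing R] [IsNoetherianRing R] [CommRing V] [Algebra R V]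
    (s : R) [IsLocalization.Away s V] (h1 : FG0 (R ⧸ Ideal.span {s})) (h2 : FG0 V) : FG0 R := by
  have hfrac : ∀ v : V, ∃ (n : ℕ) (r : R), algebraMap R V s ^ n * v = algebraMap R V r := by
    intro v
    obtain ⟨n, r, hr⟩ := IsLocalization.Away.surj s v
    exact ⟨n, r, by rw [mul_comm]; exact hr⟩
  choose L hL using fun X : FGMod V => exists_lat (R := R) (s := s) hfrac X
  let T : G0 V →+ G0 R ⧸ torsSub s := G0h.hom (fun X => qq s (L X)) (fun X' X X'' e => by
    obtain ⟨l⟩ := hL X
    obtain ⟨E', E'', a, b, ha, hb, hab, ⟨l'⟩, ⟨l''⟩⟩ := lat_exact e.inj e.surj e.exact l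
    obtain ⟨m'⟩ := hL X'
    obtain ⟨m''⟩ := hL X''
    rw [← qq_lat l' m', ← qq_lat l'' m'']
    unfold qq
    rw [G0.mk_add E' (L X) E'' a b ha hb hab, map_add])
  have hT : ∀ X : FGMod V, T (G0.mk X) = qq s (L X) := fun X => G0h.hom_mk _ _ X
  haveI hV : AddGroup.FG (G0 V) := h2
  haveI : Module.Flat R V := IsLocalization.flat V (Submonoid.powers s)
  have key : ∀ x : G0 R, QuotientAddGroup.mk' (torsSub s) x ∈ T.range := by
    intro x
    have hx : x ∈ AddSubgroup.closure (Set.range (G0.mk : FGMod R → G0 R)) := by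
      rw [G0.closure_mk]; trivial
    have hle : AddSubgroup.closure (Set.range (G0.mk : FGMod R → G0 R)) ≤
        T.range.comap (QuotientAddGroup.mk' (torsSub s)) := by
      rw [AddSubgroup.closure_le]
      rintro _ ⟨M, rfl⟩
      refine ⟨G0.mk (bc R V M), ?_⟩
      rw [hT]
      obtain ⟨l⟩ := hL (bc R V M)
      change qq s (L (bc R V M)) = qq s M
      refine qq_lat l ?_
      haveI : IsLocalizedModule (Submonoid.powers s) (TensorProduct.mk R V M 1) := inferInstance
      exact
        { j := (TensorProduct.mk R V M 1).toAddMonoidHom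
          smul := fun r e => by
            change (1 : V) ⊗ₜ[R] (r • e) = algebraMap R V r • ((1 : V) ⊗ₜ[R] e)
            rw [TensorProduct.smul_tmul', smul_eq_mul, mul_one, Algebra.algebraMap_eq_smul_one,
              TensorProduct.smul_tmul]
          tors := fun e he => by
            obtain ⟨⟨_, n, rfl⟩, hn⟩ :=
              (IsLocalizedModule.eq_zero_iff (Submonoid.powers s) (TensorProduct.mk R V M 1)).1 he
            exact ⟨n, hn⟩
          abs := fun x => by
            obtain ⟨⟨m, ⟨_, n, rfl⟩⟩, hm⟩ :=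
              IsLocalizedModule.surj (Submonoid.powers s) (TensorProduct.mk R V M 1) x
            refine ⟨n, m, ?_⟩
            change _ = (1 : V) ⊗ₜ[R] m
            have h3 : s ^ n • x = (1 : V) ⊗ₜ[R] m := hm
            rw [← h3, ← map_pow, algebraMap_smul] }
    exact hle hx
  have hTs : Surjective T := by
    intro y
    obtain ⟨x, rfl⟩ := QuotientAddGroup.mk'_surjective (torsSub s) y
    exact key x
  exact fg_of_quot (torsSub s) (fg_range _ h1) (AddGroup.fg_of_surjective hTs)

end glue

/-! ### devissage -/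

theorem closed_of_mul (R : Type) [CommRing R] [IsNoetherianRing R] (I J : Ideal R)
    (hIJ : I * J = ⊥) (hI : FG0 (R ⧸ I)) (hJ : FG0 (R ⧸ J)) : FG0 R := by
  let f := resHom (Ideal.Quotient.mk I) Ideal.Quotient.mk_surjective
  let g := resHom (Ideal.Quotient.mk J) Ideal.Quotient.mk_surjective
  haveI i1 : Module.Finite ℤ (G0 (R ⧸ I)) := Module.Finite.iff_addGroup_fg.mpr hI
  haveI i2 : Module.Finite ℤ (G0 (R ⧸ J)) := Module.Finite.iff_addGroup_fg.mpr hJ
  have hfg : AddGroup.FG (G0 (R ⧸ I) × G0 (R ⧸ J)) :=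
    Module.Finite.iff_addGroup_fg.mp inferInstance
  have h1 : ∀ M : FGMod R, KilledBy I M → G0.mk M ∈ (f.coprod g).range := by
    intro M hM
    obtain ⟨x, hx⟩ := mem_resHom (Ideal.Quotient.mk I) Ideal.Quotient.mk_surjective M
      (by rw [Ideal.mk_ker]; exact hM)
    refine ⟨(x, 0), ?_⟩
    rw [AddMonoidHom.coprod_apply, map_zero, add_zero]
    exact hx
  have h2 : ∀ M : FGMod R, KilledBy J M → G0.mk M ∈ (f.coprod g).range := by
    intro M hM
    obtain ⟨x, hx⟩ := mem_resHom (Ideal.Quotient.mk J) Ideal.Quotient.mk_surjective M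
      (by rw [Ideal.mk_ker]; exact hM)
    refine ⟨(0, x), ?_⟩
    rw [AddMonoidHom.coprod_apply, map_zero, zero_add]
    exact hx
  refine fg0_of_mk hfg (f.coprod g) fun M => ?_
  refine (two3_closure (R := R) (f.coprod g).range).of_submodule M
    (J • (⊤ : Submodule R M)) (h1 _ ?_) (h2 _ ?_)
  · intro s hs m
    apply Subtype.ext
    have hm : (m : M) ∈ J • (⊤ : Submodule R M) := m.2
    change s • (m : M) = 0
    have key : ∀ x ∈ J • (⊤ : Submodule R M), s • x = 0 := by
      intro x hx
      induction hx using Submodule.smul_induction_on' with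
      | smul r hr n hn =>
          rw [← mul_smul]
          have : s * r ∈ I * J := Ideal.mul_mem_mul hs hr
          rw [hIJ] at this
          rw [(Submodule.mem_bot R).1 this, zero_smul]
      | add x hx y hy h1 h2 => rw [smul_add, h1, h2, add_zero]
    exact key _ hm
  · intro s hs m
    obtain ⟨m, rfl⟩ := Submodule.mkQ_surjective _ m
    rw [← map_smul, Submodule.mkQ_apply, Submodule.Quotient.mk_eq_zero]
    exact Submodule.smul_mem_smul hs Submodule.mem_top

theorem closed_subs (R : Type) [CommRing R] [Subsingleton R] : FG0 R :=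
  (FinGn.of_subsingleton R).fg

/-- `FG0 (R / (I + J)) → FG0 ((R / I) / (J / I))` -/
theorem closed_quot {R : Type} [CommRing R] (I J : Ideal R) (h : FG0 (R ⧸ I ⊔ J)) :
    FG0 ((R ⧸ I) ⧸ J.map (Ideal.Quotient.mk I)) :=
  closed_equiv _ _ (DoubleQuot.quotQuotEquivQuotSup I J).symm h

theorem closed_of_prime (R : Type) [CommRing R] [IsNoetherianRing R]
    (h : ∀ P : Ideal R, P.IsPrime → FG0 (R ⧸ P)) : FG0 R := by
  have key : ∀ I : Ideal R, FG0 (R ⧸ I) := by
    refine IsNoetherian.induction (P := fun I : Ideal R => FG0 (R ⧸ I)) ?_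
    · intro I ih
      by_cases hp : Ideal.IsPrime I
      · exact h I hp
      by_cases htop : I = ⊤
      · subst htop
        haveI : Subsingleton (R ⧸ (⊤ : Ideal R)) := Ideal.Quotient.subsingleton_iff.mpr rfl
        exact closed_subs _
      have h1 : ∃ a b : R, a * b ∈ I ∧ a ∉ I ∧ b ∉ I := by
        by_contra hcon
        push Not at hcon
        refine hp ⟨htop, fun {a b} hab => ?_⟩
        by_cases ha : a ∈ I
        · exact Or.inl ha
        · exact Or.inr (hcon a b hab ha)
      obtain ⟨a, b, hab, ha, hb⟩ := h1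
      have hlt : ∀ x : R, x ∉ I → I < I ⊔ Ideal.span {x} := by
        intro x hx
        refine lt_of_le_of_ne le_sup_left fun he => hx ?_
        have h2 : x ∈ I ⊔ Ideal.span {x} :=
          le_sup_right (a := I) (Ideal.mem_span_singleton_self x)
        exact he.symm ▸ h2
      refine closed_of_mul (R ⧸ I) ((Ideal.span {a}).map (Ideal.Quotient.mk I))
        ((Ideal.span {b}).map (Ideal.Quotient.mk I)) ?_ (closed_quot I _ (ih _ (hlt a ha)))
        (closed_quot I _ (ih _ (hlt b hb)))
      rw [← Ideal.map_mul, Ideal.span_singleton_mul_span_singleton, Ideal.map_span,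
        Set.image_singleton, Ideal.Quotient.eq_zero_iff_mem.mpr hab, Ideal.span_singleton_eq_bot]
  exact closed_equiv _ _ (RingEquiv.quotientBot R) (key ⊥)

theorem thm_Closed : FG0Closed where
  equiv R S _ _ e h := closed_equiv R S e h
  subs R _ _ := closed_subs R
  pid R _ _ _ := (FinGn.of_pid R).fg
  mv R _ _ σ _ h := closed_mv R σ h
  away R V _ _ _ _ s _ h := closed_away R V s h
  of_away R V _ _ _ _ s _ h1 h2 := closed_of_away R V s h1 h2
  of_mul R _ _ I J hIJ hI hJ := closed_of_mul R I J hIJ hI hJ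
  of_prime R _ _ h := closed_of_prime R h

end BassH
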