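import Pool.Agent.Helper11.Pipeline
import Pool.Agent.Helper11.Surj

/-!
# BassH: definitions (classes in `K₁`, derived classes of modules, trilinear forms)
-/

set_option autoImplicit false

namespace BassH

open Pool.Agent.Helper11 Matrix Function

/-! ## `K₁` -/

/-- the class in `K₁` of an invertible matrix with an arbitrary finite index type (zero if the
matrix is not invertible) -/
noncomputable def kc {A : Type} [CommRing A] {ι : Type} [Fintype ι] [DecidableEq ι]
    (M : Matrix ι ι A) : K1 A :=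
  haveI := Classical.propDecidable (IsUnit M)
  if h : IsUnit M then
    K1.mk (Fintype.card ι)
      (Units.map (Matrix.reindexAlgEquiv A A (Fintype.equivFin ι)).toRingEquiv.toMonoidHom h.unit)
  else 0

theorem K1mk_mul {A : Type} [CommRing A] (n : ℕ) (α β : GL (Fin n) A) :
    K1.mk n (α * β) = K1.mk n α + K1.mk n β := by
  have h : (FreeAbelianGroup.of (⟨n, α * β⟩ : Σ n : ℕ, GL (Fin n) A) -
      FreeAbelianGroup.of ⟨n, α⟩ - FreeAbelianGroup.of ⟨n, β⟩) ∈
      AddSubgroup.closure (K1Rel A) :=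
    AddSubgroup.subset_closure (Or.inl ⟨n, α, β, rfl⟩)
  have h2 := (QuotientAddGroup.eq_zero_iff _).mpr h
  have h3 : K1.mk n (α * β) - K1.mk n α - K1.mk n β = 0 := h2
  rw [sub_sub, sub_eq_zero] at h3
  exact h3

theorem K1mk_stab {A : Type} [CommRing A] (n : ℕ) (α : GL (Fin n) A) :
    K1.mk (n + 1) (stab A n α) = K1.mk n α := by
  have h : (FreeAbelianGroup.of (⟨n + 1, stab A n α⟩ : Σ n : ℕ, GL (Fin n) A) -
      FreeAbelianGroup.of ⟨n, α⟩) ∈ AddSubgroup.closure (K1Rel A) :=
    AddSubgroup.subset_closure (Or.inr ⟨n, α, rfl⟩)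
  have h2 := (QuotientAddGroup.eq_zero_iff _).mpr h
  have h3 : K1.mk (n + 1) (stab A n α) - K1.mk n α = 0 := h2
  rw [sub_eq_zero] at h3
  exact h3

/-- functoriality of `K₁` -/
noncomputable def K1map {A B : Type} [CommRing A] [CommRing B] (f : A →+* B) : K1 A →+ K1 B :=
  K1.lift (fun n α => K1.mk n (Units.map (f.mapMatrix (m := Fin n)).toMonoidHom α))
    (fun n α β => by rw [map_mul, K1mk_mul])
    (fun n α => by
      have h : Units.map (f.mapMatrix (m := Fin (n + 1))).toMonoidHom (stab A n α) =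
          stab B n (Units.map (f.mapMatrix (m := Fin n)).toMonoidHom α) := by
        apply Units.ext
        show ((fromBlocks α.val 0 0 (1 : Matrix (Fin 1) (Fin 1) A)).submatrix
          finSumFinEquiv.symm finSumFinEquiv.symm).map f =
          (fromBlocks (α.val.map f) 0 0 (1 : Matrix (Fin 1) (Fin 1) B)).submatrix
          finSumFinEquiv.symm finSumFinEquiv.symm
        rw [← submatrix_map, fromBlocks_map, Matrix.map_zero _ (map_zero f),
          Matrix.map_zero _ (map_zero f), Matrix.map_one _ (map_zero f) (map_one f)]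
      rw [h, K1mk_stab])

/-! ## Classes of modules -/

/-- `Pc` is a resolving class of modules in the class `Cc` of modules. -/
structure Resolving {Λ : Type} [CommRing Λ] (Cc Pc : FGMod Λ → Prop) : Prop where
  sq : SubQuot Cc
  sum : ∀ M N : FGMod Λ, Cc M → Cc N → Cc (FGMod.of Λ (M × N))
  le : ∀ M, Pc M → Cc M
  iso : ∀ M N : FGMod Λ, (M ≃ₗ[Λ] N) → Pc M → Pc N
  ext : ∀ (M' M M'' : FGMod Λ) (f : M' →ₗ[Λ] M) (g : M →ₗ[Λ] M''), Injective f → Surjective g →
    Exact f g → Cc M → Pc M' → Pc M'' → Pc M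
  ker : ∀ (M' M M'' : FGMod Λ) (f : M' →ₗ[Λ] M) (g : M →ₗ[Λ] M''), Injective f → Surjective g →
    Exact f g → Pc M → Pc M'' → Pc M'
  enough : ∀ M, Cc M → ∃ (P : FGMod Λ) (p : P →ₗ[Λ] M), Pc P ∧ Surjective p

/-- Modules with a resolution of length at most `n` by modules of the class `Pc`. -/
def Dim {Λ : Type} [CommRing Λ] (Pc : FGMod Λ → Prop) : ℕ → FGMod Λ → Prop
  | 0, M => Pc M
  | n + 1, M => ∃ (K P : FGMod Λ) (i : K →ₗ[Λ] P) (p : P →ₗ[Λ] M), Injective i ∧ Surjective p ∧
      Exact i p ∧ Pc P ∧ Dim Pc n K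

/-- additivity on short exact sequences of modules of the class `Pc` -/
def AddOn {Λ : Type} [CommRing Λ] {Γ : Type} [AddCommGroup Γ] (Pc : FGMod Λ → Prop)
    (T : FGMod Λ → Γ) : Prop :=
  ∀ (M' M M'' : FGMod Λ) (f : M' →ₗ[Λ] M) (g : M →ₗ[Λ] M''), Injective f → Surjective g →
    Exact f g → Pc M' → Pc M → Pc M'' → T M = T M' + T M''

/-- stably free modules -/
def SF (R : Type) [CommRing R] (M : FGMod R) : Prop :=
  ∃ a b : ℕ, Nonempty ((M × (Fin a → R)) ≃ₗ[R] (Fin b → R))

/-- torsion modules with a square presentation matrix -/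
def Tors1 {S : Type} [CommRing S] (F : S) (M : FGMod S) : Prop :=
  ∃ (n : ℕ) (a : Matrix (Fin n) (Fin n) S), FInv F a ∧ Nonempty (cokM a ≃ₗ[S] M)

/-- `M ⊕ (R^a, 0) ≅ (R^b, N)` -/
def StNil {R : Type} [CommRing R] (M : FGMod (Polynomial R)) (a : ℕ) {b : ℕ}
    (N : Matrix (Fin b) (Fin b) R) : Prop :=
  ∃ e : (M × (Fin a → R)) ≃+ (Fin b → R),
    (∀ (r : R) (m : M) (v : Fin a → R),
      e ((Polynomial.C r : Polynomial R) • m, r • v) = r • e (m, v)) ∧
    ∀ (m : M) (v : Fin a → R), e ((Polynomial.X : Polynomial R) • m, 0) = N.mulVec (e (m, v))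

/-- modules over `R[X]` which are stably free over `R` and on which `X` is nilpotent -/
def NilSF (R : Type) [CommRing R] (M : FGMod (Polynomial R)) : Prop :=
  ∃ (a b : ℕ) (N : Matrix (Fin b) (Fin b) R), IsNilpotent N ∧ StNil M a N

/-! ## Trilinear forms -/

/-- The trilinear form `∑ t i j k xᵢ yⱼ zₖ`. -/
noncomputable def triF {k : Type} [CommRing k] {a b c : ℕ} (t : Fin a → Fin b → Fin c → k) :
    MvPolynomial (Fin a ⊕ Fin b ⊕ Fin c) k :=
  ∑ i, ∑ j, ∑ l, MvPolynomial.C (t i j l) * MvPolynomial.X (Sum.inl i) *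
    MvPolynomial.X (Sum.inr (Sum.inl j)) * MvPolynomial.X (Sum.inr (Sum.inr l))

/-- The smooth cubic `F(x, y, z) = T² - T` (the polynomial `F - T² + T`), the variable `T` is
`none`. -/
noncomputable def cubF {k : Type} [CommRing k] {a b c : ℕ} (t : Fin a → Fin b → Fin c → k) :
    MvPolynomial (Option (Fin a ⊕ Fin b ⊕ Fin c)) k :=
  MvPolynomial.rename some (triF t) - MvPolynomial.X none ^ 2 + MvPolynomial.X none

/-- finite generation of `G₀` -/
def FG0 (R : Type) [CommRing R] : Prop := AddGroup.FG (G0 R)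

/-- all residue fields have transcendence degree at most `d` over their prime fields -/
def ResDimLE (d : ℕ) (C : Type) [CommRing C] : Prop :=
  ∀ (P : Ideal C) [P.IsPrime],
    Algebra.trdeg (⊥ : Subfield (FractionRing (C ⧸ P))) (FractionRing (C ⧸ P)) ≤ d

end BassH
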