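import Pool.Agent.BassH.Hom
import Pool.Agent.Helper67.Bass.Gen2

/-!
# BassH: closed subschemes of affine space from rings of bounded residual dimension
-/

set_option autoImplicit false
set_option linter.style.haveILetI false
set_option linter.unusedSectionVars false

namespace BassH

open Function MvPolynomial
open Pool.Agent.Helper11 (G0)
open Pool.Agent.Helper67.Bass (trdeg_lt)

/-- the transcendence degree is at most `s` if the `s + 1` generators are dependent -/
theorem trdeg_le_of_dep (k : Type) [Field k] (L : Type) [Field L] [Algebra k L] {s : ℕ}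
    (t : Fin (s + 1) → L)
    (ht : ∀ x : L, ∃ f g : MvPolynomial (Fin (s + 1)) k, MvPolynomial.aeval t g ≠ 0 ∧
      x * MvPolynomial.aeval t g = MvPolynomial.aeval t f)
    (hdep : ¬ AlgebraicIndependent k t) : Algebra.trdeg k L ≤ s := by
  have halg : Algebra.IsAlgebraic (Algebra.adjoin k (Set.range t)) L := by
    constructor
    intro x
    obtain ⟨f, g, hg, hx⟩ := ht x
    have hmem : ∀ f : MvPolynomial (Fin (s + 1)) k,
        MvPolynomial.aeval t f ∈ Algebra.adjoin k (Set.range t) := by
      intro f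
      rw [Algebra.adjoin_range_eq_range_aeval]; exact ⟨f, rfl⟩
    refine ⟨Polynomial.C ⟨_, hmem g⟩ * Polynomial.X - Polynomial.C ⟨_, hmem f⟩, ?_, ?_⟩
    · intro h0
      have h1 := congrArg (fun q => Polynomial.coeff q 1) h0
      simp only [Polynomial.coeff_sub, Polynomial.coeff_C_mul, Polynomial.coeff_X_one, mul_one,
        Polynomial.coeff_C_succ, sub_zero, Polynomial.coeff_zero] at h1
      exact hg (congrArg Subtype.val h1)
    · rw [map_sub, map_mul, Polynomial.aeval_C, Polynomial.aeval_X, Polynomial.aeval_C]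
      show MvPolynomial.aeval t g * x - MvPolynomial.aeval t f = 0
      rw [← hx]; ring
  obtain ⟨b, hb, hbas⟩ := exists_isTranscendenceBasis_subset (R := k) (Set.range t)
  have hfin : b.Finite := (Set.finite_range t).subset hb
  have h2 : (b.ncard : Cardinal.{0}) = Algebra.trdeg k L := by
    rw [Set.cast_ncard hfin]; exact hbas.cardinalMk_eq_trdeg
  haveI : Finite b := hfin
  let e : b ≃ Fin b.ncard := Finite.equivFinOfCardEq rfl
  have hy : AlgebraicIndependent k (fun i => ((e.symm i : b) : L)) :=
    hbas.1.comp e.symm e.symm.injective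
  have h3 : b.ncard < s + 1 := trdeg_lt k L t ht hdep _ hy
  rw [← h2]
  exact_mod_cast Nat.lt_succ_iff.mp h3

/-- domains all of whose relations come from the base ring -/
theorem dim1_aux (k : Type) [CommRing k] [IsDomain k] [IsPrincipalIdealRing k] (s : ℕ)
    (B : Type) [CommRing B] [IsDomain B] (f : MvPolynomial (Fin s) k →+* B) (hf : Surjective f)
    (L : Type) [Field L] (g : B →+* L)
    (h : ∀ p : MvPolynomial (Fin s) k, g (f p) = 0 → ∀ v, g (f (C (coeff v p))) = 0) :
    FG0 B := by
  have hk : FG0 k := thm_Closed.pid k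
  have hA : FG0 (MvPolynomial (Fin s) k) := closed_mv k (Fin s) hk
  let K : Ideal (MvPolynomial (Fin s) k) := RingHom.ker f
  haveI hKp : K.IsPrime := RingHom.ker_isPrime f
  let φ : k →+* L := (g.comp f).comp C
  let I0 : Ideal k := RingHom.ker φ
  haveI hI0 : I0.IsPrime := RingHom.ker_isPrime φ
  have hle : K ≤ I0.map C := by
    intro p hp
    rw [mem_map_C_iff]
    intro v
    refine h p ?_ v
    have : f p = 0 := hp
    rw [this, map_zero]
  have hB : ∀ J : Ideal (MvPolynomial (Fin s) k), K = J →
      FG0 (MvPolynomial (Fin s) k ⧸ J) → FG0 B := by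
    intro J hJ h1
    subst hJ
    exact closed_equiv _ _ (RingHom.quotientKerEquivOfSurjective hf) h1
  obtain ⟨c, hc⟩ := (IsPrincipalIdealRing.principal I0).principal
  have hc' : I0 = Ideal.span {c} := hc
  have hcI : c ∈ I0 := by rw [hc']; exact Ideal.mem_span_singleton_self c
  by_cases hCK : C c ∈ K
  · refine hB (I0.map C) (le_antisymm hle ?_) ?_
    · rw [hc', Ideal.map_span, Set.image_singleton, Ideal.span_singleton_le_iff_mem]
      exact hCK
    · refine closed_equiv _ _ (quotientEquivQuotientMvPolynomial (σ := Fin s) I0).toRingEquiv ?_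
      haveI : IsDomain (k ⧸ I0) := Ideal.Quotient.isDomain I0
      haveI : IsPrincipalIdealRing (k ⧸ I0) :=
        IsPrincipalIdealRing.of_surjective (Ideal.Quotient.mk I0) Ideal.Quotient.mk_surjective
      exact closed_mv _ (Fin s) (thm_Closed.pid _)
  · refine hB ⊥ ?_ (closed_equiv _ _ (RingEquiv.quotientBot _).symm hA)
    rw [eq_bot_iff]
    intro x hx
    rw [Ideal.mem_bot]
    by_contra hx0
    have key : ∀ n : ℕ, ∃ y ∈ K, x = (C c) ^ n * y := by
      intro n
      induction n with
      | zero => exact ⟨x, hx, by rw [pow_zero, one_mul]⟩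
      | succ n ih =>
        obtain ⟨y, hy, hxy⟩ := ih
        have h1 := hle hy
        rw [hc', Ideal.map_span, Set.image_singleton, Ideal.mem_span_singleton] at h1
        obtain ⟨z, hz⟩ := h1
        refine ⟨z, ?_, ?_⟩
        · rw [hz] at hy
          exact (hKp.mem_or_mem hy).resolve_left hCK
        · rw [hxy, hz, pow_succ, mul_assoc]
    have hu : ¬ IsUnit (C c : MvPolynomial (Fin s) k) := by
      intro hu
      have h1 : IsUnit (constantCoeff (C c : MvPolynomial (Fin s) k)) := hu.map constantCoeff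
      rw [constantCoeff_C] at h1
      exact hI0.ne_top (Ideal.eq_top_of_isUnit_mem _ hcI h1)
    obtain ⟨n, hn⟩ := FiniteMultiplicity.of_not_isUnit hu hx0
    obtain ⟨y, -, hy⟩ := key (n + 1)
    exact hn ⟨y, hy⟩

theorem thm_Dim1 : St_Dim1 := by
  intro m hm d H I
  obtain ⟨hdom, hpid⟩ : IsDomain (ZMod m) ∧ IsPrincipalIdealRing (ZMod m) := by
    rcases hm with rfl | hm
    · exact ⟨inferInstanceAs (IsDomain ℤ), inferInstanceAs (IsPrincipalIdealRing ℤ)⟩
    · haveI : Fact m.Prime := ⟨hm⟩
      exact ⟨inferInstance, inferInstance⟩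
  haveI : IsNoetherianRing (MvPolynomial (Fin (d + 1)) (ZMod m) ⧸ I) := inferInstance
  refine closed_of_prime _ fun P hP => ?_
  let A := MvPolynomial (Fin (d + 1)) (ZMod m)
  let B := (A ⧸ I) ⧸ P
  haveI : IsDomain B := Ideal.Quotient.isDomain P
  haveI : Algebra.FiniteType (ZMod m) B := inferInstance
  by_cases hres : ResDimLE d B
  · exact H B hres
  unfold ResDimLE at hres
  push Not at hres
  obtain ⟨Q, hQ, hlt⟩ := hres
  haveI := hQ
  let L := FractionRing (B ⧸ Q)
  let f : A →+* B := (Ideal.Quotient.mk P).comp (Ideal.Quotient.mk I)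
  have hf : Surjective f :=
    Ideal.Quotient.mk_surjective.comp Ideal.Quotient.mk_surjective
  let g : B →+* L := (algebraMap (B ⧸ Q) L).comp (Ideal.Quotient.mk Q)
  refine dim1_aux (ZMod m) (d + 1) B f hf L g ?_
  let F : Subfield L := ⊥
  let φ0 : ZMod m →+* L := (g.comp f).comp C
  have hφ0 : ∀ x : ZMod m, φ0 x ∈ F := by
    intro x
    obtain ⟨z, rfl⟩ := ZMod.intCast_surjective x
    rw [map_intCast]
    exact intCast_mem F z
  let φ : ZMod m →+* F := φ0.codRestrict F hφ0
  let t : Fin (d + 1) → L := fun i => g (f (X i))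
  have hev : ∀ p : A, MvPolynomial.aeval t (MvPolynomial.map φ p) = g (f p) := by
    intro p
    have h1 : ((MvPolynomial.aeval t : MvPolynomial (Fin (d + 1)) F →ₐ[F] L) :
        MvPolynomial (Fin (d + 1)) F →+* L).comp (MvPolynomial.map φ) = g.comp f := by
      apply MvPolynomial.ringHom_ext
      · intro a
        show MvPolynomial.aeval t (MvPolynomial.map φ (C a)) = g (f (C a))
        rw [map_C, aeval_C]
        rfl
      · intro i
        show MvPolynomial.aeval t (MvPolynomial.map φ (X i)) = g (f (X i))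
        rw [map_X, aeval_X]
    exact RingHom.congr_fun h1 p
  have hind : AlgebraicIndependent F t := by
    by_contra hdep
    refine absurd (trdeg_le_of_dep F L t ?_ hdep) (not_le.mpr hlt)
    intro x
    obtain ⟨⟨a, b⟩, hab⟩ := IsLocalization.surj (nonZeroDivisors (B ⧸ Q)) x
    obtain ⟨a, rfl⟩ := Ideal.Quotient.mk_surjective a
    obtain ⟨b, hb⟩ := b
    obtain ⟨b, rfl⟩ := Ideal.Quotient.mk_surjective b
    obtain ⟨a, rfl⟩ := hf a
    obtain ⟨b, rfl⟩ := hf b
    refine ⟨MvPolynomial.map φ a, MvPolynomial.map φ b, ?_, ?_⟩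
    · rw [hev]
      show algebraMap (B ⧸ Q) L (Ideal.Quotient.mk Q (f b)) ≠ 0
      exact IsFractionRing.to_map_ne_zero_of_mem_nonZeroDivisors hb
    · rw [hev, hev]
      exact hab
  intro p hp v
  rw [← hev] at hp
  have h1 : MvPolynomial.map φ p = 0 := algebraicIndependent_iff.1 hind _ hp
  have h2 := congrArg (coeff v) h1
  rw [coeff_map, coeff_zero] at h2
  exact congrArg Subtype.val h2

end BassH
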