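import Pool.Agent.BassH.Dim1
import Pool.Agent.Helper67.Bass.Main2

/-!
# BassH: rings of bounded residual dimension from closed subschemes of affine space
-/

set_option autoImplicit false
set_option linter.style.haveILetI false
set_option linter.unusedSectionVars false

namespace BassH

open Function MvPolynomial
open Pool.Agent.Helper11 (G0)
open Pool.Agent.Helper67.Bass (aw le_aw inv_mem_aw aw_le isLocAway finite_of_ess ess_int
  finiteType_mv)

/-- noetherian induction -/
theorem closed_induct (R : Type) [CommRing R] [IsNoetherianRing R]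
    (h : ∀ P : Ideal R, P.IsPrime → (∀ J : Ideal R, P < J → FG0 (R ⧸ J)) → FG0 (R ⧸ P)) :
    FG0 R := by
  have key : ∀ I : Ideal R, FG0 (R ⧸ I) := by
    refine IsNoetherian.induction (P := fun I : Ideal R => FG0 (R ⧸ I)) ?_
    intro I ih
    by_cases hp : Ideal.IsPrime I
    · exact h I hp ih
    by_cases htop : I = ⊤
    · subst htop
      haveI : Subsingleton (R ⧸ (⊤ : Ideal R)) := Ideal.Quotient.subsingleton_iff.mpr rfl
      exact closed_subs _
    have h1 : ∃ a b : R, a * b ∈ I ∧ a ∉ I ∧ b ∉ I := by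
      by_contra hcon
      push Not at hcon
      refine hp ⟨htop, fun {a b} hab => ?_⟩
      by_cases ha : a ∈ I
      · exact Or.inl ha
      · exact Or.inr (hcon a b hab ha)
    obtain ⟨a, b, hab, ha, hb⟩ := h1
    have hlt : ∀ x : R, x ∉ I → I < I ⊔ Ideal.span {x} := by
      intro x hx
      refine lt_of_le_of_ne le_sup_left fun he => hx ?_
      have h2 : x ∈ I ⊔ Ideal.span {x} :=
        le_sup_right (a := I) (Ideal.mem_span_singleton_self x)
      exact he.symm ▸ h2
    refine closed_of_mul (R ⧸ I) ((Ideal.span {a}).map (Ideal.Quotient.mk I))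
      ((Ideal.span {b}).map (Ideal.Quotient.mk I)) ?_ (closed_quot I _ (ih _ (hlt a ha)))
      (closed_quot I _ (ih _ (hlt b hb)))
    rw [← Ideal.map_mul, Ideal.span_singleton_mul_span_singleton, Ideal.map_span,
      Set.image_singleton, Ideal.Quotient.eq_zero_iff_mem.mpr hab, Ideal.span_singleton_eq_bot]
  exact closed_equiv _ _ (RingEquiv.quotientBot R) (key ⊥)

theorem exists_fin_range {L : Type} [Zero L] (s : Finset L) (d : ℕ) (h : s.card ≤ d) :
    ∃ t : Fin d → L, (s : Set L) ⊆ Set.range t := by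
  classical
  refine ⟨fun i => if hi : (i : ℕ) < s.card then (s.equivFin.symm ⟨i, hi⟩ : L) else 0, ?_⟩
  intro x hx
  let j := s.equivFin ⟨x, hx⟩
  refine ⟨⟨j, j.2.trans_le h⟩, ?_⟩
  have hj : ((⟨(j : ℕ), j.2.trans_le h⟩ : Fin d) : ℕ) < s.card := j.2
  simp only [hj, dif_pos]
  show ((s.equivFin.symm j : s) : L) = x
  rw [Equiv.symm_apply_apply]

/-- finitely generated fields of transcendence degree `≤ d` over the prime field are generated by
`d + 1` elements -/
theorem dim2_gens (L : Type) [Field L] [Algebra.EssFiniteType ℤ L] (d : ℕ)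
    (h : Algebra.trdeg (⊥ : Subfield L) L ≤ d) :
    ∃ t : Fin (d + 1) → L, Subfield.closure (Set.range t) = ⊤ := by
  let F : Subfield L := ⊥
  haveI : Algebra.EssFiniteType F L := Algebra.EssFiniteType.of_comp ℤ F L
  haveI : PerfectField F := by
    rcases CharP.exists' L with h0 | ⟨p, hp, hpc⟩
    · haveI : CharZero F := charZero_of_injective_algebraMap (R := ℤ)
        (fun x y hxy => by
          have h1 := congrArg (algebraMap F L) hxy
          simpa using h1)
      infer_instance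
    · haveI := hp
      letI : Algebra (ZMod p) L := ZMod.algebra L p
      haveI : Finite F := by
        have h1 : F = (algebraMap (ZMod p) L).fieldRange := Subfield.bot_eq_of_zMod_algebra p
        rw [h1]
        exact Finite.of_surjective (algebraMap (ZMod p) L).rangeRestrictField
          (algebraMap (ZMod p) L).rangeRestrictField_bijective.2
      infer_instance
  obtain ⟨s, hs, hsep⟩ := exists_isTranscendenceBasis_and_isSeparable_of_perfectField
    (k := F) (K := L)
  let E := IntermediateField.adjoin F (s : Set L)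
  haveI : Algebra.IsSeparable E L := hsep
  haveI : Algebra.EssFiniteType E L := Algebra.EssFiniteType.of_comp F E L
  haveI : Algebra.IsAlgebraic E L := Algebra.IsSeparable.isAlgebraic E L
  haveI : FiniteDimensional E L := finite_of_ess E L
  obtain ⟨α, hα⟩ := Field.exists_primitive_element E L
  have hcard : s.card ≤ d := by
    have h1 : Cardinal.mk s = Algebra.trdeg F L := hs.cardinalMk_eq_trdeg
    rw [← h1] at h
    simpa using h
  have htop : IntermediateField.adjoin F ((s : Set L) ∪ {α}) = ⊤ := by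
    rw [← IntermediateField.adjoin_adjoin_left, hα, IntermediateField.restrictScalars_top]
  obtain ⟨t, ht⟩ := exists_fin_range s d hcard
  refine ⟨Fin.snoc t α, ?_⟩
  let W : IntermediateField F L :=
    { Subfield.closure (Set.range (Fin.snoc t α : Fin (d + 1) → L)) with
      algebraMap_mem' := fun x => (bot_le : (⊥ : Subfield L) ≤ _) x.2 }
  have hW : (⊤ : IntermediateField F L) ≤ W := by
    rw [← htop, IntermediateField.adjoin_le_iff]
    rintro x (hx | hx)
    · obtain ⟨i, rfl⟩ := ht hx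
      exact Subfield.subset_closure ⟨Fin.castSucc i, by simp⟩
    · rw [Set.mem_singleton_iff] at hx
      subst hx
      exact Subfield.subset_closure ⟨Fin.last d, by simp⟩
  rw [eq_top_iff]
  intro x _
  exact hW (IntermediateField.mem_top (x := x))

/-- common denominators -/
theorem exists_aw {L : Type} [Field L] {R : Type} [CommRing R] (φ : R →+* L) {n : ℕ}
    (y : Fin n → L) (C : Subring L) (h0 : ∀ r, φ r ∈ C)
    (hfrac : ∀ x : L, ∃ a ∈ C, ∃ b ∈ C, b ≠ 0 ∧ x * b = a) :
    ∃ (s : L) (hs : s ∈ C), s ≠ 0 ∧ (eval₂Hom φ y).range ≤ aw C s hs := by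
  choose a ha b hb hb0 hab using hfrac
  refine ⟨∏ i, b (y i), prod_mem fun i _ => hb _, Finset.prod_ne_zero_iff.mpr fun i _ => hb0 _,
    ?_⟩
  rintro _ ⟨p, rfl⟩
  induction p using MvPolynomial.induction_on with
  | C r =>
    rw [eval₂Hom_C]
    exact le_aw _ (h0 r)
  | add p q hp hq => rw [map_add]; exact add_mem hp hq
  | mul_X p i hp =>
    rw [map_mul, eval₂Hom_X']
    refine mul_mem hp ⟨1, ?_⟩
    rw [pow_one, ← Finset.mul_prod_erase Finset.univ (fun i => b (y i)) (Finset.mem_univ i),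
      ← mul_assoc, hab]
    exact mul_mem (ha _) (prod_mem fun i _ => hb _)

/-- two subrings with the same fractions have a common localisation -/
theorem exists_common_aw {L : Type} [Field L] (B C : Subring L) (s1 s2 : L) (h1 : s1 ∈ C)
    (h2 : s2 ∈ B) (h10 : s1 ≠ 0) (h20 : s2 ≠ 0) (hB : B ≤ aw C s1 h1) (hC : C ≤ aw B s2 h2) :
    ∃ (u v : L) (hu : u ∈ B) (hv : v ∈ C), u ≠ 0 ∧ v ≠ 0 ∧ aw B u hu = aw C v hv := by
  obtain ⟨n, hn⟩ := hC h1
  obtain ⟨m, hm⟩ := hB h2
  have hu : s1 * s2 ^ n * s2 ∈ B := mul_mem hn h2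
  have hv : s2 * s1 ^ m * s1 ∈ C := mul_mem hm h1
  have hu0 : s1 * s2 ^ n * s2 ≠ 0 := mul_ne_zero (mul_ne_zero h10 (pow_ne_zero _ h20)) h20
  have hv0 : s2 * s1 ^ m * s1 ≠ 0 := mul_ne_zero (mul_ne_zero h20 (pow_ne_zero _ h10)) h10
  refine ⟨_, _, hu, hv, hu0, hv0, ?_⟩
  -- inverses
  have a2 : s2⁻¹ ∈ aw B _ hu := by
    have : s2⁻¹ = (s1 * s2 ^ n) * (s1 * s2 ^ n * s2)⁻¹ := by field_simp
    rw [this]
    exact mul_mem (le_aw _ hn) (inv_mem_aw _ hu0)
  have a1 : s1⁻¹ ∈ aw B _ hu := by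
    have : s1⁻¹ = s2 ^ n * s2 * (s1 * s2 ^ n * s2)⁻¹ := by field_simp
    rw [this]
    exact mul_mem (le_aw _ (mul_mem (pow_mem h2 n) h2)) (inv_mem_aw _ hu0)
  have b1 : s1⁻¹ ∈ aw C _ hv := by
    have : s1⁻¹ = (s2 * s1 ^ m) * (s2 * s1 ^ m * s1)⁻¹ := by field_simp
    rw [this]
    exact mul_mem (le_aw _ hm) (inv_mem_aw _ hv0)
  have b2 : s2⁻¹ ∈ aw C _ hv := by
    have : s2⁻¹ = s1 ^ m * s1 * (s2 * s1 ^ m * s1)⁻¹ := by field_simp
    rw [this]
    exact mul_mem (le_aw _ (mul_mem (pow_mem h1 m) h1)) (inv_mem_aw _ hv0)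
  have cB : C ≤ aw B _ hu := hC.trans (aw_le h2 h20 (le_aw _) a2)
  have cC : B ≤ aw C _ hv := hB.trans (aw_le h1 h10 (le_aw _) b1)
  refine le_antisymm (aw_le hu hu0 cC ?_) (aw_le hv hv0 cB ?_)
  · have : (s1 * s2 ^ n * s2)⁻¹ = s1⁻¹ * (s2⁻¹ ^ n * s2⁻¹) := by
      rw [mul_inv, mul_inv, inv_pow]; ring
    rw [this]
    exact mul_mem b1 (mul_mem (pow_mem b2 n) b2)
  · have : (s2 * s1 ^ m * s1)⁻¹ = s2⁻¹ * (s1⁻¹ ^ m * s1⁻¹) := by
      rw [mul_inv, mul_inv, inv_pow]; ring
    rw [this]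
    exact mul_mem a2 (mul_mem (pow_mem a1 m) a1)

theorem ft_int {n m : ℕ} (B : Type) [CommRing B] (f : MvPolynomial (Fin n) (ZMod m) →+* B)
    (hf : Surjective f) : @Algebra.FiniteType ℤ B _ _ (Ring.toIntAlgebra B) := by
  haveI := finiteType_mv n m
  exact Algebra.FiniteType.of_surjective f.toIntAlgHom hf

theorem thm_Dim2 : St_Dim2 := by
  intro m hm d H C _ _ _ hres
  haveI hZ : IsNoetherianRing (ZMod m) := isNoetherianRing_of_surjective ℤ (ZMod m)
    (Int.castRingHom (ZMod m)) (ZMod.ringHom_surjective _)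
  haveI : IsNoetherianRing C := Algebra.FiniteType.isNoetherianRing (ZMod m) C
  refine closed_induct C fun P hP hJ => ?_
  haveI := hP
  let B := C ⧸ P
  let L := FractionRing B
  -- `B` is finitely generated
  haveI : Algebra.FiniteType (ZMod m) B := inferInstance
  obtain ⟨n, f, hf⟩ := Algebra.FiniteType.iff_quotient_mvPolynomial''.mp
    (inferInstance : Algebra.FiniteType (ZMod m) B)
  obtain ⟨t, ht⟩ := @dim2_gens L _ (@ess_int B _ _ (ft_int B f.toRingHom hf) L _ _ _) d (hres P)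
  let k := ZMod m
  let ι : B →+* L := algebraMap B L
  have hι : Injective ι := IsFractionRing.injective B L
  let φ : k →+* L := ι.comp (algebraMap k B)
  let A := MvPolynomial (Fin (d + 1)) k
  let ψ : A →+* L := eval₂Hom φ t
  let B1 : Subring L := ι.range
  let C1 : Subring L := ψ.range
  have hφB : ∀ r, φ r ∈ B1 := fun r => ⟨_, rfl⟩
  have hφC : ∀ r, φ r ∈ C1 := fun r => ⟨MvPolynomial.C r, eval₂Hom_C _ _ _⟩
  have hfracB : ∀ x : L, ∃ a ∈ B1, ∃ b ∈ B1, b ≠ 0 ∧ x * b = a := by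
    intro x
    obtain ⟨⟨a, b, hb⟩, hab⟩ := IsLocalization.surj (nonZeroDivisors B) x
    exact ⟨ι a, ⟨a, rfl⟩, ι b, ⟨b, rfl⟩,
      IsFractionRing.to_map_ne_zero_of_mem_nonZeroDivisors hb, hab⟩
  have hfracC : ∀ x : L, ∃ a ∈ C1, ∃ b ∈ C1, b ≠ 0 ∧ x * b = a := by
    intro x
    have hx : x ∈ Subfield.closure (Set.range t) := by rw [ht]; trivial
    obtain ⟨y, hy, z, hz, rfl⟩ := Subfield.mem_closure_iff.mp hx
    have hle : Subring.closure (Set.range t) ≤ C1 := by
      rw [Subring.closure_le]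
      rintro _ ⟨i, rfl⟩
      exact ⟨X i, eval₂Hom_X' _ _ _⟩
    by_cases hz0 : z = 0
    · exact ⟨0, zero_mem _, 1, one_mem _, one_ne_zero, by rw [hz0, div_zero, zero_mul]⟩
    · exact ⟨y, hle hy, z, hle hz, hz0, div_mul_cancel₀ y hz0⟩
  -- the two denominators
  obtain ⟨s2, h2, h20, hC⟩ := exists_aw φ t B1 hφB hfracB
  obtain ⟨s1, h1, h10, hB⟩ := exists_aw φ (fun i => ι (f (X i))) C1 hφC hfracC
  have hB' : B1 ≤ aw C1 s1 h1 := by
    refine le_trans ?_ hB
    rintro _ ⟨b, rfl⟩
    obtain ⟨p, rfl⟩ := hf b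
    refine ⟨p, ?_⟩
    have e : eval₂Hom φ (fun i => ι (f (X i))) = ι.comp (f : MvPolynomial (Fin n) k →+* B) := by
      apply MvPolynomial.ringHom_ext
      · intro a
        rw [eval₂Hom_C]
        show ι (algebraMap k B a) = ι (f (MvPolynomial.C a))
        rw [← MvPolynomial.algebraMap_eq, AlgHom.commutes]
      · intro i
        rw [eval₂Hom_X']
        rfl
    exact RingHom.congr_fun e p
  obtain ⟨u, v, hu, hv, hu0, hv0, heq⟩ := exists_common_aw B1 C1 s1 s2 h1 h2 h10 h20 hB' hC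
  obtain ⟨u', rfl⟩ := hu
  obtain ⟨v', rfl⟩ := hv
  -- `B[1/u']`
  let V : Subring L := aw B1 (ι u') ⟨u', rfl⟩
  have hFGV : FG0 V := by
    have hVC : V = aw C1 (ψ v') ⟨v', rfl⟩ := heq
    let A1 := A ⧸ RingHom.ker ψ
    let ψ' : A1 →+* L := RingHom.kerLift ψ
    have hψ' : Injective ψ' := RingHom.kerLift_injective ψ
    have hmk : ∀ a, ψ' (Ideal.Quotient.mk _ a) = ψ a := fun a => rfl
    have hmem : ∀ r, ψ' r ∈ V := by
      intro r
      obtain ⟨a, rfl⟩ := Ideal.Quotient.mk_surjective r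
      rw [hmk, hVC]
      exact le_aw _ ⟨a, rfl⟩
    letI := (ψ'.codRestrict V hmem).toAlgebra
    haveI : IsLocalization.Away (Ideal.Quotient.mk (RingHom.ker ψ) v') V := by
      refine isLocAway ψ' hψ' (Ideal.Quotient.mk (RingHom.ker ψ) v') hv0 V hmem ?_ ?_
      · rw [hmk, hVC]
        exact inv_mem_aw _ hv0
      · intro x hx
        rw [hVC] at hx
        obtain ⟨n, a, ha⟩ := hx
        exact ⟨n, Ideal.Quotient.mk _ a, ha.symm⟩
    haveI : IsNoetherianRing A1 := inferInstance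
    exact closed_away A1 V (Ideal.Quotient.mk (RingHom.ker ψ) v') (H (RingHom.ker ψ))
  have hmem : ∀ r, ι r ∈ V := fun r => le_aw _ ⟨r, rfl⟩
  letI := (ι.codRestrict V hmem).toAlgebra
  haveI : IsLocalization.Away u' V := by
    refine isLocAway ι hι u' hu0 V hmem (inv_mem_aw _ hu0) ?_
    intro x hx
    obtain ⟨n, a, ha⟩ := hx
    exact ⟨n, a, ha.symm⟩
  refine closed_of_away B V u' ?_ hFGV
  obtain ⟨w, rfl⟩ := Ideal.Quotient.mk_surjective u'
  have hw : w ∉ P := by
    intro hw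
    apply hu0
    rw [Ideal.Quotient.eq_zero_iff_mem.mpr hw, map_zero]
  have hlt : P < P ⊔ Ideal.span {w} := by
    refine lt_of_le_of_ne le_sup_left fun he => hw ?_
    have h2 : w ∈ P ⊔ Ideal.span {w} :=
      le_sup_right (a := P) (Ideal.mem_span_singleton_self w)
    exact he.symm ▸ h2
  have h3 := closed_quot P (Ideal.span {w}) (hJ _ hlt)
  rw [Ideal.map_span, Set.image_singleton] at h3
  exact h3

end BassH
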