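import Pool.Agent.BassH.StmtsA

/-!
# BassH: assembly
-/

set_option autoImplicit false

namespace BassH

open Pool.Agent.Helper11 Function

theorem final_zmod (m : ℕ) (hm : m = 0 ∨ m.Prime) :
    IsDomain (ZMod m) ∧ IsPrincipalIdealRing (ZMod m) := by
  rcases hm with rfl | hm
  · exact ⟨inferInstanceAs (IsDomain ℤ), inferInstanceAs (IsPrincipalIdealRing ℤ)⟩
  · haveI : Fact m.Prime := ⟨hm⟩
    exact ⟨inferInstance, inferInstance⟩

theorem final_surj {G H : Type*} [AddCommGroup G] [AddCommGroup H] (h : SurjectsOnto G H)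
    (hG : AddGroup.FG G) : AddGroup.FG H := by
  obtain ⟨f, hf⟩ := h
  exact AddGroup.fg_of_surjective hf

theorem thm_Final (h0 : FG0Closed) (h1 : St_TriFG) (h2 : St_CubFG) (h3 : St_CubSm)
    (h4 : St_Enc) (h5 : St_Dim1) (h6 : St_Dim2) (h7 : St_Loc) (h8 : St_KPoly) (h9 : St_AllFFR) :
    St_Final := by
  intro m hm d
  obtain ⟨hd, hp⟩ := final_zmod m hm
  refine ⟨fun b c t => h3 (ZMod m) (d + 2) b c t, ?_⟩
  tfae_have 1 → 2 := h5 m hm d
  tfae_have 2 → 1 := h6 m hm d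
  tfae_have 2 → 3 := fun h b c t => h1 (ZMod m) (d + 1) h b c t
  tfae_have 2 → 4 := fun h b c t => h2 (ZMod m) (d + 1) (h0.pid (ZMod m)) h b c t
  tfae_have 3 → 5 := by
    intro h b c t ht
    have h3 := h9 m hm (Fin (d + 2) ⊕ Fin b ⊕ Fin c)
    exact (h7 _ (Localization.Away (triF t)) (triF t) ht h3).1 (h b c t) (h8 m hm _)
  tfae_have 5 → 2 := by
    intro h I
    obtain ⟨b, c, t, ht, hs, -, -⟩ := h4 (ZMod m) (d + 1) I
    exact final_surj hs (h b c t ht)
  tfae_have 4 → 2 := by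
    intro h I
    obtain ⟨b, c, t, ht, -, -, hs⟩ := h4 (ZMod m) (d + 1) I
    exact final_surj hs (h b c t)
  tfae_finish

end BassH
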