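import Pool.Agent.BassH.Defs

/-!
# BassH: the statements of the hierarchy
-/

set_option autoImplicit false

namespace BassH

open Pool.Agent.Helper11 MvPolynomial

/-- coordinate ring of the trilinear hypersurface `F = 0` -/
abbrev TriRing {k : Type} [CommRing k] {a b c : ℕ} (t : Fin a → Fin b → Fin c → k) : Type :=
  MvPolynomial (Fin a ⊕ Fin b ⊕ Fin c) k ⧸ Ideal.span {triF t}

/-- coordinate ring of the cubic `F = T² - T` -/
abbrev CubRing {k : Type} [CommRing k] {a b c : ℕ} (t : Fin a → Fin b → Fin c → k) : Type :=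
  MvPolynomial (Option (Fin a ⊕ Fin b ⊕ Fin c)) k ⧸ Ideal.span {cubF t}

/-- coordinate ring of the complement `F ≠ 0` -/
abbrev CompRing {k : Type} [CommRing k] {a b c : ℕ} (t : Fin a → Fin b → Fin c → k) : Type :=
  Localization.Away (triF t)

/-- `G₀(C)` is finitely generated for all finitely generated `k`-algebras `C` whose residue fields
have transcendence degree at most `d` over their prime fields -/
def ResFG (k : Type) [CommRing k] (d : ℕ) : Prop :=
  ∀ (C : Type) [CommRing C] [Algebra k C] [Algebra.FiniteType k C],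
    ResDimLE d C → AddGroup.FG (G0 C)

/-- `G₀` is finitely generated for all closed subschemes of affine `n`-space over `k` -/
def AffFG (k : Type) [CommRing k] (n : ℕ) : Prop :=
  ∀ I : Ideal (MvPolynomial (Fin n) k), AddGroup.FG (G0 (MvPolynomial (Fin n) k ⧸ I))

/-- `G₀` is finitely generated for all trilinear hypersurfaces of format `(a, b, c)` -/
def TriFG (k : Type) [CommRing k] (a : ℕ) : Prop :=
  ∀ (b c : ℕ) (t : Fin a → Fin b → Fin c → k), AddGroup.FG (G0 (TriRing t))

/-- `G₀` is finitely generated for all cubics `F = T² - T` of format `(a, b, c)` -/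
def CubFG (k : Type) [CommRing k] (a : ℕ) : Prop :=
  ∀ (b c : ℕ) (t : Fin a → Fin b → Fin c → k), AddGroup.FG (G0 (CubRing t))

/-- `K₁` is finitely generated for all complements `F ≠ 0` of format `(a, b, c)` -/
def CompFG (k : Type) [CommRing k] (a : ℕ) : Prop :=
  ∀ (b c : ℕ) (t : Fin a → Fin b → Fin c → k), triF t ≠ 0 → AddGroup.FG (K1 (CompRing t))

end BassH
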