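import Pool.Agent.BassH.Closed

/-!
# BassH: linear systems over a graded ring, and bilinear hypersurfaces, for finite generation of `G₀`
-/

set_option autoImplicit false
set_option linter.style.haveILetI false
set_option linter.unusedSectionVars false

namespace BassH

open Function MvPolynomial
open Pool.Agent.Helper11 (G0)
open Pool.Agent.Helper67.Bass (LI LI_zero elim bilForm)

section pivot

variable {A : Type} [CommRing A]

theorem fg0_zero [IsNoetherianRing A] {κ σ : Type} [Fintype σ] (I : Ideal A) (φ : κ → σ → A)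
    (h : ∀ k j, φ k j ∈ I) (hI : FG0 (A ⧸ I)) : FG0 (MvPolynomial σ A ⧸ LI I φ) := by
  rw [LI_zero I φ h]
  exact closed_equiv _ _ (quotientEquivQuotientMvPolynomial (σ := σ) I).toRingEquiv
    (closed_mv _ σ hI)

/-- a ring homomorphism which becomes an isomorphism after inverting `s` -/
theorem fg0_of_almost_iso {T' T : Type} [CommRing T'] [CommRing T] [IsNoetherianRing T']
    (g : T' →+* T) (s' : T') (s : T) (hs : g s' = s)
    (h1 : ∀ t : T, ∃ (m : ℕ) (t' : T'), s ^ m * t = g t')
    (h2 : ∀ t' : T', g t' = 0 → ∃ m : ℕ, s' ^ m * t' = 0) (h : FG0 T') :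
    FG0 (Localization.Away s) := by
  letI : Algebra T' (Localization.Away s) :=
    ((algebraMap T (Localization.Away s)).comp g).toAlgebra
  have halg : ∀ t', algebraMap T' (Localization.Away s) t' =
    algebraMap T (Localization.Away s) (g t') := fun t' => rfl
  haveI : IsLocalization.Away s' (Localization.Away s) := by
    refine { map_units := ?_, surj := ?_, exists_of_eq := ?_ }
    · rintro ⟨_, n, rfl⟩
      rw [halg]
      show IsUnit (algebraMap T (Localization.Away s) (g (s' ^ n)))
      rw [map_pow, hs, map_pow]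
      exact (IsLocalization.Away.algebraMap_isUnit s).pow n
    · intro z
      obtain ⟨n, t, hz⟩ := IsLocalization.Away.surj s z
      obtain ⟨m, t', ht⟩ := h1 t
      refine ⟨(t', ⟨s' ^ (n + m), n + m, rfl⟩), ?_⟩
      rw [halg, halg]
      show z * algebraMap T (Localization.Away s) (g (s' ^ (n + m))) = _
      rw [map_pow, hs, map_pow, pow_add, ← mul_assoc, hz, ← map_pow, ← map_mul, mul_comm t, ht]
    · intro x y hxy
      rw [halg, halg] at hxy
      obtain ⟨⟨_, n, rfl⟩, hc⟩ := (IsLocalization.eq_iff_exists (Submonoid.powers s) _).1 hxy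
      have hc' : s ^ n * g x = s ^ n * g y := hc
      have h3 : g (s' ^ n * (x - y)) = 0 := by
        rw [map_mul, map_pow, hs, map_sub, mul_sub, hc', sub_self]
      obtain ⟨m, hm⟩ := h2 _ h3
      refine ⟨⟨s' ^ (m + n), m + n, rfl⟩, ?_⟩
      show s' ^ (m + n) * x = s' ^ (m + n) * y
      rw [← sub_eq_zero, ← mul_sub, pow_add, mul_assoc]
      exact hm
  exact closed_away T' _ s' h

variable {κ σ : Type} [Fintype σ] [DecidableEq σ]

theorem fg0_pivot [IsNoetherianRing A] (I : Ideal A) (φ : κ → σ → A) (k0 : κ) (j0 : σ)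
    (h1 : FG0 (MvPolynomial σ A ⧸ LI (I ⊔ Ideal.span {φ k0 j0}) φ))
    (h2 : FG0 (MvPolynomial {l : σ // l ≠ j0} A ⧸ LI I (elim φ k0 j0))) :
    FG0 (MvPolynomial σ A ⧸ LI I φ) := by
  classical
  set s := φ k0 j0 with hs
  set S := {l : σ // l ≠ j0} with hS
  set T := MvPolynomial σ A ⧸ LI I φ with hT
  set T' := MvPolynomial S A ⧸ LI I (elim φ k0 j0) with hT'
  let mk : MvPolynomial σ A →+* T := Ideal.Quotient.mk _
  let mk' : MvPolynomial S A →+* T' := Ideal.Quotient.mk _
  have hrow : ∀ k, mk (∑ j, C (φ k j) * X j) = 0 := fun k =>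
    Ideal.Quotient.eq_zero_iff_mem.2 (Ideal.mem_sup_right (Ideal.subset_span ⟨k, rfl⟩))
  have hrow' : ∀ k, mk' (∑ l, C (elim φ k0 j0 k l) * X l) = 0 := fun k =>
    Ideal.Quotient.eq_zero_iff_mem.2 (Ideal.mem_sup_right (Ideal.subset_span ⟨k, rfl⟩))
  have hIk : ∀ a ∈ I, mk (C a) = 0 := fun a ha =>
    Ideal.Quotient.eq_zero_iff_mem.2 (Ideal.mem_sup_left (Ideal.mem_map_of_mem C ha))
  have hIk' : ∀ a ∈ I, mk' (C a) = 0 := fun a ha =>
    Ideal.Quotient.eq_zero_iff_mem.2 (Ideal.mem_sup_left (Ideal.mem_map_of_mem C ha))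
  have hsplit : ∀ (B : Type) [AddCommMonoid B] (f : σ → B),
      ∑ j, f j = f j0 + ∑ l : S, f l := by
    intro B _ f
    rw [← Finset.add_sum_erase Finset.univ f (Finset.mem_univ j0)]
    congr 1
    rw [Finset.sum_subtype (Finset.univ.erase j0) (p := fun l => l ≠ j0) (by simp) f]
  -- the map `g`
  let g0 : MvPolynomial S A →+* T := mk.comp (rename (Subtype.val : S → σ)).toRingHom
  have hg0C : ∀ a, g0 (C a) = mk (C a) := fun a => by
    show mk (rename Subtype.val (C a)) = _
    rw [rename_C]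
  have hg0X : ∀ l : S, g0 (X l) = mk (X l.1) := fun l => by
    show mk (rename Subtype.val (X l)) = _
    rw [rename_X]
  have hg0ker : LI I (elim φ k0 j0) ≤ RingHom.ker g0 := by
    unfold LI
    rw [sup_le_iff]
    constructor
    · rw [Ideal.map_le_iff_le_comap]
      intro a ha
      show g0 (C a) = 0
      rw [hg0C, hIk a ha]
    · rw [Ideal.span_le]
      rintro _ ⟨k, rfl⟩
      show g0 (∑ l, C (elim φ k0 j0 k l) * X l) = 0
      rw [map_sum]
      have e1 : ∀ l : S, g0 (C (elim φ k0 j0 k l) * X l) =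
          mk (C s) * mk (C (φ k l) * X l.1) - mk (C (φ k j0)) * mk (C (φ k0 l) * X l.1) := by
        intro l
        rw [map_mul, hg0C, hg0X, elim]
        simp only [map_sub, map_mul]
        ring
      rw [Finset.sum_congr rfl (fun l _ => e1 l), Finset.sum_sub_distrib, ← Finset.mul_sum,
        ← Finset.mul_sum]
      have e2 := hrow k
      have e3 := hrow k0
      rw [map_sum, hsplit] at e2 e3
      have e4 : ∑ l : S, mk (C (φ k l) * X l.1) = - mk (C (φ k j0) * X j0) := by
        linear_combination e2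
      have e5 : ∑ l : S, mk (C (φ k0 l) * X l.1) = - mk (C (φ k0 j0) * X j0) := by
        linear_combination e3
      rw [e4, e5, map_mul, map_mul]
      ring
  let g : T' →+* T := Ideal.Quotient.lift _ g0 hg0ker
  have hgC : ∀ a, g (mk' (C a)) = mk (C a) := fun a =>
    (Ideal.Quotient.lift_mk _ _ _).trans (hg0C a)
  have hgX : ∀ l : S, g (mk' (X l)) = mk (X l.1) := fun l =>
    (Ideal.Quotient.lift_mk _ _ _).trans (hg0X l)
  -- the retraction after inverting `s`
  let L := Localization.Away (mk' (C s))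
  let al : T' →+* L := algebraMap T' L
  have hunit : IsUnit (al (mk' (C s))) := IsLocalization.Away.algebraMap_isUnit _
  obtain ⟨w, hw⟩ := isUnit_iff_exists_inv.1 hunit
  let v : σ → L := fun j => if h : j = j0 then - w * ∑ l : S, al (mk' (C (φ k0 l) * X l))
    else al (mk' (X ⟨j, h⟩))
  have hv0 : v j0 = - w * ∑ l : S, al (mk' (C (φ k0 l) * X l)) := by simp [v]
  have hvl : ∀ l : S, v l = al (mk' (X l)) := by
    rintro ⟨l, hl⟩
    simp [v, hl]
  let h0 : MvPolynomial σ A →+* L := eval₂Hom ((al.comp mk').comp C) v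
  have hh0C : ∀ a, h0 (C a) = al (mk' (C a)) := fun a => by
    simp [h0]
  have hh0X : ∀ j, h0 (X j) = v j := fun j => by simp [h0]
  have hh0ker : LI I φ ≤ RingHom.ker h0 := by
    unfold LI
    rw [sup_le_iff]
    constructor
    · rw [Ideal.map_le_iff_le_comap]
      intro a ha
      show h0 (C a) = 0
      rw [hh0C, hIk' a ha, map_zero]
    · rw [Ideal.span_le]
      rintro _ ⟨k, rfl⟩
      show h0 (∑ j, C (φ k j) * X j) = 0
      rw [map_sum, hsplit, map_mul, hh0C, hh0X, hv0]
      have e1 : ∀ l : S, h0 (C (φ k l) * X l.1) = al (mk' (C (φ k l) * X l)) := by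
        intro l
        rw [map_mul, hh0C, hh0X, hvl, map_mul, map_mul]
      rw [Finset.sum_congr rfl (fun l _ => e1 l)]
      have e2 := congrArg al (hrow' k)
      rw [map_sum, map_sum, map_zero] at e2
      have e3 : ∀ l : S, al (mk' (C (elim φ k0 j0 k l) * X l)) =
          al (mk' (C s)) * al (mk' (C (φ k l) * X l)) -
          al (mk' (C (φ k j0))) * al (mk' (C (φ k0 l) * X l)) := by
        intro l
        rw [elim]
        simp only [map_sub, map_mul]
        ring
      rw [Finset.sum_congr rfl (fun l _ => e3 l), Finset.sum_sub_distrib, ← Finset.mul_sum,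
        ← Finset.mul_sum] at e2
      apply hunit.mul_left_cancel
      rw [mul_zero]
      linear_combination e2 - (al (mk' (C (φ k j0))) *
        ∑ l : S, al (mk' (C (φ k0 l) * X l))) * hw
  let hh : T →+* L := Ideal.Quotient.lift _ h0 hh0ker
  have hhg : hh.comp g = al := by
    apply Ideal.Quotient.ringHom_ext
    apply MvPolynomial.ringHom_ext
    · intro a
      show hh (g (mk' (C a))) = al (mk' (C a))
      rw [hgC]
      exact (Ideal.Quotient.lift_mk _ _ _).trans (hh0C a)
    · intro l
      show hh (g (mk' (X l))) = al (mk' (X l))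
      rw [hgX]
      exact (Ideal.Quotient.lift_mk _ _ _).trans ((hh0X l.1).trans (hvl l))
  -- the two conditions
  have c2 : ∀ t' : T', g t' = 0 → ∃ m : ℕ, (mk' (C s)) ^ m * t' = 0 := by
    intro t' ht'
    have h3 : al t' = 0 := by rw [← hhg, RingHom.comp_apply, ht', map_zero]
    obtain ⟨⟨_, m, rfl⟩, hm⟩ := (IsLocalization.map_eq_zero_iff
      (Submonoid.powers (mk' (C s))) L t').1 h3
    exact ⟨m, hm⟩
  have c1 : ∀ t : T, ∃ (m : ℕ) (t' : T'), (mk (C s)) ^ m * t = g t' := by
    intro t
    obtain ⟨f, rfl⟩ := Ideal.Quotient.mk_surjective t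
    show ∃ (m : ℕ) (t' : T'), (mk (C s)) ^ m * mk f = g t'
    induction f using MvPolynomial.induction_on with
    | C a => exact ⟨0, mk' (C a), by rw [pow_zero, one_mul, hgC]⟩
    | add p q hp hq =>
      obtain ⟨m, t, ht⟩ := hp
      obtain ⟨n, r, hr⟩ := hq
      refine ⟨m + n, (mk' (C s)) ^ n * t + (mk' (C s)) ^ m * r, ?_⟩
      rw [map_add, map_add, map_mul, map_mul, map_pow, map_pow, hgC, ← ht, ← hr]
      ring
    | mul_X p j hp =>
      obtain ⟨m, t, ht⟩ := hp
      by_cases hj : j = j0
      · subst hj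
        refine ⟨m + 1, t * mk' (- ∑ l : S, C (φ k0 l) * X l), ?_⟩
        have e3 := hrow k0
        rw [map_sum, hsplit] at e3
        have e4 : g (mk' (∑ l : S, C (φ k0 l) * X l)) = ∑ l : S, mk (C (φ k0 l) * X l.1) := by
          rw [map_sum, map_sum]
          refine Finset.sum_congr rfl (fun l _ => ?_)
          rw [map_mul, map_mul, hgC, hgX, map_mul]
        have e5 : mk (C (φ k0 j) * X j) = mk (C s) * mk (X j) := map_mul _ _ _
        have e6 : mk (p * X j) = mk p * mk (X j) := map_mul _ _ _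
        rw [e5] at e3
        rw [map_mul g, map_neg, map_neg, e4, ← ht, e6]
        linear_combination (mk (C s) ^ m * mk p) * e3
      · refine ⟨m, t * mk' (X ⟨j, hj⟩), ?_⟩
        rw [map_mul, map_mul, hgX, ← ht]
        ring
  refine closed_of_away T (Localization.Away (mk (C s))) (mk (C s)) ?_
    (fg0_of_almost_iso g (mk' (C s)) (mk (C s)) (hgC s) c1 c2 h2)
  have e1 : Ideal.span {mk (C s)} = (Ideal.span {C s}).map mk := by
    rw [Ideal.map_span, Set.image_singleton]
  rw [e1]
  refine closed_equiv _ _ (DoubleQuot.quotQuotEquivQuotSup (LI I φ) (Ideal.span {C s})).symm ?_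
  have e2 : LI I φ ⊔ Ideal.span {C s} = LI (I ⊔ Ideal.span {s}) φ := by
    unfold LI
    rw [Ideal.map_sup, Ideal.map_span, Set.image_singleton]
    ac_rfl
  rw [e2]
  exact h1

end pivot

variable {ι : Type} [AddCommGroup ι] [DecidableEq ι] {A : Type}
  [CommRing A] {σ' : Type} [SetLike σ' A] [AddSubgroupClass σ' A] (𝒜 : ι → σ') [GradedRing 𝒜]

/-- linear systems with homogeneous coefficients -/
theorem fg0_linear [IsNoetherianRing A]
    (hgood : ∀ I : Ideal A, I.IsHomogeneous 𝒜 → FG0 (A ⧸ I)) (n : ℕ) :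
    ∀ (σ : Type) [Fintype σ] [DecidableEq σ], Fintype.card σ = n → ∀ (κ : Type) (φ : κ → σ → A)
      (α : κ → ι) (β : σ → ι), (∀ k j, φ k j ∈ 𝒜 (β j - α k)) →
      ∀ I : Ideal A, I.IsHomogeneous 𝒜 → FG0 (MvPolynomial σ A ⧸ LI I φ) := by
  induction n with
  | zero =>
    intro σ _ _ hσ κ φ α β hφ I hI
    have : IsEmpty σ := Fintype.card_eq_zero_iff.1 hσ
    exact fg0_zero I φ (fun k j => isEmptyElim j) (hgood I hI)
  | succ n ih =>
    intro σ _ _ hσ κ φ α β hφ I
    refine IsNoetherian.induction (R := A) (M := A)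
      (P := fun I : Ideal A => I.IsHomogeneous 𝒜 → FG0 (MvPolynomial σ A ⧸ LI I φ)) ?_ I
    intro (I : Ideal A) ihI hI
    by_cases h : ∀ k j, φ k j ∈ I
    · exact fg0_zero I φ h (hgood I hI)
    · push Not at h
      obtain ⟨k0, j0, hkj⟩ := h
      have hs : SetLike.IsHomogeneousElem 𝒜 (φ k0 j0) := ⟨_, hφ k0 j0⟩
      have hlt : I < I ⊔ Ideal.span {φ k0 j0} := by
        refine lt_of_le_of_ne le_sup_left (fun h2 => hkj ?_)
        rw [h2]
        exact Ideal.mem_sup_right (Ideal.mem_span_singleton_self _)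
      have hhom : (I ⊔ Ideal.span {φ k0 j0}).IsHomogeneous 𝒜 := by
        apply Ideal.IsHomogeneous.sup hI
        apply Ideal.homogeneous_span
        intro x hx
        rw [Set.mem_singleton_iff] at hx
        rw [hx]; exact hs
      apply fg0_pivot I φ k0 j0 (ihI _ hlt hhom)
      have hcard : Fintype.card {l : σ // l ≠ j0} = n := by
        rw [Fintype.card_subtype_compl, Fintype.card_subtype_eq, hσ]; rfl
      refine ih {l : σ // l ≠ j0} hcard κ (elim φ k0 j0) α
        (fun l => β l + (β j0 - α k0)) ?_ I hI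
      intro k l
      unfold elim
      apply sub_mem
      · have := SetLike.GradedMul.mul_mem (hφ k0 j0) (hφ k l)
        have e : β l + (β j0 - α k0) - α k = (β j0 - α k0) + (β l - α k) := by abel
        rw [e]; exact this
      · have := SetLike.GradedMul.mul_mem (hφ k j0) (hφ k0 l)
        have e : β l + (β j0 - α k0) - α k = (β j0 - α k) + (β l - α k0) := by abel
        rw [e]; exact this

theorem fg0_bilinear [IsNoetherianRing A]
    (hgood : ∀ I : Ideal A, I.IsHomogeneous 𝒜 → FG0 (A ⧸ I))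
    {σ κ : Type} [Fintype σ] [DecidableEq σ] [Fintype κ] [DecidableEq κ] (φ : κ → σ → A)
    (α : κ → ι) (β : σ → ι) (hφ : ∀ k j, φ k j ∈ 𝒜 (β j - α k))
    (I : Ideal A) (hI : I.IsHomogeneous 𝒜) :
    FG0 (MvPolynomial κ (MvPolynomial σ A) ⧸ ((I.map C).map C ⊔ Ideal.span {bilForm φ})) := by
  classical
  let row : κ → MvPolynomial σ A := fun k => ∑ j, C (φ k j) * X j
  let J : Finset κ → Ideal (MvPolynomial σ A) := fun S => I.map C ⊔ Ideal.span (row '' S)
  let ψ : Unit → κ → MvPolynomial σ A := fun _ k => row k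
  have hJ : ∀ S, FG0 (MvPolynomial σ A ⧸ J S) := by
    intro S
    have h1 := fg0_linear 𝒜 hgood (Fintype.card σ) σ rfl {k : κ // k ∈ S} (fun k => φ k)
      (fun k => α k) β (fun k j => hφ k j) I hI
    have h2 : LI I (fun k : {k : κ // k ∈ S} => φ k) = J S := by
      unfold LI
      show _ ⊔ Ideal.span _ = _ ⊔ Ideal.span _
      congr 2
      ext x
      constructor
      · rintro ⟨k, rfl⟩; exact ⟨k, k.2, rfl⟩
      · rintro ⟨k, hk, rfl⟩; exact ⟨⟨k, hk⟩, rfl⟩
    rwa [h2] at h1
  have key : ∀ (n : ℕ) (S : Finset κ), (Finset.univ \ S).card = n →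
      FG0 (MvPolynomial κ (MvPolynomial σ A) ⧸ LI (J S) ψ) := by
    intro n
    induction n with
    | zero =>
      intro S hS
      apply fg0_zero _ _ _ (hJ S)
      intro _ k
      have hk : k ∈ S := by
        rw [Finset.card_eq_zero, Finset.sdiff_eq_empty_iff_subset] at hS
        exact hS (Finset.mem_univ k)
      exact Ideal.mem_sup_right (Ideal.subset_span ⟨k, hk, rfl⟩)
    | succ n ih =>
      intro S hS
      obtain ⟨k0, hk0⟩ : ∃ k0, k0 ∈ Finset.univ \ S := by
        rw [← Finset.Nonempty, ← Finset.card_pos, hS]; omega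
      have hk0S : k0 ∉ S := (Finset.mem_sdiff.1 hk0).2
      apply fg0_pivot (J S) ψ () k0
      · have e : J S ⊔ Ideal.span {ψ () k0} = J (insert k0 S) := by
          show (_ ⊔ Ideal.span _) ⊔ Ideal.span {row k0} =
            _ ⊔ Ideal.span (row '' ((insert k0 S : Finset κ)))
          rw [Finset.coe_insert, Set.image_insert_eq, Ideal.span_insert, sup_assoc,
            sup_comm (Ideal.span {row k0})]
        rw [e]
        apply ih
        have : (Finset.univ \ insert k0 S) = (Finset.univ \ S).erase k0 := by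
          ext x; simp only [Finset.mem_sdiff, Finset.mem_univ, Finset.mem_insert,
            Finset.mem_erase, true_and]; tauto
        rw [this, Finset.card_erase_of_mem hk0, hS]; rfl
      · apply fg0_zero _ _ _ (hJ S)
        intro _ l
        have : elim ψ () k0 () l = 0 := by unfold elim; ring
        rw [this]; exact zero_mem _
  have h3 := key _ ∅ rfl
  have h4 : LI (J ∅) ψ = (I.map C).map C ⊔ Ideal.span {bilForm φ} := by
    unfold LI
    have : J ∅ = I.map C := by simp [J]
    rw [this]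
    congr 2
    ext x
    constructor
    · rintro ⟨_, rfl⟩; rfl
    · rintro rfl; exact ⟨(), rfl⟩
  rwa [h4] at h3

/-- linear systems and bilinear hypersurfaces with linear homogeneous coefficients -/
theorem thm_Lin : St_Lin := by
  intro k _ _ n hgood b c φ hφ
  classical
  letI : GradedRing (weightedHomogeneousSubmodule k (fun _ : Fin n => (1 : ℤ))) :=
    MvPolynomial.weightedGradedAlgebra k (fun _ : Fin n => (1 : ℤ))
  have hw : ∀ p : MvPolynomial (Fin n) k, p.IsHomogeneous 1 →
      p ∈ weightedHomogeneousSubmodule k (fun _ : Fin n => (1 : ℤ)) 1 := by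
    intro p hp
    rw [mem_weightedHomogeneousSubmodule]
    intro d hd
    have h1 := hp hd
    rw [Finsupp.weight_apply] at h1 ⊢
    simp only [Pi.one_apply, smul_eq_mul, mul_one, nsmul_eq_mul] at h1 ⊢
    have h2 : ∑ a ∈ d.support, d a = 1 := h1
    show ∑ a ∈ d.support, ((d a : ℕ) : ℤ) = 1
    exact_mod_cast h2
  have h1 := fg0_linear (weightedHomogeneousSubmodule k (fun _ : Fin n => (1 : ℤ))) hgood c
    (Fin c) (Fintype.card_fin c) (Fin b) φ (fun _ => 0) (fun _ => 1)
    (fun i j => by rw [sub_zero]; exact hw _ (hφ i j)) ⊥ (Ideal.IsHomogeneous.bot _)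
  have h2 := fg0_bilinear (weightedHomogeneousSubmodule k (fun _ : Fin n => (1 : ℤ))) hgood φ
    (fun _ => 0) (fun _ => 1)
    (fun i j => by rw [sub_zero]; exact hw _ (hφ i j)) ⊥ (Ideal.IsHomogeneous.bot _)
  refine ⟨h1, ?_⟩
  rwa [Ideal.map_bot, Ideal.map_bot, bot_sup_eq] at h2

end BassH
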