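import Pool.Agent.BassH.Shift

/-!
# BassH, module RL: the resolution lemma
-/

set_option autoImplicit false

namespace BassH

open Pool.Agent.Helper11 Matrix Function

variable {Λ : Type} [CommRing Λ] {Γ : Type} [AddCommGroup Γ]

theorem rl_congr {Pc Qc : FGMod Λ → Prop} {T : FGMod Λ → Γ} (h : AddOn Pc T)
    (hPQ : ∀ M, Pc M ↔ Qc M) : AddOn Qc T := by
  have : Pc = Qc := funext fun M => propext (hPQ M)
  rwa [this] at h

/-- two resolutions give the same value -/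
theorem rl_wd [IsNoetherianRing Λ] {Cc Pc : FGMod Λ → Prop} (h : Resolving Cc Pc)
    {T : FGMod Λ → Γ} (hT : AddOn Pc T)
    {P1 P0 K P M : FGMod Λ} (i1 : P1 →ₗ[Λ] P0) (p0 : P0 →ₗ[Λ] M) (i : K →ₗ[Λ] P)
    (p : P →ₗ[Λ] M) (hi1 : Injective i1) (hp0 : Surjective p0) (h1 : Exact i1 p0)
    (hi : Injective i) (hp : Surjective p) (h2 : Exact i p)
    (hP1 : Pc P1) (hP0 : Pc P0) (hP : Pc P) : T P0 - T P1 = T P - T K := by
  obtain ⟨E, a, b, c, d, ha, hb, hab, hc, hd, hcd, hE, hK⟩ :=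
    shift_A h i1 p0 i p hi1 hp0 h1 hi hp h2 hP1 hP0 hP
  have e1 := hT P1 E P a b ha hb hab hP1 hE hP
  have e2 := hT K E P0 c d hc hd hcd hK hE hP0
  rw [sub_eq_sub_iff_add_eq_add, add_comm (T P0), ← e2, e1, add_comm]

open Classical in
/-- the extension of an additive function by one dimension -/
noncomputable def rlExt (Pc : FGMod Λ → Prop) (T : FGMod Λ → Γ) (M : FGMod Λ) : Γ :=
  if h : ShiftOne Pc M then T h.choose_spec.choose - T h.choose else 0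

theorem rl_ext_eq [IsNoetherianRing Λ] {Cc Pc : FGMod Λ → Prop} (h : Resolving Cc Pc)
    {T : FGMod Λ → Γ} (hT : AddOn Pc T) {K P M : FGMod Λ} (i : K →ₗ[Λ] P)
    (p : P →ₗ[Λ] M) (hi : Injective i) (hp : Surjective p) (h2 : Exact i p)
    (hP : Pc P) (hK : Pc K) : rlExt Pc T M = T P - T K := by
  have hM : ShiftOne Pc M := ⟨K, P, i, p, hi, hp, h2, hP, hK⟩
  have h0 : rlExt Pc T M = T hM.choose_spec.choose - T hM.choose := dif_pos hM
  rw [h0]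
  obtain ⟨i1, p1, hi1, hp1, hip, hP1, hK1⟩ := hM.choose_spec.choose_spec
  exact rl_wd h hT i1 p1 i p hi1 hp1 hip hi hp h2 hK1 hP1 hP

theorem rl_zero {Cc Pc : FGMod Λ → Prop} (h : Resolving Cc Pc)
    {T : FGMod Λ → Γ} (hT : AddOn Pc T) (M : FGMod Λ) (hM : Pc M) :
    T (FGMod.of Λ PUnit.{1}) = 0 := by
  have h0 := shift_zero h M hM
  have := hT (FGMod.of Λ PUnit.{1}) (FGMod.of Λ PUnit.{1}) (FGMod.of Λ PUnit.{1}) LinearMap.id
    LinearMap.id injective_id surjective_id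
    (fun x => ⟨fun _ => ⟨x, rfl⟩, fun _ => Subsingleton.elim _ _⟩) h0 h0 h0
  simpa using this

theorem rl_ext_of [IsNoetherianRing Λ] {Cc Pc : FGMod Λ → Prop} (h : Resolving Cc Pc)
    {T : FGMod Λ → Γ} (hT : AddOn Pc T) (M : FGMod Λ) (hM : Pc M) :
    rlExt Pc T M = T M := by
  have hex : Exact (0 : FGMod.of Λ PUnit.{1} →ₗ[Λ] M) (LinearMap.id : M →ₗ[Λ] M) := by
    intro x
    constructor
    · intro hx
      exact ⟨0, by rw [map_zero]; exact hx.symm⟩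
    · rintro ⟨y, hy⟩
      exact hy.symm
  rw [rl_ext_eq h hT (0 : FGMod.of Λ PUnit.{1} →ₗ[Λ] M) LinearMap.id
    (fun x y _ => Subsingleton.elim _ _) surjective_id hex hM (shift_zero h M hM),
    rl_zero h hT M hM, sub_zero]

theorem rl_addOn [IsNoetherianRing Λ] {Cc Pc : FGMod Λ → Prop} (h : Resolving Cc Pc)
    {T : FGMod Λ → Γ} (hT : AddOn Pc T) :
    AddOn (fun M => Cc M ∧ ShiftOne Pc M) (rlExt Pc T) := by
  rintro A B C f g hf hg hfg ⟨hA, K1, P1, i1, p1, hi1, hp1, hip1, hP1, hK1⟩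
    ⟨hB, hB'⟩ ⟨hC, K2, P2, i2, p2, hi2, hp2, hip2, hP2, hK2⟩
  obtain ⟨P, q, hP, hq⟩ := h.enough B hB
  obtain ⟨KB, KC, iB, iC, j, r, hiB, hBq, hiC, hgq, hCq, hj, hr, hjr⟩ :=
    shift_pull f g q hf hg hfg hq
  obtain ⟨_, _, _, _, _, _, _, _, _, _, _, _, hKC⟩ := shift_A h i2 p2 iC (g.comp q) hi2 hp2
    hip2 hiC hgq hCq hK2 hP2 hP
  obtain ⟨_, _, _, _, _, _, _, _, _, _, _, _, hKB⟩ := shift_A h i1 p1 j r hi1 hp1
    hip1 hj hr hjr hK1 hP1 hKC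
  rw [rl_ext_eq h hT iB q hiB hq hBq hP hKB, rl_ext_eq h hT iC (g.comp q) hiC hgq hCq hP hKC,
    rl_ext_eq h hT j r hj hr hjr hKC hKB]
  abel

/-- the iterated extension -/
noncomputable def rlIt (Cc Pc : FGMod Λ → Prop) (T : FGMod Λ → Γ) : ℕ → FGMod Λ → Γ
  | 0 => T
  | n + 1 => rlExt (fun M => Cc M ∧ Dim Pc n M) (rlIt Cc Pc T n)

theorem rl_it_addOn [IsNoetherianRing Λ] {Cc Pc : FGMod Λ → Prop} (h : Resolving Cc Pc)
    {T : FGMod Λ → Γ} (hT : AddOn Pc T) : ∀ n : ℕ,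
    AddOn (fun M => Cc M ∧ Dim Pc n M) (rlIt Cc Pc T n)
  | 0 => rl_congr hT (fun M => ⟨fun hM => ⟨h.le M hM, hM⟩, fun hM => hM.2⟩)
  | n + 1 => by
    obtain ⟨h1, h2, _⟩ := shift_main h n
    exact rl_congr (rl_addOn h1 (rl_it_addOn h hT n)) (fun M => and_congr_right fun hM =>
      shift_succ_iff h n h1 h2 M hM)

theorem rl_dim_mono [IsNoetherianRing Λ] {Cc Pc : FGMod Λ → Prop} (h : Resolving Cc Pc)
    (M : FGMod Λ) (hM : Cc M) (n : ℕ) (hn : Dim Pc n M) : ∀ k : ℕ, Dim Pc (n + k) M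
  | 0 => hn
  | k + 1 => (shift_main h (n + k)).2.2 M (rl_dim_mono h M hM n hn k) hM

theorem rl_it_mono [IsNoetherianRing Λ] {Cc Pc : FGMod Λ → Prop} (h : Resolving Cc Pc)
    {T : FGMod Λ → Γ} (hT : AddOn Pc T) (M : FGMod Λ) (hM : Cc M) (n : ℕ)
    (hn : Dim Pc n M) : ∀ k : ℕ, rlIt Cc Pc T (n + k) M = rlIt Cc Pc T n M
  | 0 => rfl
  | k + 1 => by
    rw [← rl_it_mono h hT M hM n hn k]
    exact rl_ext_of (shift_main h (n + k)).1 (rl_it_addOn h hT (n + k)) M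
      ⟨hM, rl_dim_mono h M hM n hn k⟩

theorem rl_it_eq [IsNoetherianRing Λ] {Cc Pc : FGMod Λ → Prop} (h : Resolving Cc Pc)
    {T : FGMod Λ → Γ} (hT : AddOn Pc T) (M : FGMod Λ) (hM : Cc M) (n m : ℕ)
    (hn : Dim Pc n M) (hm : Dim Pc m M) : rlIt Cc Pc T n M = rlIt Cc Pc T m M := by
  rw [← rl_it_mono h hT M hM n hn m, ← rl_it_mono h hT M hM m hm n, add_comm]

open Classical in
theorem thm_RL : St_RL := by
  intro Λ _ _ Cc Pc h hfin Γ _ T hT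
  let T' : FGMod Λ → Γ := fun M =>
    if hM : ∃ n, Dim Pc n M then rlIt Cc Pc T hM.choose M else 0
  have hT' : ∀ (M : FGMod Λ), Cc M → ∀ n, Dim Pc n M → T' M = rlIt Cc Pc T n M := by
    intro M hM n hn
    have hex : ∃ n, Dim Pc n M := ⟨n, hn⟩
    have h0 : T' M = rlIt Cc Pc T hex.choose M := dif_pos hex
    rw [h0]
    exact rl_it_eq h hT M hM _ _ hex.choose_spec hn
  refine ⟨T', ⟨h.sq, ?_⟩, fun M hM => hT' M (h.le M hM) 0 hM⟩
  intro A B C f g hf hg hfg hB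
  have hA : Cc A := h.sq.sub A B f hf hB
  have hC : Cc C := h.sq.quot B C g hg hB
  obtain ⟨a, ha⟩ := hfin A hA
  obtain ⟨b, hb⟩ := hfin B hB
  obtain ⟨c, hc⟩ := hfin C hC
  have ha' : Dim Pc (a + (b + c)) A := rl_dim_mono h A hA a ha (b + c)
  have hb' : Dim Pc (a + (b + c)) B := by
    have := rl_dim_mono h B hB b hb (a + c)
    rwa [show b + (a + c) = a + (b + c) by ring] at this
  have hc' : Dim Pc (a + (b + c)) C := by
    have := rl_dim_mono h C hC c hc (a + b)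
    rwa [show c + (a + b) = a + (b + c) by ring] at this
  rw [hT' A hA _ ha', hT' B hB _ hb', hT' C hC _ hc']
  exact rl_it_addOn h hT _ A B C f g hf hg hfg ⟨hA, ha'⟩ ⟨hB, hb'⟩ ⟨hC, hc'⟩

end BassH
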