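import Pool.Agent.BassH.All
import Pool.Agent.BassH.Hier

/-!
# Bass's finiteness question for `K'₀`, residual dimension and trilinear forms
-/

set_option autoImplicit false

namespace Pool.Agent.Results.MP_e17fa799_al.ResidualHierarchy

open Pool.Agent.Helper11 BassH MvPolynomial

/-- Let `k = ℤ` (`m = 0`) or `k = 𝔽_p` (`m = p`), and `d ≥ 0`. For a tensor `t` of format
`(d + 2, b, c)` over `k` let `F = ∑ t i j l xᵢ yⱼ z_l`.

(A) The cubic `F = T² - T` is smooth over `k`.

(B) The following are equivalent: `G₀(C)` is finitely generated for all finitely generated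
`k`-algebras `C` all of whose residue fields have transcendence degree at most `d` over their prime
field; `G₀` is finitely generated for the closed subschemes of affine `(d + 1)`-space over `k`; for
the trilinear hypersurfaces `F = 0` of format `(d + 2, b, c)`; for the smooth cubics `F = T² - T`;
`K₁` is finitely generated for the complements `F ≠ 0`, `F` a nonzero form of this format.

(C) For `k = ℤ`, `d = 0` and for `k = 𝔽_p`, `d ≤ 1` all this is true.

(D) For every closed subscheme of affine `(d + 1)`-space over `k` there is one form of this format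
so that its `G₀` is a quotient of the last three groups. -/
theorem result (m : ℕ) (hm : m = 0 ∨ m.Prime) (d : ℕ) :
    (∀ (b c : ℕ) (t : Fin (d + 2) → Fin b → Fin c → ZMod m),
      Algebra.Smooth (ZMod m) (CubRing t)) ∧
    List.TFAE [ResFG (ZMod m) d, AffFG (ZMod m) (d + 1), TriFG (ZMod m) (d + 2),
      CubFG (ZMod m) (d + 2), CompFG (ZMod m) (d + 2)] ∧
    ((m = 0 → d = 0) → d ≤ 1 → ResFG (ZMod m) d ∧ AffFG (ZMod m) (d + 1) ∧
      TriFG (ZMod m) (d + 2) ∧ CubFG (ZMod m) (d + 2) ∧ CompFG (ZMod m) (d + 2)) ∧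
    ∀ I : Ideal (MvPolynomial (Fin (d + 1)) (ZMod m)),
      ∃ (b c : ℕ) (t : Fin (d + 2) → Fin b → Fin c → ZMod m), triF t ≠ 0 ∧
        SurjectsOnto (G0 (TriRing t)) (G0 (MvPolynomial (Fin (d + 1)) (ZMod m) ⧸ I)) ∧
        SurjectsOnto (G0 (CubRing t)) (G0 (MvPolynomial (Fin (d + 1)) (ZMod m) ⧸ I)) ∧
        SurjectsOnto (K1 (CompRing t)) (G0 (MvPolynomial (Fin (d + 1)) (ZMod m) ⧸ I)) := by
  obtain ⟨hs, ht⟩ := all_Final m hm d
  obtain ⟨hd, hp⟩ := final_zmod m hm
  have ht' : List.TFAE [ResFG (ZMod m) d, AffFG (ZMod m) (d + 1), TriFG (ZMod m) (d + 2),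
      CubFG (ZMod m) (d + 2), CompFG (ZMod m) (d + 2)] := ht
  refine ⟨hs, ht', fun h0 h1 => ?_, fun I => ?_⟩
  · have h2 : AffFG (ZMod m) (d + 1) := fun I => thm_Small m d h0 h1 I
    exact ⟨(ht'.out 1 0 rfl rfl).mp h2, h2, (ht'.out 1 2 rfl rfl).mp h2,
      (ht'.out 1 3 rfl rfl).mp h2, (ht'.out 1 4 rfl rfl).mp h2⟩
  · obtain ⟨b, c, t, h1, h2, h3, h4⟩ := thm_Enc (ZMod m) (d + 1) I
    exact ⟨b, c, t, h1, h3, h4, h2⟩

end Pool.Agent.Results.MP_e17fa799_al.ResidualHierarchy
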