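import Pool.Agent.BassH.Defs
import Pool.Agent.Helper67.Bass.Bil
import Pool.Agent.Helper83.Bass.Main

/-!
# BassH: frozen statements
-/

set_option autoImplicit false

namespace BassH

open Pool.Agent.Helper11 Matrix Function

/-! ## KT: tools for `K₁` -/

/-- products -/
def St_KcMul : Prop := ∀ (A : Type) [CommRing A] (ι : Type) [Fintype ι] [DecidableEq ι]
  (M N : Matrix ι ι A), IsUnit M → IsUnit N → kc (M * N) = kc M + kc N

/-- change of the index set -/
def St_KcIdx : Prop := ∀ (A : Type) [CommRing A] (ι κ : Type) [Fintype ι] [DecidableEq ι]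
  [Fintype κ] [DecidableEq κ] (e : κ ≃ ι) (M : Matrix ι ι A), IsUnit M →
  kc (M.submatrix e e) = kc M

/-- block triangular matrices -/
def St_KcBlock : Prop := ∀ (A : Type) [CommRing A] (ι κ : Type) [Fintype ι] [DecidableEq ι]
  [Fintype κ] [DecidableEq κ] (M : Matrix ι ι A) (N : Matrix κ κ A) (X : Matrix ι κ A)
  (Y : Matrix κ ι A), IsUnit M → IsUnit N →
  kc (fromBlocks M X 0 N) = kc M + kc N ∧ kc (fromBlocks M 0 Y N) = kc M + kc N

/-- every element of `K₁` is the class of a matrix; comparison with `K1.mk`; functoriality -/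
def St_KcGen : Prop := ∀ (A : Type) [CommRing A],
  (∀ x : K1 A, ∃ (n : ℕ) (M : Matrix (Fin n) (Fin n) A), IsUnit M ∧ x = kc M) ∧
  (∀ (n : ℕ) (α : GL (Fin n) A), K1.mk n α = kc α.val) ∧
  (∀ (B : Type) [CommRing B] (f : A →+* B) (ι : Type) [Fintype ι] [DecidableEq ι]
    (M : Matrix ι ι A), IsUnit M → K1map f (kc M) = kc (M.map f))

/-! ## RL: resolution lemma -/

/-- Dimension shift: the kernel of a surjection from a module of dimension at most `n` to a module
of dimension at most `n + 1` has dimension at most `n`. Moreover the modules of dimension at most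
`n` form a resolving class. -/
def St_Shift : Prop := ∀ (Λ : Type) [CommRing Λ] [IsNoetherianRing Λ] (Cc Pc : FGMod Λ → Prop),
  Resolving Cc Pc → ∀ n : ℕ,
  Resolving Cc (fun M => Cc M ∧ Dim Pc n M) ∧
  (∀ M, Dim Pc n M → Cc M → Dim Pc (n + 1) M) ∧
  ∀ (K P M : FGMod Λ) (i : K →ₗ[Λ] P) (p : P →ₗ[Λ] M), Injective i → Surjective p → Exact i p →
    Cc P → Dim Pc n P → Cc M → Dim Pc (n + 1) M → Dim Pc n K

/-- Resolution lemma: an additive function on a resolving class extends. -/
def St_RL : Prop := ∀ (Λ : Type) [CommRing Λ] [IsNoetherianRing Λ] (Cc Pc : FGMod Λ → Prop),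
  Resolving Cc Pc → (∀ M, Cc M → ∃ n, Dim Pc n M) →
  ∀ (Γ : Type) [AddCommGroup Γ] (T : FGMod Λ → Γ), AddOn Pc T →
  ∃ T' : FGMod Λ → Γ, IsAdd Cc T' ∧ ∀ M, Pc M → T' M = T M

/-! ## SF: stably free modules -/

/-- Stably free modules form a resolving class in the class of all modules, and over a ring with
finite free resolutions all modules have finite dimension. -/
def St_SF : Prop := ∀ (R : Type) [CommRing R] [IsNoetherianRing R],
  Resolving (fun _ => True) (SF R) ∧ ∀ (n : ℕ) (M : FGMod R), FFR n M → Dim (SF R) n M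

/-! ## TT: torsion modules -/

/-- Two square presentations of isomorphic torsion modules have the same class. -/
def St_TorsWD : Prop := ∀ (S L : Type) [CommRing S] [IsDomain S] [IsNoetherianRing S] [CommRing L]
  [Algebra S L] (F : S) [IsLocalization.Away F L], F ≠ 0 → ∀ (n m : ℕ)
  (a : Matrix (Fin n) (Fin n) S) (b : Matrix (Fin m) (Fin m) S), FInv F a → FInv F b →
  Nonempty (cokM a ≃ₗ[S] cokM b) →
  kc (a.map (algebraMap S L)) - kc (b.map (algebraMap S L)) ∈ (K1map (algebraMap S L)).range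

/-- Horseshoe lemma for square presentations. -/
def St_TorsExt : Prop := ∀ (S : Type) [CommRing S] [IsDomain S] [IsNoetherianRing S] (F : S),
  F ≠ 0 → ∀ (n m : ℕ) (a : Matrix (Fin n) (Fin n) S) (b : Matrix (Fin m) (Fin m) S), FInv F a →
  FInv F b → ∀ (M' M M'' : FGMod S) (f : M' →ₗ[S] M) (g : M →ₗ[S] M''), Injective f →
  Surjective g → Exact f g → (cokM a ≃ₗ[S] M') → (cokM b ≃ₗ[S] M'') →
  ∃ X : Matrix (Fin n) (Fin m) S,
    FInv F ((fromBlocks a X 0 b).submatrix finSumFinEquiv.symm finSumFinEquiv.symm) ∧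
    Nonempty (cokM ((fromBlocks a X 0 b).submatrix finSumFinEquiv.symm finSumFinEquiv.symm)
      ≃ₗ[S] M)

/-- The torsion modules with a square presentation form a resolving class of finite dimension. -/
def St_TorsRes : Prop := ∀ (S : Type) [CommRing S] [IsDomain S] [IsNoetherianRing S] (F : S),
  F ≠ 0 → AllFFR S → Resolving (KilledPow F) (Tors1 F) ∧
    ∀ M, KilledPow F M → ∃ n, Dim (Tors1 F) n M

/-- The torsion functional. -/
def St_Tors : Prop := ∀ (S L : Type) [CommRing S] [IsDomain S] [IsNoetherianRing S] [CommRing L]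
  [Algebra S L] (F : S) [IsLocalization.Away F L], F ≠ 0 → AllFFR S →
  ∃ T : FGMod S → K1 L ⧸ (K1map (algebraMap S L)).range, IsAdd (KilledPow F) T ∧
    ∀ (n : ℕ) (a : Matrix (Fin n) (Fin n) S), FInv F a →
      T (cokM a) = QuotientAddGroup.mk (kc (a.map (algebraMap S L)))

/-- `K₁` of the complement of a hypersurface and `G₀` of the hypersurface. -/
def St_Loc : Prop := ∀ (S L : Type) [CommRing S] [IsDomain S] [IsNoetherianRing S] [CommRing L]
  [Algebra S L] (F : S) [IsLocalization.Away F L], F ≠ 0 → AllFFR S →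
  (FG0 (S ⧸ Ideal.span {F}) → AddGroup.FG (K1 S) → AddGroup.FG (K1 L)) ∧
  (AddGroup.FG (K1 L) → FG0 (S ⧸ Ideal.span {F}))

/-! ## NN: nilpotent endomorphisms and `K₁` of polynomial rings -/

/-- Higman's linearisation. -/
def St_Higman : Prop := ∀ (R : Type) [CommRing R] (x : K1 (Polynomial R)),
  ∃ (y : K1 R) (n : ℕ) (N : Matrix (Fin n) (Fin n) R), IsNilpotent N ∧
    x = K1map Polynomial.C y + kc (1 + (Polynomial.X : Polynomial R) • N.map Polynomial.C)

/-- Two stable presentations of the same nilpotent module have the same class. -/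
def St_NilWD : Prop := ∀ (R : Type) [CommRing R] (M M' : FGMod (Polynomial R)) (a b a' b' : ℕ)
  (N : Matrix (Fin b) (Fin b) R) (N' : Matrix (Fin b') (Fin b') R), IsNilpotent N →
  IsNilpotent N' → StNil M a N → StNil M' a' N' → Nonempty (M ≃ₗ[Polynomial R] M') →
  kc (1 + (Polynomial.X : Polynomial R) • N.map Polynomial.C) =
    kc (1 + (Polynomial.X : Polynomial R) • N'.map Polynomial.C)

/-- Extensions of nilpotent modules. -/
def St_NilExt : Prop := ∀ (R : Type) [CommRing R] [IsNoetherianRing R]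
  (M' M M'' : FGMod (Polynomial R)) (f : M' →ₗ[Polynomial R] M) (g : M →ₗ[Polynomial R] M''),
  Injective f → Surjective g → Exact f g → ∀ (a b a'' b'' : ℕ) (N : Matrix (Fin b) (Fin b) R)
  (N'' : Matrix (Fin b'') (Fin b'') R), IsNilpotent N → IsNilpotent N'' → StNil M' a N →
  StNil M'' a'' N'' → ∃ X : Matrix (Fin b) (Fin b'') R,
    IsNilpotent ((fromBlocks N X 0 N'').submatrix finSumFinEquiv.symm finSumFinEquiv.symm) ∧
    StNil M (a + a'') ((fromBlocks N X 0 N'').submatrix finSumFinEquiv.symm finSumFinEquiv.symm)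

/-- Nilpotent modules which are stably free over `R` form a resolving class of finite dimension. -/
def St_NilRes : Prop := ∀ (R : Type) [CommRing R] [IsNoetherianRing R], AllFFR R →
  Resolving (KilledPow (Polynomial.X : Polynomial R)) (NilSF R) ∧
    (∀ M, KilledPow (Polynomial.X : Polynomial R) M → ∃ n, Dim (NilSF R) n M)

/-- The class of a nilpotent endomorphism vanishes. -/
def St_Nil : Prop := ∀ (R : Type) [CommRing R] [IsNoetherianRing R], AllFFR R →
  ∀ (n : ℕ) (N : Matrix (Fin n) (Fin n) R), IsNilpotent N →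
    kc (1 + (Polynomial.X : Polynomial R) • N.map Polynomial.C) = 0

/-- `K₁` of a euclidean domain with finitely generated group of units. -/
def St_KEuc : Prop := ∀ (R : Type) [EuclideanDomain R] (x : K1 R), ∃ u : Rˣ,
  x = kc (Matrix.of fun _ _ : Fin 1 => (u : R))

/-- `K₁` of polynomial rings over `ℤ` and `𝔽_p`. -/
def St_KPoly : Prop := ∀ m : ℕ, (m = 0 ∨ m.Prime) → ∀ (σ : Type) [Finite σ],
  AddGroup.FG (K1 (MvPolynomial σ (ZMod m)))

/-- Finite free resolutions over polynomial rings over `ℤ` and `𝔽_p`. -/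
def St_AllFFR : Prop := ∀ m : ℕ, (m = 0 ∨ m.Prime) → ∀ (σ : Type) [Finite σ],
  AllFFR (MvPolynomial σ (ZMod m))

end BassH
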