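import Pool.Agent.BassH.Stmts

/-!
# BassH: frozen statements, geometric part
-/

set_option autoImplicit false

namespace BassH

open Pool.Agent.Helper11 Function
open Pool.Agent.Helper67.Bass (LI bilForm)

attribute [local instance] MvPolynomial.weightedGradedAlgebra

/-- the ideal is homogeneous for the standard grading -/
def HomId {k : Type} [CommRing k] {n : ℕ} (I : Ideal (MvPolynomial (Fin n) k)) : Prop :=
  I.IsHomogeneous (MvPolynomial.weightedHomogeneousSubmodule k (fun _ : Fin n => (1 : ℤ)))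

/-- Closure properties of the class of rings with finitely generated `G₀`. -/
structure FG0Closed : Prop where
  equiv : ∀ (R S : Type) [CommRing R] [CommRing S], (R ≃+* S) → FG0 R → FG0 S
  subs : ∀ (R : Type) [CommRing R] [Subsingleton R], FG0 R
  pid : ∀ (R : Type) [CommRing R] [IsDomain R] [IsPrincipalIdealRing R], FG0 R
  mv : ∀ (R : Type) [CommRing R] [IsNoetherianRing R] (σ : Type) [Finite σ], FG0 R →
    FG0 (MvPolynomial σ R)
  away : ∀ (R V : Type) [CommRing R] [IsNoetherianRing R] [CommRing V] [Algebra R V] (s : R)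
    [IsLocalization.Away s V], FG0 R → FG0 V
  of_away : ∀ (R V : Type) [CommRing R] [IsNoetherianRing R] [CommRing V] [Algebra R V] (s : R)
    [IsLocalization.Away s V], FG0 (R ⧸ Ideal.span {s}) → FG0 V → FG0 R
  of_mul : ∀ (R : Type) [CommRing R] [IsNoetherianRing R] (I J : Ideal R), I * J = ⊥ →
    FG0 (R ⧸ I) → FG0 (R ⧸ J) → FG0 R
  of_prime : ∀ (R : Type) [CommRing R] [IsNoetherianRing R],
    (∀ P : Ideal R, P.IsPrime → FG0 (R ⧸ P)) → FG0 R

/-- Linear systems and bilinear hypersurfaces with homogeneous linear coefficients. -/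
def St_Lin : Prop := ∀ (k : Type) [CommRing k] [IsNoetherianRing k] (n : ℕ),
  (∀ I : Ideal (MvPolynomial (Fin n) k), HomId I → FG0 (MvPolynomial (Fin n) k ⧸ I)) →
  ∀ (b c : ℕ) (φ : Fin b → Fin c → MvPolynomial (Fin n) k), (∀ i j, (φ i j).IsHomogeneous 1) →
    FG0 (MvPolynomial (Fin c) (MvPolynomial (Fin n) k) ⧸ LI (⊥ : Ideal (MvPolynomial (Fin n) k)) φ) ∧
    FG0 (MvPolynomial (Fin b) (MvPolynomial (Fin c) (MvPolynomial (Fin n) k)) ⧸
      Ideal.span {bilForm φ})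

/-- Homogeneous ideals of the polynomial ring in `n + 1` variables. -/
def St_Hom : Prop := ∀ (k : Type) [CommRing k] [IsNoetherianRing k] (n : ℕ),
  (∀ I : Ideal (MvPolynomial (Fin n) k), FG0 (MvPolynomial (Fin n) k ⧸ I)) →
  ∀ I : Ideal (MvPolynomial (Fin (n + 1)) k), HomId I → FG0 (MvPolynomial (Fin (n + 1)) k ⧸ I)

/-- Trilinear hypersurfaces. -/
def St_TriFG : Prop := ∀ (k : Type) [CommRing k] [IsNoetherianRing k] (n : ℕ),
  (∀ I : Ideal (MvPolynomial (Fin n) k), FG0 (MvPolynomial (Fin n) k ⧸ I)) →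
  ∀ (b c : ℕ) (t : Fin (n + 1) → Fin b → Fin c → k),
    FG0 (MvPolynomial (Fin (n + 1) ⊕ Fin b ⊕ Fin c) k ⧸ Ideal.span {triF t})

/-- Smooth cubics. -/
def St_CubFG : Prop := ∀ (k : Type) [CommRing k] [IsNoetherianRing k] (n : ℕ), FG0 k →
  (∀ I : Ideal (MvPolynomial (Fin n) k), FG0 (MvPolynomial (Fin n) k ⧸ I)) →
  ∀ (b c : ℕ) (t : Fin (n + 1) → Fin b → Fin c → k),
    FG0 (MvPolynomial (Option (Fin (n + 1) ⊕ Fin b ⊕ Fin c)) k ⧸ Ideal.span {cubF t})

/-- The cubics are smooth. -/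
def St_CubSm : Prop := ∀ (k : Type) [CommRing k] (a b c : ℕ) (t : Fin a → Fin b → Fin c → k),
  Algebra.Smooth k (MvPolynomial (Option (Fin a ⊕ Fin b ⊕ Fin c)) k ⧸ Ideal.span {cubF t})

/-- Every closed subscheme of affine space is reached. -/
def St_Enc : Prop := ∀ (k : Type) [CommRing k] [IsDomain k] [IsPrincipalIdealRing k] (n : ℕ)
  (I : Ideal (MvPolynomial (Fin n) k)),
  ∃ (b c : ℕ) (t : Fin (n + 1) → Fin b → Fin c → k), triF t ≠ 0 ∧
    SurjectsOnto (K1 (Localization.Away (triF t))) (G0 (MvPolynomial (Fin n) k ⧸ I)) ∧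
    SurjectsOnto (G0 (MvPolynomial (Fin (n + 1) ⊕ Fin b ⊕ Fin c) k ⧸ Ideal.span {triF t}))
      (G0 (MvPolynomial (Fin n) k ⧸ I)) ∧
    SurjectsOnto (G0 (MvPolynomial (Option (Fin (n + 1) ⊕ Fin b ⊕ Fin c)) k ⧸
      Ideal.span {cubF t})) (G0 (MvPolynomial (Fin n) k ⧸ I))

/-- From rings of bounded residual dimension to closed subschemes of affine space. -/
def St_Dim1 : Prop := ∀ m : ℕ, (m = 0 ∨ m.Prime) → ∀ d : ℕ,
  (∀ (C : Type) [CommRing C] [Algebra (ZMod m) C] [Algebra.FiniteType (ZMod m) C],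
    ResDimLE d C → FG0 C) →
  ∀ I : Ideal (MvPolynomial (Fin (d + 1)) (ZMod m)), FG0 (MvPolynomial (Fin (d + 1)) (ZMod m) ⧸ I)

/-- From closed subschemes of affine space to rings of bounded residual dimension. -/
def St_Dim2 : Prop := ∀ m : ℕ, (m = 0 ∨ m.Prime) → ∀ d : ℕ,
  (∀ I : Ideal (MvPolynomial (Fin (d + 1)) (ZMod m)),
    FG0 (MvPolynomial (Fin (d + 1)) (ZMod m) ⧸ I)) →
  ∀ (C : Type) [CommRing C] [Algebra (ZMod m) C] [Algebra.FiniteType (ZMod m) C],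
    ResDimLE d C → FG0 C

/-- The hierarchy theorem. -/
def St_Final : Prop := ∀ m : ℕ, (m = 0 ∨ m.Prime) → ∀ d : ℕ,
  (∀ (b c : ℕ) (t : Fin (d + 2) → Fin b → Fin c → ZMod m), Algebra.Smooth (ZMod m)
    (MvPolynomial (Option (Fin (d + 2) ⊕ Fin b ⊕ Fin c)) (ZMod m) ⧸ Ideal.span {cubF t})) ∧
  List.TFAE [
    ∀ (C : Type) [CommRing C] [Algebra (ZMod m) C] [Algebra.FiniteType (ZMod m) C],
      ResDimLE d C → AddGroup.FG (G0 C),
    ∀ I : Ideal (MvPolynomial (Fin (d + 1)) (ZMod m)),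
      AddGroup.FG (G0 (MvPolynomial (Fin (d + 1)) (ZMod m) ⧸ I)),
    ∀ (b c : ℕ) (t : Fin (d + 2) → Fin b → Fin c → ZMod m), AddGroup.FG
      (G0 (MvPolynomial (Fin (d + 2) ⊕ Fin b ⊕ Fin c) (ZMod m) ⧸ Ideal.span {triF t})),
    ∀ (b c : ℕ) (t : Fin (d + 2) → Fin b → Fin c → ZMod m), AddGroup.FG
      (G0 (MvPolynomial (Option (Fin (d + 2) ⊕ Fin b ⊕ Fin c)) (ZMod m) ⧸ Ideal.span {cubF t})),
    ∀ (b c : ℕ) (t : Fin (d + 2) → Fin b → Fin c → ZMod m), triF t ≠ 0 →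
      AddGroup.FG (K1 (Localization.Away (triF t)))]

end BassH
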