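import Pool.Agent.BassH.Hom
import Pool.Agent.Helper67.Bass.Main3

/-!
# BassH: trilinear hypersurfaces
-/

set_option autoImplicit false
set_option linter.style.haveILetI false
set_option linter.unusedSectionVars false

namespace BassH

open Function MvPolynomial
open Pool.Agent.Helper11 (G0)
open Pool.Agent.Helper67.Bass (LI bilForm flatEquiv flat_x flat_y flat_z)

section

variable {k : Type} [CommRing k] {a b c : ℕ}

/-- permutation of the variables -/
def permV (a b c : ℕ) : (Fin a ⊕ Fin b ⊕ Fin c) ≃ (Fin b ⊕ Fin c ⊕ Fin a) :=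
  (Equiv.sumComm _ _).trans (Equiv.sumAssoc _ _ _)

/-- flat and nested coordinates -/
noncomputable def triEquiv (k : Type) [CommRing k] (a b c : ℕ) :
    MvPolynomial (Fin a ⊕ Fin b ⊕ Fin c) k ≃+*
      MvPolynomial (Fin b) (MvPolynomial (Fin c) (MvPolynomial (Fin a) k)) :=
  (renameEquiv k (permV a b c)).toRingEquiv.trans (flatEquiv b c a)

theorem triEquiv_C (r : k) : triEquiv k a b c (C r) = C (C (C r)) := by
  unfold triEquiv
  rw [RingEquiv.trans_apply]
  show flatEquiv b c a (rename (permV a b c) (C r)) = _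
  rw [rename_C, ← flat_x (C r), rename_C]

theorem triEquiv_x (i : Fin a) : triEquiv k a b c (X (Sum.inl i)) = C (C (X i)) := by
  unfold triEquiv
  rw [RingEquiv.trans_apply]
  show flatEquiv b c a (rename (permV a b c) (X (Sum.inl i))) = _
  rw [rename_X, ← flat_x (X i), rename_X]
  rfl

theorem triEquiv_y (j : Fin b) : triEquiv k a b c (X (Sum.inr (Sum.inl j))) = X j := by
  unfold triEquiv
  rw [RingEquiv.trans_apply]
  show flatEquiv b c a (rename (permV a b c) (X (Sum.inr (Sum.inl j)))) = _
  rw [rename_X, ← flat_y j]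
  rfl

theorem triEquiv_z (l : Fin c) : triEquiv k a b c (X (Sum.inr (Sum.inr l))) = C (X l) := by
  unfold triEquiv
  rw [RingEquiv.trans_apply]
  show flatEquiv b c a (rename (permV a b c) (X (Sum.inr (Sum.inr l)))) = _
  rw [rename_X, ← flat_z l]
  rfl

/-- the coefficients of the bilinear form -/
noncomputable def triφ (t : Fin a → Fin b → Fin c → k) (j : Fin b) (l : Fin c) :
    MvPolynomial (Fin a) k := ∑ i, C (t i j l) * X i

theorem triφ_hom (t : Fin a → Fin b → Fin c → k) (j : Fin b) (l : Fin c) :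
    (triφ t j l).IsHomogeneous 1 := by
  unfold triφ
  refine IsHomogeneous.sum _ _ _ fun i _ => ?_
  have := (isHomogeneous_C (Fin a) (t i j l)).mul (isHomogeneous_X k i)
  rwa [zero_add] at this

theorem triEquiv_triF (t : Fin a → Fin b → Fin c → k) :
    triEquiv k a b c (triF t) = bilForm (triφ t) := by
  unfold triF bilForm triφ
  have e1 : ∀ (i : Fin a) (j : Fin b) (l : Fin c), triEquiv k a b c
      (C (t i j l) * X (Sum.inl i) * X (Sum.inr (Sum.inl j)) * X (Sum.inr (Sum.inr l))) =
      C (C (C (t i j l) * X i) * X l) * X j := by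
    intro i j l
    rw [map_mul, map_mul, map_mul, triEquiv_C, triEquiv_x, triEquiv_y, triEquiv_z]
    simp only [map_mul]
    ring
  have e2 : triEquiv k a b c (∑ i, ∑ j, ∑ l,
      C (t i j l) * X (Sum.inl i) * X (Sum.inr (Sum.inl j)) * X (Sum.inr (Sum.inr l))) =
      ∑ i, ∑ j, ∑ l, C (C (C (t i j l) * X i) * X l) * X j := by
    simp only [map_sum, e1]
  rw [e2, Finset.sum_comm]
  refine Finset.sum_congr rfl fun j _ => ?_
  rw [Finset.sum_comm, map_sum, Finset.sum_mul]
  refine Finset.sum_congr rfl fun l _ => ?_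
  rw [map_sum, Finset.sum_mul, map_sum, Finset.sum_mul]

end

theorem thm_TriFG : St_TriFG := by
  intro k _ _ n hk b c t
  have h1 := (thm_Lin k (n + 1) (thm_Hom k n hk) b c (triφ t) (triφ_hom t)).2
  refine closed_equiv _ _ (Ideal.quotientEquiv (Ideal.span {triF t})
    (Ideal.span {bilForm (triφ t)}) (triEquiv k (n + 1) b c) ?_).symm h1
  rw [Ideal.map_span, Set.image_singleton]
  show _ = Ideal.span {triEquiv k (n + 1) b c (triF t)}
  rw [triEquiv_triF]

end BassH
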